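import Mathlib

/-!
# Asymptotics
-/

namespace Pool.Agent.TH42.MC

open Filter Topology

theorem ratio_limit {m : ℝ} (hm : 1 ≤ m) (c : ℕ) {a : ℕ → ℝ} (hpos : ∀ n, 0 < a n)
    (hlc : ∀ n, a (n + 1) ^ 2 ≤ a n * a (n + 2)) (hup : ∀ n, a n ≤ m ^ n)
    (hgr : ∀ n : ℕ, m ^ n ≤ ((n : ℝ) + 1) ^ c * a n) :
    Tendsto (fun n => a (n + 1) / a n) atTop (𝓝 m) := by
  have hm0 : 0 < m := by linarith
  have hmono : Monotone (fun n => a (n + 1) / a n) := by
    refine monotone_nat_of_le_succ fun n => ?_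
    rw [div_le_div_iff₀ (hpos n) (hpos (n + 1))]
    have := hlc n
    nlinarith
  have hlow : ∀ N j, a N * (a (N + 1) / a N) ^ j ≤ a (N + j) := by
    intro N j
    induction j with
    | zero => simp
    | succ j ih =>
      have h1 : a (N + 1) / a N ≤ a (N + j + 1) / a (N + j) := hmono (Nat.le_add_right N j)
      have h2 : a (N + j + 1) = a (N + j) * (a (N + j + 1) / a (N + j)) := by
        field_simp [(hpos (N + j)).ne']
      have h3 : 0 < a (N + 1) / a N := div_pos (hpos _) (hpos _)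
      calc a N * (a (N + 1) / a N) ^ (j + 1) = (a N * (a (N + 1) / a N) ^ j) *
            (a (N + 1) / a N) := by ring
        _ ≤ a (N + j) * (a (N + j + 1) / a (N + j)) :=
            mul_le_mul ih h1 h3.le (hpos _).le
        _ = a (N + (j + 1)) := by rw [← h2]; rfl
  have hbdd : ∀ n, a (n + 1) / a n ≤ m := by
    intro N
    by_contra hcon
    push Not at hcon
    have h1 : 1 < (a (N + 1) / a N) / m := by
      rw [lt_div_iff₀ hm0, one_mul]
      exact hcon
    have h2 := tendsto_pow_atTop_atTop_of_one_lt h1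
    obtain ⟨j, hj⟩ := (h2.eventually_gt_atTop (m ^ N / a N)).exists
    have h3 := (hlow N j).trans (hup (N + j))
    rw [div_pow, lt_div_iff₀ (pow_pos hm0 j), div_mul_eq_mul_div,
      div_lt_iff₀ (hpos N), ← pow_add] at hj
    linarith [mul_comm (a N) ((a (N + 1) / a N) ^ j)]
  obtain ⟨L, hL⟩ : ∃ L, Tendsto (fun n => a (n + 1) / a n) atTop (𝓝 L) :=
    ⟨_, tendsto_atTop_ciSup hmono ⟨m, by rintro _ ⟨n, rfl⟩; exact hbdd n⟩⟩
  have hLm : L ≤ m := le_of_tendsto' hL hbdd
  have hrL : ∀ n, a (n + 1) / a n ≤ L := fun n => hmono.ge_of_tendsto hL n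
  have hL0 : 0 < L := lt_of_lt_of_le (div_pos (hpos 1) (hpos 0)) (hrL 0)
  have haL : ∀ n, a n ≤ a 0 * L ^ n := by
    intro n
    induction n with
    | zero => simp
    | succ n ih =>
      have h1 := hrL n
      rw [div_le_iff₀ (hpos n)] at h1
      calc a (n + 1) ≤ L * a n := h1
        _ ≤ L * (a 0 * L ^ n) := mul_le_mul_of_nonneg_left ih hL0.le
        _ = a 0 * L ^ (n + 1) := by ring
  have hLeq : L = m := by
    by_contra hne
    have hlt : L < m := lt_of_le_of_ne hLm hne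
    have h1 : |L / m| < 1 := by
      rw [abs_of_pos (div_pos hL0 hm0), div_lt_one hm0]
      exact hlt
    have h2 := tendsto_pow_const_mul_const_pow_of_abs_lt_one c h1
    have h3 := h2.const_mul (2 ^ c * a 0)
    rw [mul_zero] at h3
    have h4 : ∀ᶠ n : ℕ in atTop, (1 : ℝ) ≤ 2 ^ c * a 0 * ((n : ℝ) ^ c * (L / m) ^ n) := by
      filter_upwards [eventually_ge_atTop 1] with n hn
      have h5 := (hgr n).trans (mul_le_mul_of_nonneg_left (haL n) (by positivity))
      have h6 : ((n : ℝ) + 1) ^ c ≤ (2 * n) ^ c := by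
        refine pow_le_pow_left₀ (by positivity) ?_ c
        have : (1 : ℝ) ≤ n := by exact_mod_cast hn
        linarith
      have h7 : m ^ n ≤ (2 * n) ^ c * (a 0 * L ^ n) :=
        h5.trans (mul_le_mul_of_nonneg_right h6 (mul_nonneg (hpos 0).le (pow_nonneg hL0.le n)))
      have h8 : 2 ^ c * a 0 * ((n : ℝ) ^ c * (L / m) ^ n) =
          ((2 * n) ^ c * (a 0 * L ^ n)) / m ^ n := by
        rw [div_pow, mul_pow]
        ring
      rw [h8, le_div_iff₀ (pow_pos hm0 n), one_mul]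
      exact h7
    have h5 := ge_of_tendsto h3 h4
    linarith
  rw [← hLeq]
  exact hL

theorem eps_limit (c q : ℕ) (hq : 0 < q) {θ : ℝ} (h0 : 0 ≤ θ) (h1 : θ < 1) :
    Tendsto (fun n : ℕ => ((n : ℝ) + 2) ^ c * θ ^ (n / q)) atTop (𝓝 0) := by
  have h2 := tendsto_pow_const_mul_const_pow_of_abs_lt_one c (r := θ) (by
    rw [abs_of_nonneg h0]; exact h1)
  have h3 : Tendsto (fun n : ℕ => n / q) atTop atTop := Nat.tendsto_div_const_atTop hq.ne'
  have h4 := (h2.comp h3).const_mul ((4 * (q : ℝ)) ^ c)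
  rw [mul_zero] at h4
  refine squeeze_zero' (Eventually.of_forall fun n => by positivity) ?_ h4
  filter_upwards [h3.eventually_ge_atTop 1] with n hn
  have h5 : n < q * (n / q + 1) := Nat.lt_mul_div_succ n hq
  have h6 : ((n : ℝ) + 2) ≤ 4 * q * ((n / q : ℕ) : ℝ) := by
    have h7 : n + 2 ≤ 4 * q * (n / q) := by
      nlinarith
    exact_mod_cast h7
  simp only [Function.comp_apply]
  calc ((n : ℝ) + 2) ^ c * θ ^ (n / q) ≤ (4 * q * ((n / q : ℕ) : ℝ)) ^ c * θ ^ (n / q) :=
        mul_le_mul_of_nonneg_right (pow_le_pow_left₀ (by positivity) h6 c) (pow_nonneg h0 _)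
    _ = (4 * (q : ℝ)) ^ c * (((n / q : ℕ) : ℝ) ^ c * θ ^ (n / q)) := by
        rw [mul_pow]
        ring

theorem final_limit {m : ℝ} (hm : 1 ≤ m) (c q : ℕ) (hq : 0 < q) {a C D Z : ℕ → ℝ}
    (hpos : ∀ n, 0 < a n)
    (hlc : ∀ n, a (n + 1) ^ 2 ≤ a n * a (n + 2)) (hup : ∀ n, a n ≤ m ^ n)
    (hgr : ∀ n : ℕ, m ^ n ≤ ((n : ℝ) + 1) ^ c * a n)
    (hC : ∀ n, C n ≤ a (n + 1))
    (hC' : ∀ n, a (n + 1) ≤ C n + (m ^ q - 1) ^ (n / q) * m ^ (n % q + 1))
    (hD : ∀ n, D n ≤ a n)
    (hD' : ∀ n, a n ≤ D n + (m ^ q - 1) ^ (n / q) * m ^ (n % q))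
    (hZ : ∀ n, Z n + D n = C n) :
    Tendsto (fun n => Z n / C n) atTop (𝓝 (1 - 1 / m)) := by
  have hm0 : 0 < m := by linarith
  have hr := ratio_limit hm c hpos hlc hup hgr
  set θ : ℝ := (m ^ q - 1) / m ^ q with hθ
  have hmq : 0 < m ^ q := pow_pos hm0 q
  have hmq1 : 1 ≤ m ^ q := one_le_pow₀ hm
  have hθ0 : 0 ≤ θ := div_nonneg (by linarith) hmq.le
  have hθ1 : θ < 1 := by
    rw [hθ, div_lt_one hmq]
    linarith
  have he := eps_limit c q hq hθ0 hθ1
  have hE : ∀ n : ℕ, (m ^ q - 1) ^ (n / q) * m ^ (n % q) = θ ^ (n / q) * m ^ n := by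
    intro n
    have h1 : m ^ n = (m ^ q) ^ (n / q) * m ^ (n % q) := by
      rw [← pow_mul, ← pow_add, Nat.div_add_mod]
    rw [h1, hθ, div_pow]
    field_simp
  have hDa : Tendsto (fun n => D n / a n) atTop (𝓝 1) := by
    have h1 : Tendsto (fun n : ℕ => 1 - ((n : ℝ) + 2) ^ c * θ ^ (n / q)) atTop (𝓝 1) := by
      simpa using he.const_sub 1
    refine tendsto_of_tendsto_of_tendsto_of_le_of_le h1 tendsto_const_nhds (fun n => ?_)
      (fun n => ?_)
    · beta_reduce
      rw [le_div_iff₀ (hpos n)]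
      have h2 := hD' n
      rw [hE] at h2
      have h3 : θ ^ (n / q) * m ^ n ≤ (((n : ℝ) + 2) ^ c * θ ^ (n / q)) * a n := by
        calc θ ^ (n / q) * m ^ n ≤ θ ^ (n / q) * (((n : ℝ) + 1) ^ c * a n) :=
              mul_le_mul_of_nonneg_left (hgr n) (pow_nonneg hθ0 _)
          _ ≤ θ ^ (n / q) * (((n : ℝ) + 2) ^ c * a n) := by
              refine mul_le_mul_of_nonneg_left ?_ (pow_nonneg hθ0 _)
              refine mul_le_mul_of_nonneg_right ?_ (hpos n).le
              exact pow_le_pow_left₀ (by positivity) (by linarith) c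
          _ = (((n : ℝ) + 2) ^ c * θ ^ (n / q)) * a n := by ring
      linarith
    · beta_reduce
      rw [div_le_one (hpos n)]
      exact hD n
  have hCa : Tendsto (fun n => C n / a (n + 1)) atTop (𝓝 1) := by
    have h1 : Tendsto (fun n : ℕ => 1 - ((n : ℝ) + 2) ^ c * θ ^ (n / q)) atTop (𝓝 1) := by
      simpa using he.const_sub 1
    refine tendsto_of_tendsto_of_tendsto_of_le_of_le h1 tendsto_const_nhds (fun n => ?_)
      (fun n => ?_)
    · beta_reduce
      rw [le_div_iff₀ (hpos _)]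
      have h2 := hC' n
      rw [pow_succ, ← mul_assoc, hE] at h2
      have h3 : θ ^ (n / q) * m ^ n * m ≤ (((n : ℝ) + 2) ^ c * θ ^ (n / q)) * a (n + 1) := by
        have h4 := hgr (n + 1)
        push_cast at h4
        calc θ ^ (n / q) * m ^ n * m = θ ^ (n / q) * m ^ (n + 1) := by ring
          _ ≤ θ ^ (n / q) * (((n : ℝ) + 1 + 1) ^ c * a (n + 1)) :=
              mul_le_mul_of_nonneg_left h4 (pow_nonneg hθ0 _)
          _ = (((n : ℝ) + 2) ^ c * θ ^ (n / q)) * a (n + 1) := by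
              have : (n : ℝ) + 1 + 1 = n + 2 := by ring
              rw [this]
              ring
      linarith
    · beta_reduce
      rw [div_le_one (hpos _)]
      exact hC n
  have hCpos : ∀ᶠ n in atTop, 0 < C n := by
    have h1 := hCa.eventually (lt_mem_nhds (show (0 : ℝ) < 1 by norm_num))
    filter_upwards [h1] with n hn
    by_contra h
    push Not at h
    have := div_nonpos_of_nonpos_of_nonneg h (hpos (n + 1)).le
    linarith
  have h1 : Tendsto (fun n => 1 - (D n / a n) / ((C n / a (n + 1)) * (a (n + 1) / a n)))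
      atTop (𝓝 (1 - 1 / (1 * m))) := by
    refine Tendsto.const_sub 1 ?_
    exact hDa.div (hCa.mul hr) (by positivity)
  rw [one_mul] at h1
  refine h1.congr' ?_
  filter_upwards [hCpos] with n hn
  have h2 := hZ n
  have h3 : Z n = C n - D n := by linarith
  rw [h3]
  have h4 := (hpos n).ne'
  have h5 := (hpos (n + 1)).ne'
  have h6 := hn.ne'
  field_simp

end Pool.Agent.TH42.MC
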