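import Pool.Agent.TH42.MC.LogConv

/-!
# A lower bound for the dimensions of the spaces of trace functions
-/

namespace Pool.Agent.TH42.MC

open Finset Equiv
open scoped Classical

noncomputable section

variable {k n : ℕ}

/-- The action of a permutation on words as a matrix. -/
def Pm (k n : ℕ) (σ : Perm (Fin n)) : Matrix (Fin n → Fin k) (Fin n → Fin k) ℝ :=
  fun w w' => if w' = w ∘ σ then 1 else 0

theorem Pm_mul (σ τ : Perm (Fin n)) : Pm k n σ * Pm k n τ = Pm k n (σ * τ) := by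
  ext w w'
  rw [Matrix.mul_apply, Finset.sum_eq_single (w ∘ σ)]
  · simp only [Pm, if_true, one_mul]
    refine ite_cong ?_
    rfl
  · intro b _ hb
    simp only [Pm]
    rw [if_neg hb, zero_mul]
  · intro h
    exact absurd (Finset.mem_univ _) h

theorem Pm_one : Pm k n 1 = 1 := by
  ext w w'
  rw [Matrix.one_apply]
  simp only [Pm]
  refine ite_cong ?_
  rw [Perm.coe_one, Function.comp_id]
  exact eq_comm

theorem Pm_tr (σ : Perm (Fin n)) : (Pm k n σ).transpose = Pm k n σ⁻¹ := by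
  ext w w'
  rw [Matrix.transpose_apply]
  simp only [Pm]
  refine ite_cong ?_
  constructor
  · intro h
    rw [h, Function.comp_assoc]
    funext x
    simp
  · intro h
    rw [h, Function.comp_assoc]
    funext x
    simp

/-- The algebra generated by the permutations. -/
def Bs (k n : ℕ) : Submodule ℝ (Matrix (Fin n → Fin k) (Fin n → Fin k) ℝ) :=
  Submodule.span ℝ (Set.range (Pm k n))

theorem Pm_mem (σ : Perm (Fin n)) : Pm k n σ ∈ Bs k n := Submodule.subset_span ⟨σ, rfl⟩

theorem Bs_mul {x y : Matrix (Fin n → Fin k) (Fin n → Fin k) ℝ} (hx : x ∈ Bs k n)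
    (hy : y ∈ Bs k n) : x * y ∈ Bs k n := by
  induction hx using Submodule.span_induction with
  | mem x hx =>
    obtain ⟨σ, rfl⟩ := hx
    induction hy using Submodule.span_induction with
    | mem y hy =>
      obtain ⟨τ, rfl⟩ := hy
      rw [Pm_mul]
      exact Pm_mem _
    | zero => rw [mul_zero]; exact Submodule.zero_mem _
    | add a b _ _ ha hb => rw [mul_add]; exact Submodule.add_mem _ ha hb
    | smul c a _ ha => rw [mul_smul_comm]; exact Submodule.smul_mem _ _ ha
  | zero => rw [zero_mul]; exact Submodule.zero_mem _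
  | add a b _ _ ha hb => rw [add_mul]; exact Submodule.add_mem _ ha hb
  | smul c a _ ha => rw [smul_mul_assoc]; exact Submodule.smul_mem _ _ ha

theorem Bs_tr {x : Matrix (Fin n → Fin k) (Fin n → Fin k) ℝ} (hx : x ∈ Bs k n) :
    x.transpose ∈ Bs k n := by
  induction hx using Submodule.span_induction with
  | mem x hx =>
    obtain ⟨σ, rfl⟩ := hx
    rw [Pm_tr]
    exact Pm_mem _
  | zero => rw [Matrix.transpose_zero]; exact Submodule.zero_mem _
  | add a b _ _ ha hb => rw [Matrix.transpose_add]; exact Submodule.add_mem _ ha hb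
  | smul c a _ ha => rw [Matrix.transpose_smul]; exact Submodule.smul_mem _ _ ha

theorem finrank_Bs : Module.finrank ℝ (Bs k n) = aN ℝ k n := by
  rw [← finrank_MM (F := ℝ) (k := k) (U := Fin n) (L := Fin n) (Fintype.card_fin n)
    (Fintype.card_fin n)]
  let L : Matrix (Fin n → Fin k) (Fin n → Fin k) ℝ ≃ₗ[ℝ]
      ((Fin n → Fin k) × (Fin n → Fin k) → ℝ) := (LinearEquiv.curry ℝ ℝ _ _).symm
  have h1 : (Bs k n).map L.toLinearMap = MM k ℝ (Fin n) (Fin n) := by
    rw [Bs, Submodule.map_span, ← Set.range_comp, MM]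
    congr 2
    funext σ x
    change Pm k n σ x.1 x.2 = dl k ℝ σ x
    simp only [Pm, dl]
    exact ite_cong Iff.rfl
  rw [← h1, LinearEquiv.finrank_map_eq]

/-- The stabilizer of a word. -/
def Gv (v : Fin n → Fin k) : Finset (Perm (Fin n)) := univ.filter (fun σ => v ∘ σ = v)

theorem mem_Gv {v : Fin n → Fin k} {σ : Perm (Fin n)} : σ ∈ Gv v ↔ v ∘ σ = v := by
  simp [Gv]

theorem one_mem_Gv (v : Fin n → Fin k) : 1 ∈ Gv v := by
  rw [mem_Gv, Perm.coe_one, Function.comp_id]

theorem mul_mem_Gv {v : Fin n → Fin k} {σ τ : Perm (Fin n)} (hσ : σ ∈ Gv v) (hτ : τ ∈ Gv v) :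
    σ * τ ∈ Gv v := by
  rw [mem_Gv] at *
  rw [Perm.coe_mul, ← Function.comp_assoc, hσ, hτ]

theorem inv_mem_Gv {v : Fin n → Fin k} {σ : Perm (Fin n)} (hσ : σ ∈ Gv v) : σ⁻¹ ∈ Gv v := by
  rw [mem_Gv] at *
  conv_lhs => rw [← hσ]
  funext x
  simp

/-- The projection onto the invariants of the stabilizer of a word. -/
def ev (v : Fin n → Fin k) : Matrix (Fin n → Fin k) (Fin n → Fin k) ℝ :=
  ((Gv v).card : ℝ)⁻¹ • ∑ σ ∈ Gv v, Pm k n σ

theorem card_Gv_ne (v : Fin n → Fin k) : ((Gv v).card : ℝ) ≠ 0 :=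
  Nat.cast_ne_zero.2 (Finset.card_pos.2 ⟨1, one_mem_Gv v⟩).ne'

theorem Pm_mul_ev {v : Fin n → Fin k} {g : Perm (Fin n)} (hg : g ∈ Gv v) :
    Pm k n g * ev v = ev v := by
  rw [ev, mul_smul_comm, Finset.mul_sum]
  congr 1
  refine Finset.sum_bij (fun σ _ => g * σ) (fun σ hσ => mul_mem_Gv hg hσ)
    (fun σ _ τ _ h => mul_left_cancel h) (fun σ hσ => ⟨g⁻¹ * σ, mul_mem_Gv (inv_mem_Gv hg) hσ,
      mul_inv_cancel_left g σ⟩) (fun σ _ => Pm_mul g σ)

theorem ev_mul_Pm {v : Fin n → Fin k} {g : Perm (Fin n)} (hg : g ∈ Gv v) :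
    ev v * Pm k n g = ev v := by
  rw [ev, smul_mul_assoc, Finset.sum_mul]
  congr 1
  refine Finset.sum_bij (fun σ _ => σ * g) (fun σ hσ => mul_mem_Gv hσ hg)
    (fun σ _ τ _ h => mul_right_cancel h) (fun σ hσ => ⟨σ * g⁻¹, mul_mem_Gv hσ (inv_mem_Gv hg),
      inv_mul_cancel_right σ g⟩) (fun σ _ => Pm_mul σ g)

theorem ev_mul_self (v : Fin n → Fin k) : ev v * ev v = ev v := by
  have h0 : ev v * ev v = ((Gv v).card : ℝ)⁻¹ • ∑ σ ∈ Gv v, Pm k n σ * ev v := by
    rw [← Finset.sum_mul, ← smul_mul_assoc]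
    rfl
  have h1 : ∑ σ ∈ Gv v, Pm k n σ * ev v = ∑ σ ∈ Gv v, ev v :=
    Finset.sum_congr rfl fun σ hσ => Pm_mul_ev hσ
  rw [h0, h1, Finset.sum_const, ← Nat.cast_smul_eq_nsmul ℝ, smul_smul,
    inv_mul_cancel₀ (card_Gv_ne v), one_smul]

theorem ev_tr (v : Fin n → Fin k) : (ev v).transpose = ev v := by
  rw [ev, Matrix.transpose_smul, Matrix.transpose_sum]
  congr 1
  refine Finset.sum_bij (fun σ _ => σ⁻¹) (fun σ hσ => inv_mem_Gv hσ)
    (fun σ _ τ _ h => inv_injective h) (fun σ hσ => ⟨σ⁻¹, inv_mem_Gv hσ, inv_inv σ⟩)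
    (fun σ _ => Pm_tr σ)

theorem ev_mem (v : Fin n → Fin k) : ev v ∈ Bs k n :=
  Submodule.smul_mem _ _ (Submodule.sum_mem _ fun _ _ => Pm_mem _)

theorem ev_apply (v w : Fin n → Fin k) : ev v w v = if w = v then 1 else 0 := by
  rw [ev, Matrix.smul_apply, Matrix.sum_apply]
  by_cases h : w = v
  · subst h
    rw [if_pos rfl]
    have h1 : ∀ σ ∈ Gv w, Pm k n σ w w = 1 := by
      intro σ hσ
      rw [mem_Gv] at hσ
      simp only [Pm]
      rw [if_pos hσ.symm]
    rw [Finset.sum_congr rfl h1, Finset.sum_const, nsmul_eq_mul, mul_one, smul_eq_mul,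
      inv_mul_cancel₀ (card_Gv_ne w)]
  · rw [if_neg h]
    have h1 : ∀ σ ∈ Gv v, Pm k n σ w v = 0 := by
      intro σ hσ
      simp only [Pm]
      rw [if_neg]
      intro h2
      apply h
      have h3 := inv_mem_Gv hσ
      rw [mem_Gv] at h3
      rw [← h3]
      conv_rhs => rw [h2]
      funext x
      simp
    rw [Finset.sum_eq_zero h1, smul_zero]

/-- The two idempotents. -/
def uv (v : Fin n → Fin k) (b : Bool) : Matrix (Fin n → Fin k) (Fin n → Fin k) ℝ :=
  if b then ev v else 1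

theorem uv_mem (v : Fin n → Fin k) (b : Bool) : uv v b ∈ Bs k n := by
  cases b
  · rw [uv, if_neg (by simp), ← Pm_one]
    exact Pm_mem _
  · rw [uv, if_pos rfl]
    exact ev_mem v

theorem uv_tr (v : Fin n → Fin k) (b : Bool) : (uv v b).transpose = uv v b := by
  cases b
  · rw [uv, if_neg (by simp), Matrix.transpose_one]
  · rw [uv, if_pos rfl, ev_tr]

theorem uv_mul_self (v : Fin n → Fin k) (b : Bool) : uv v b * uv v b = uv v b := by
  cases b
  · rw [uv, if_neg (by simp), one_mul]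
  · rw [uv, if_pos rfl, ev_mul_self]

/-- Corners of the algebra of permutations. -/
def Hv (v : Fin n → Fin k) (b b' : Bool) :
    Submodule ℝ (Matrix (Fin n → Fin k) (Fin n → Fin k) ℝ) :=
  (Bs k n).map ((LinearMap.mulLeft ℝ (uv v b)).comp (LinearMap.mulRight ℝ (uv v b')))

theorem mem_Hv {v : Fin n → Fin k} {b b' : Bool}
    {M : Matrix (Fin n → Fin k) (Fin n → Fin k) ℝ} :
    M ∈ Hv v b b' ↔ ∃ x ∈ Bs k n, uv v b * (x * uv v b') = M := Iff.rfl

/-- The category given by a word. -/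
def FamV (v : Fin n → Fin k) : Fam (fun _ : Bool => Fin n → Fin k) where
  H := Hv v
  u := uv v
  hu := fun b => ⟨uv v b, uv_mem v b, by
    change uv v b * (uv v b * uv v b) = uv v b
    rw [uv_mul_self, uv_mul_self]⟩
  hut := uv_tr v
  hul := fun b b' x hx => by
    obtain ⟨y, hy, rfl⟩ := mem_Hv.1 hx
    rw [← mul_assoc, uv_mul_self]
  mul := fun b b' b'' x hx y hy => by
    obtain ⟨x', hx', rfl⟩ := mem_Hv.1 hx
    obtain ⟨y', hy', rfl⟩ := mem_Hv.1 hy
    rw [mem_Hv]
    refine ⟨x' * (uv v b' * uv v b') * y',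
      Bs_mul (Bs_mul hx' (Bs_mul (uv_mem v _) (uv_mem v _))) hy', ?_⟩
    simp only [mul_assoc]
  tr := fun b b' x hx => by
    obtain ⟨x', hx', rfl⟩ := mem_Hv.1 hx
    rw [mem_Hv]
    refine ⟨x'.transpose, Bs_tr hx', ?_⟩
    rw [Matrix.transpose_mul, Matrix.transpose_mul, uv_tr, uv_tr, mul_assoc]

theorem finrank_Hv_ff (v : Fin n → Fin k) :
    Module.finrank ℝ (Hv v false false) = aN ℝ k n := by
  have h1 : Hv v false false = Bs k n := by
    ext M
    rw [mem_Hv]
    have h0 : uv v false = 1 := by rw [uv, if_neg (by simp)]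
    constructor
    · rintro ⟨x, hx, rfl⟩
      rw [h0, one_mul, mul_one]
      exact hx
    · intro hM
      exact ⟨M, hM, by rw [h0, one_mul, mul_one]⟩
  rw [h1, finrank_Bs]

/-- The orbit of a word. -/
def Ov (v : Fin n → Fin k) : Finset (Fin n → Fin k) := univ.image (fun σ : Perm (Fin n) => v ∘ σ)

theorem card_Ov_le (v : Fin n → Fin k) :
    (Ov v).card ≤ Module.finrank ℝ (Hv v false true) := by
  let ψ : Matrix (Fin n → Fin k) (Fin n → Fin k) ℝ →ₗ[ℝ] ((Fin n → Fin k) → ℝ) :=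
    { toFun := fun M w => M w v
      map_add' := fun _ _ => rfl
      map_smul' := fun _ _ => rfl }
  have h1 : Submodule.span ℝ (Set.range (fun w : Ov v => (Pi.single w.1 (1 : ℝ) :
      (Fin n → Fin k) → ℝ))) ≤ (Hv v false true).map ψ := by
    rw [Submodule.span_le]
    rintro _ ⟨⟨w, hw⟩, rfl⟩
    obtain ⟨σ, _, rfl⟩ := Finset.mem_image.1 hw
    refine ⟨Pm k n σ⁻¹ * ev v, ?_, ?_⟩
    · refine mem_Hv.2 ⟨Pm k n σ⁻¹, Pm_mem _, ?_⟩
      rw [uv, if_neg (by simp), uv, if_pos rfl, one_mul]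
    · funext w
      change (Pm k n σ⁻¹ * ev v) w v = _
      rw [Matrix.mul_apply, Finset.sum_eq_single (w ∘ (σ⁻¹ : Perm (Fin n)))]
      · have h5 : Pm k n σ⁻¹ w (w ∘ (σ⁻¹ : Perm (Fin n))) = 1 := if_pos rfl
        have h6 : (fun w : Ov v => (Pi.single w.1 (1 : ℝ) : (Fin n → Fin k) → ℝ))
            ⟨v ∘ σ, hw⟩ w = if w = v ∘ σ then 1 else 0 := by
          beta_reduce
          rw [Pi.single_apply]
        rw [h6, h5, one_mul, ev_apply]
        refine ite_cong ?_
        constructor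
        · intro h
          rw [← h]
          funext x
          simp
        · intro h
          rw [h]
          funext x
          simp
      · intro b _ hb
        simp only [Pm]
        rw [if_neg hb, zero_mul]
      · intro h
        exact absurd (Finset.mem_univ _) h
  have h2 : LinearIndependent ℝ (fun w : Ov v => (Pi.single w.1 (1 : ℝ) :
      (Fin n → Fin k) → ℝ)) := by
    have h3 := (Pi.basisFun ℝ (Fin n → Fin k)).linearIndependent.comp (fun w : Ov v => w.1)
      Subtype.val_injective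
    convert h3 using 1
    funext w
    simp [Pi.basisFun_apply]
  have h3 := finrank_span_eq_card h2
  have h4 := Submodule.finrank_mono h1
  rw [h3, Fintype.card_coe] at h4
  exact h4.trans (Submodule.finrank_map_le ψ _)

/-- The contingency table of a permutation. -/
def ctab (v : Fin n → Fin k) (σ : Perm (Fin n)) (p : Fin k × Fin k) : Fin (n + 1) :=
  ⟨(univ.filter (fun s => (v s, v (σ s)) = p)).card, by
    have := Finset.card_filter_le (univ : Finset (Fin n)) (fun s => (v s, v (σ s)) = p)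
    rw [Finset.card_univ, Fintype.card_fin] at this
    omega⟩

theorem exists_perm_of_card {Z : Type} [DecidableEq Z] (a b : Fin n → Z)
    (h : ∀ z, (univ.filter (fun s => a s = z)).card = (univ.filter (fun s => b s = z)).card) :
    ∃ g : Perm (Fin n), a ∘ g = b := by
  have e : ∀ z, {s // b s = z} ≃ {s // a s = z} := fun z => Fintype.equivOfCardEq (by
    rw [Fintype.card_subtype, Fintype.card_subtype]
    exact (h z).symm)
  refine ⟨Equiv.ofFiberEquiv e, ?_⟩
  funext x
  exact Equiv.ofFiberEquiv_map e x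

theorem corner_eq (v : Fin n → Fin k) {σ τ : Perm (Fin n)} (h : ctab v σ = ctab v τ) :
    ev v * (Pm k n σ * ev v) = ev v * (Pm k n τ * ev v) := by
  obtain ⟨g, hg⟩ := exists_perm_of_card (fun s => (v s, v (σ s))) (fun s => (v s, v (τ s)))
    (fun z => congrArg Fin.val (congrFun h z))
  have h1 : g ∈ Gv v := by
    rw [mem_Gv]
    funext x
    exact congrArg Prod.fst (congrFun hg x)
  have h2 : σ * g * τ⁻¹ ∈ Gv v := by
    rw [mem_Gv]
    funext x
    have := congrArg Prod.snd (congrFun hg (τ⁻¹ x))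
    simpa using this
  have h3 : Pm k n σ * ev v = Pm k n (σ * g * τ⁻¹) * (Pm k n τ * ev v) := by
    rw [← mul_assoc, Pm_mul, inv_mul_cancel_right, ← Pm_mul, mul_assoc, Pm_mul_ev h1]
  rw [h3, ← mul_assoc, ev_mul_Pm h2]

theorem finrank_Hv_tt_le (v : Fin n → Fin k) :
    Module.finrank ℝ (Hv v true true) ≤ (n + 1) ^ (k * k) := by
  let Φ : (Fin k × Fin k → Fin (n + 1)) → Matrix (Fin n → Fin k) (Fin n → Fin k) ℝ := fun c =>
    if h : ∃ σ, ctab v σ = c then ev v * (Pm k n h.choose * ev v) else 0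
  have h1 : Hv v true true ≤ Submodule.span ℝ (Set.range Φ) := by
    rw [Hv, Bs, Submodule.map_span, Submodule.span_le]
    rintro _ ⟨_, ⟨σ, rfl⟩, rfl⟩
    refine Submodule.subset_span ⟨ctab v σ, ?_⟩
    have h2 : ∃ τ, ctab v τ = ctab v σ := ⟨σ, rfl⟩
    have h3 : Φ (ctab v σ) = ev v * (Pm k n h2.choose * ev v) := dif_pos h2
    rw [h3, corner_eq v h2.choose_spec]
    rfl
  refine (Submodule.finrank_mono h1).trans ((finrank_range_le_card Φ).trans ?_)
  rw [Fintype.card_fun, Fintype.card_prod, Fintype.card_fin, Fintype.card_fin]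

theorem exists_large_orbit (k n : ℕ) (hk : 1 ≤ k) :
    ∃ v : Fin n → Fin k, k ^ n ≤ (n + 1) ^ k * (Ov v).card := by
  let ct : (Fin n → Fin k) → (Fin k → Fin (n + 1)) := fun v i =>
    ⟨(univ.filter (fun s => v s = i)).card, by
      have := Finset.card_filter_le (univ : Finset (Fin n)) (fun s => v s = i)
      rw [Finset.card_univ, Fintype.card_fin] at this
      omega⟩
  by_contra hcon
  push Not at hcon
  have h1 : ∀ v : Fin n → Fin k, (univ.filter (fun w => ct w = ct v)) ⊆ Ov v := by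
    intro v w hw
    rw [Finset.mem_filter] at hw
    obtain ⟨g, hg⟩ := exists_perm_of_card v w
      (fun z => (congrArg Fin.val (congrFun hw.2 z)).symm)
    exact Finset.mem_image.2 ⟨g, Finset.mem_univ _, hg⟩
  have h2 : ∀ c : Fin k → Fin (n + 1), (n + 1) ^ k * (univ.filter (fun w => ct w = c)).card <
      k ^ n := by
    intro c
    rcases Finset.eq_empty_or_nonempty (univ.filter (fun w => ct w = c)) with h | ⟨v, hv⟩
    · rw [h, Finset.card_empty, mul_zero]
      exact Nat.pow_pos (by omega)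
    · rw [Finset.mem_filter] at hv
      rw [← hv.2]
      exact lt_of_le_of_lt (Nat.mul_le_mul_left _ (Finset.card_le_card (h1 v))) (hcon v)
  have h3 : ∑ c : Fin k → Fin (n + 1), (univ.filter (fun w => ct w = c)).card = k ^ n := by
    rw [← Finset.card_eq_sum_card_fiberwise (fun w _ => Finset.mem_univ (ct w)),
      Finset.card_univ, Fintype.card_fun, Fintype.card_fin, Fintype.card_fin]
  have h4 : (n + 1) ^ k * ∑ c : Fin k → Fin (n + 1), (univ.filter (fun w => ct w = c)).card <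
      ∑ c : Fin k → Fin (n + 1), k ^ n := by
    rw [Finset.mul_sum]
    exact Finset.sum_lt_sum_of_nonempty Finset.univ_nonempty fun c _ => h2 c
  rw [h3, Finset.sum_const, Finset.card_univ, Fintype.card_fun, Fintype.card_fin,
    Fintype.card_fin, smul_eq_mul] at h4
  exact lt_irrefl _ h4

theorem aN_growth (k n : ℕ) (hk : 1 ≤ k) :
    (k * k) ^ n ≤ (n + 1) ^ (k * k + 2 * k) * aN ℝ k n := by
  obtain ⟨v, hv⟩ := exists_large_orbit k n hk
  have h1 := (FamV v).cauchy
  have h2 : Module.finrank ℝ ((FamV v).H false false) = aN ℝ k n := finrank_Hv_ff v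
  have h3 : Module.finrank ℝ ((FamV v).H true true) ≤ (n + 1) ^ (k * k) := finrank_Hv_tt_le v
  have h4 : (Ov v).card ≤ Module.finrank ℝ ((FamV v).H false true) := card_Ov_le v
  rw [h2] at h1
  calc (k * k) ^ n = (k ^ n) ^ 2 := by rw [← pow_two, ← pow_mul, ← pow_mul, mul_comm]
    _ ≤ ((n + 1) ^ k * (Ov v).card) ^ 2 := Nat.pow_le_pow_left hv 2
    _ = (n + 1) ^ (2 * k) * (Ov v).card ^ 2 := by
        rw [mul_pow, ← pow_mul, mul_comm k 2]
    _ ≤ (n + 1) ^ (2 * k) * (aN ℝ k n * (n + 1) ^ (k * k)) := by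
        refine Nat.mul_le_mul_left _ ?_
        exact (Nat.pow_le_pow_left h4 2).trans (h1.trans (Nat.mul_le_mul_left _ h3))
    _ = (n + 1) ^ (k * k + 2 * k) * aN ℝ k n := by
        rw [pow_add]
        ring

end

end Pool.Agent.TH42.MC
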