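import Pool.Agent.TH42.MC.Det

/-!
# Alternation over blocks
-/

namespace Pool.Agent.TH42.MC

open Finset Equiv
open scoped Classical

noncomputable section

variable {F : Type*} [Field F] {k : ℕ}

/-- The sign of a block permutation. -/
def sgJ (F : Type*) [Field F] {k : ℕ} {J : Type} [Fintype J] (π : J → Perm (Ix k)) : F :=
  ∏ j, ((Perm.sign (π j) : ℤ) : F)

theorem sgJ_mul {J : Type} [Fintype J] (π ρ : J → Perm (Ix k)) :
    sgJ F (fun j => π j * ρ j) = sgJ F π * sgJ F ρ := by
  simp only [sgJ, ← Finset.prod_mul_distrib]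
  refine Finset.prod_congr rfl fun j _ => ?_
  rw [Perm.sign_mul]
  push_cast
  ring

theorem sgJ_mul_self {J : Type} [Fintype J] (π : J → Perm (Ix k)) :
    sgJ F π * sgJ F π = 1 := by
  simp only [sgJ, ← Finset.prod_mul_distrib]
  refine Finset.prod_eq_one fun j _ => ?_
  rw [← Int.cast_mul, ← Units.val_mul, Int.units_mul_self]
  simp

theorem DJ_comp {J : Type} [Fintype J] (l : J × Ix k → Ix k) (π : J → Perm (Ix k)) :
    DJ F (l ∘ Equiv.prodCongrRight π) = sgJ F π * DJ F l := by
  simp only [DJ, sgJ, ← Finset.prod_mul_distrib]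
  refine Finset.prod_congr rfl fun j _ => ?_
  rw [← dd_comp]
  rfl

theorem DJ_snd {J : Type} [Fintype J] : DJ F (Prod.snd : J × Ix k → Ix k) = 1 := by
  simp only [DJ]
  exact Finset.prod_eq_one fun j _ => dd_id

theorem alt_eq_J [CharZero F] {J : Type} [Fintype J] (f : (J × Ix k → Ix k) → F)
    (hf : ∀ l (π : J → Perm (Ix k)), f (l ∘ Equiv.prodCongrRight π) = sgJ F π * f l)
    (l : J × Ix k → Ix k) : f l = DJ F l * f Prod.snd := by
  by_cases h : ∀ j, Function.Bijective (fun i => l (j, i))
  · have h2 : l = Prod.snd ∘ Equiv.prodCongrRight (fun j => Equiv.ofBijective _ (h j)) := by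
      funext ⟨j, i⟩
      simp
    rw [h2, hf, DJ_comp, DJ_snd, mul_one]
  · push Not at h
    obtain ⟨j0, hj0⟩ := h
    have h0 : DJ F l = 0 := Finset.prod_eq_zero (Finset.mem_univ j0) (dd_of_not hj0)
    rw [h0, zero_mul]
    have h1 : ¬ Function.Injective (fun i => l (j0, i)) :=
      fun h' => hj0 (Finite.injective_iff_bijective.1 h')
    simp only [Function.Injective, not_forall] at h1
    obtain ⟨i, j, hij, hne⟩ := h1
    have h3 : l ∘ Equiv.prodCongrRight (fun j' => if j' = j0 then swap i j else 1) = l := by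
      funext ⟨j', x⟩
      simp only [Function.comp_apply, Equiv.prodCongrRight_apply]
      by_cases hj' : j' = j0
      · subst hj'
        rw [if_pos rfl]
        rcases eq_or_ne x i with rfl | hi
        · rw [swap_apply_left, hij]
        · rcases eq_or_ne x j with rfl | hj
          · rw [swap_apply_right, hij]
          · rw [swap_apply_of_ne_of_ne hi hj]
      · rw [if_neg hj']
        rfl
    have h4 := hf l (fun j' => if j' = j0 then swap i j else 1)
    have h6 : sgJ F (fun j' => if j' = j0 then swap i j else (1 : Perm (Ix k))) = -1 := by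
      rw [sgJ, Finset.prod_eq_single j0]
      · rw [if_pos rfl, Perm.sign_swap hne]
        simp
      · intro b _ hb
        rw [if_neg hb]
        simp
      · simp
    rw [h3, h6] at h4
    have h5 : (2 : F) * f l = 0 := by linear_combination h4
    exact (mul_eq_zero.1 h5).resolve_left two_ne_zero

/-- The alternation of a function over blocks is a multiple of the determinants. -/
theorem alt_sum [CharZero F] {J : Type} [Fintype J] [DecidableEq J] (f : (J × Ix k → Ix k) → F)
    (l : J × Ix k → Ix k) :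
    ∑ π : J → Perm (Ix k), sgJ F π * f (l ∘ Equiv.prodCongrRight π) =
      DJ F l * ∑ π : J → Perm (Ix k), sgJ F π * f (fun x => π x.1 x.2) := by
  refine alt_eq_J (fun l => ∑ π : J → Perm (Ix k), sgJ F π * f (l ∘ Equiv.prodCongrRight π)) ?_ l
  intro l ρ
  rw [Finset.mul_sum]
  refine Fintype.sum_equiv (Equiv.mulLeft ρ) _ _ fun π => ?_
  rw [Equiv.coe_mulLeft]
  have h1 : sgJ F π = sgJ F ρ * sgJ F (ρ * π) := by
    have := sgJ_mul (F := F) ρ π
    change sgJ F π = sgJ F ρ * sgJ F (fun j => ρ j * π j)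
    rw [this, ← mul_assoc, sgJ_mul_self, one_mul]
  rw [h1, mul_assoc]
  rfl

theorem dd_swap_comp (l : Ix k → Ix k) : dd F (fun i => (l i).swap) = dd F (Prod.swap : Ix k → Ix k) * dd F l := by
  have h1 := dd_comp_left (F := F) l (Equiv.prodComm (Fin k) (Fin k))
  have h2 := dd_perm (F := F) (Equiv.prodComm (Fin k) (Fin k))
  rw [← h2] at h1
  exact h1

theorem dd_swap_mul_self : dd F (Prod.swap : Ix k → Ix k) * dd F (Prod.swap : Ix k → Ix k) = 1 := by
  have h2 := dd_perm (F := F) (Equiv.prodComm (Fin k) (Fin k))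
  have h3 : dd F (Prod.swap : Ix k → Ix k) = ((Perm.sign (Equiv.prodComm (Fin k) (Fin k)) : ℤ) : F) := h2
  rw [h3, ← Int.cast_mul, ← Units.val_mul, Int.units_mul_self]
  simp

theorem DJ_swap {J : Type} [Fintype J] (l : J × Ix k → Ix k) :
    DJ F (fun x => (l x).swap) = dd F (Prod.swap : Ix k → Ix k) ^ (Fintype.card J) * DJ F l := by
  simp only [DJ]
  rw [Finset.prod_congr rfl fun j _ => dd_swap_comp (fun i => l (j, i)), Finset.prod_mul_distrib]
  simp

theorem DJ_sq_sum_ne [CharZero F] {J : Type} [Fintype J] [DecidableEq J] :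
    ∑ l : J × Ix k → Ix k, DJ F l * DJ F l ≠ 0 := by
  have h1 : ∑ l : J × Ix k → Ix k, DJ F l * DJ F l =
      ∑ l : J → (Ix k → Ix k), ∏ j, (dd F (l j) * dd F (l j)) := by
    refine Fintype.sum_equiv (Equiv.curry J (Ix k) (Ix k)) _ _ fun l => ?_
    simp only [DJ, Finset.prod_mul_distrib]
    rfl
  rw [h1, ← Fintype.prod_sum (fun (_ : J) (l : Ix k → Ix k) => dd F l * dd F l)]
  rw [Finset.prod_congr rfl fun j _ => dd_sq_sum]
  rw [Finset.prod_const]
  exact pow_ne_zero _ (Nat.cast_ne_zero.2 (Nat.factorial_ne_zero _))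

end

end Pool.Agent.TH42.MC
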