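import Pool.Agent.TH42.MC.Cod

/-!
# Independence of the base field
-/

namespace Pool.Agent.TH42.MC

open Finset Equiv
open scoped Classical

noncomputable section

theorem finrank_span_le {ι X : Type} [Fintype ι] [Fintype X] (v : ι → X → ℤ)
    (F : Type*) [Field F] [CharZero F] (F' : Type*) [Field F'] [CharZero F'] :
    Module.finrank F (Submodule.span F (Set.range (fun i x => (v i x : F)))) ≤
      Module.finrank F' (Submodule.span F' (Set.range (fun i x => (v i x : F')))) := by
  obtain ⟨f, hf1, hf2, hf3⟩ := Submodule.exists_fun_fin_finrank_span_eq F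
    (Set.range (fun i x => (v i x : F)))
  choose s hs using hf1
  have h1 : LinearIndependent F (fun j => algebraMap ℤ F ∘ v (s j)) := by
    have h0 : f = (fun j => algebraMap ℤ F ∘ v (s j)) := by
      funext j
      rw [← hs j]
      rfl
    rw [h0] at hf3
    exact hf3
  have h2 := linearIndependent_algebraMap_comp_iff.1 h1
  have h3 : LinearIndependent F' (fun j => algebraMap ℤ F' ∘ v (s j)) :=
    linearIndependent_algebraMap_comp_iff.2 h2
  have h4 := finrank_span_eq_card h3
  rw [Fintype.card_fin] at h4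
  have h5 : Submodule.span F' (Set.range (fun j => algebraMap ℤ F' ∘ v (s j))) ≤
      Submodule.span F' (Set.range (fun i x => (v i x : F'))) := by
    refine Submodule.span_mono ?_
    rintro _ ⟨j, rfl⟩
    exact ⟨s j, rfl⟩
  have h6 := Submodule.finrank_mono h5
  rw [h4] at h6
  exact h6

theorem aN_le (k n : ℕ) (F : Type*) [Field F] [CharZero F] (F' : Type*) [Field F'] [CharZero F'] :
    aN F k n ≤ aN F' k n := by
  have h1 := finrank_span_le (fun (σ : Perm (Fin n)) (l : Fin n → Ix k) =>
    if ∀ s, (l s).2 = (l (σ s)).1 then (1 : ℤ) else 0) F F'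
  have h2 : (fun (σ : Perm (Fin n)) (l : Fin n → Ix k) =>
      (((if ∀ s, (l s).2 = (l (σ s)).1 then (1 : ℤ) else 0) : ℤ) : F)) = de k F := by
    funext σ l
    rw [de]
    split_ifs <;> simp
  have h3 : (fun (σ : Perm (Fin n)) (l : Fin n → Ix k) =>
      (((if ∀ s, (l s).2 = (l (σ s)).1 then (1 : ℤ) else 0) : ℤ) : F')) = de k F' := by
    funext σ l
    rw [de]
    split_ifs <;> simp
  rw [h2, h3] at h1
  exact h1

theorem aN_eq (k n : ℕ) (F : Type*) [Field F] [CharZero F] (F' : Type*) [Field F'] [CharZero F'] :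
    aN F k n = aN F' k n :=
  le_antisymm (aN_le k n F F') (aN_le k n F' F)

end

end Pool.Agent.TH42.MC
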