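import Pool.Agent.TH42.MC.Dims

/-!
# Codimensions and central codimensions of matrix algebras
-/

namespace Pool.Agent.TH42.MC

open Finset Equiv
open scoped Classical

noncomputable section

variable {F : Type*} [Field F] {k : ℕ}

theorem co_inj {n : ℕ} {f : (Fin n → Matrix (Fin k) (Fin k) F) → Matrix (Fin k) (Fin k) F}
    (hf : f ∈ Mon F k n) (h : co F k n f = 0) : f = 0 := by
  funext x
  refine Mon_ext (F := F) (k := k) LinearMap.id hf (fun l => ?_) x
  ext a b
  exact congrFun h (fun o => o.elim (b, a) l)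

instance Mon_finite (n : ℕ) : FiniteDimensional F (Mon F k n) :=
  FiniteDimensional.span_of_finite F (Set.finite_range _)

theorem finrank_map_co (n : ℕ) :
    Module.finrank F ((Mon F k n).map (co F k n)) = Module.finrank F (Mon F k n) := by
  have h1 : Function.Injective ((co F k n).domRestrict (Mon F k n)) := by
    rw [← LinearMap.ker_eq_bot, LinearMap.ker_eq_bot']
    rintro ⟨f, hf⟩ h
    ext1
    exact co_inj hf h
  have h2 := LinearMap.finrank_range_of_inj h1
  rwa [LinearMap.range_domRestrict] at h2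

theorem Mon_finrank_le (n : ℕ) : Module.finrank F (Mon F k n) ≤ aN F k (n + 1) := by
  rw [← finrank_map_co, aN, II_finrank_congr (finSuccEquiv n)]
  exact Submodule.finrank_mono (co_Mon_le n)

theorem le_Mon_finrank (n : ℕ) :
    Module.finrank F (CC k F (Option (Fin n))) ≤ Module.finrank F (Mon F k n) := by
  rw [← finrank_map_co]
  exact Submodule.finrank_mono (le_co_Mon n)

/-- The center of the matrix algebra. -/
def Zc (F : Type*) [Field F] (k : ℕ) : Submodule F (Matrix (Fin k) (Fin k) F) :=
  Subalgebra.toSubmodule (Subalgebra.center F (Matrix (Fin k) (Fin k) F))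

theorem mem_Zc {A : Matrix (Fin k) (Fin k) F} :
    A ∈ Zc F k ↔ ∃ c : F, A = Matrix.scalar (Fin k) c := by
  have h1 : A ∈ Zc F k ↔ A ∈ Set.center (Matrix (Fin k) (Fin k) F) := Iff.rfl
  rw [h1, Matrix.center_eq_range]
  constructor
  · rintro ⟨c, rfl⟩
    exact ⟨c, rfl⟩
  · rintro ⟨c, rfl⟩
    exact ⟨c, rfl⟩

/-- Reduction modulo the center. -/
def post (F : Type*) [Field F] (k n : ℕ) :
    ((Fin n → Matrix (Fin k) (Fin k) F) → Matrix (Fin k) (Fin k) F) →ₗ[F]
      ((Fin n → Matrix (Fin k) (Fin k) F) → Matrix (Fin k) (Fin k) F ⧸ Zc F k) :=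
  (Zc F k).mkQ.compLeft _

/-- The central elements of the span of the monomials. -/
def Kr (F : Type*) [Field F] (k n : ℕ) : Submodule F (Mon F k n) :=
  LinearMap.ker ((post F k n).domRestrict (Mon F k n))

theorem mem_Kr {n : ℕ} (f : Mon F k n) : f ∈ Kr F k n ↔ ∀ x, f.1 x ∈ Zc F k := by
  rw [Kr, LinearMap.mem_ker, funext_iff]
  refine forall_congr' fun x => ?_
  exact Submodule.Quotient.mk_eq_zero _

theorem finrank_add (n : ℕ) : Module.finrank F ((Mon F k n).map (post F k n)) +
    Module.finrank F (Kr F k n) = Module.finrank F (Mon F k n) := by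
  have h1 := LinearMap.finrank_range_add_finrank_ker ((post F k n).domRestrict (Mon F k n))
  rwa [LinearMap.range_domRestrict] at h1

theorem map_post (n : ℕ) : (Mon F k n).map (post F k n) =
    Submodule.span F (Set.range (fun σ : Equiv.Perm (Fin n) =>
      fun x : Fin n → Matrix (Fin k) (Fin k) F =>
        Submodule.mkQ (Subalgebra.toSubmodule (Subalgebra.center F (Matrix (Fin k) (Fin k) F)))
          (List.ofFn (fun i => x (σ i))).prod)) := by
  rw [Mon, Submodule.map_span, ← Set.range_comp]
  rfl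

/-- Contraction of the last variable with itself. -/
def trc (F : Type*) [Field F] (k : ℕ) (κ : Type) :
    ((Option κ → Ix k) → F) →ₗ[F] ((κ → Ix k) → F) where
  toFun g l := ∑ p : Fin k, g (fun o => o.elim (p, p) l)
  map_add' f g := by funext l; simp [Finset.sum_add_distrib]
  map_smul' c g := by funext l; simp [Finset.mul_sum]

theorem trc_mem {κ : Type} {g : (Option κ → Ix k) → F} (hg : g ∈ II k F (Option κ)) :
    trc F k κ g ∈ II k F κ := by
  rw [II_iff] at hg ⊢
  have h1 := MM_contr_option hg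
  have h2 : (fun x : (κ → Fin k) × (κ → Fin k) =>
      trc F k κ g (fun s => (x.1 s, x.2 s))) = fun x => ∑ p : Fin k,
      (fun x : (Option κ → Fin k) × (Option κ → Fin k) => g (fun s => (x.1 s, x.2 s)))
        (fun s => s.elim p x.1, fun s => s.elim p x.2) := by
    funext x
    have h3 : ∀ p : Fin k, (fun o : Option κ => o.elim (p, p) (fun s => (x.1 s, x.2 s))) =
        fun s => (s.elim p x.1, s.elim p x.2) := by
      intro p
      funext o
      rcases o with _ | s <;> rfl
    simp only [trc, LinearMap.coe_mk, AddHom.coe_mk, h3]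
  rw [h2]
  exact h1

theorem central_eq_zero [CharZero F] (hk : 1 ≤ k) {n : ℕ}
    {f : (Fin n → Matrix (Fin k) (Fin k) F) → Matrix (Fin k) (Fin k) F} (hf : f ∈ Mon F k n)
    (hf' : ∀ x, f x ∈ Zc F k) (h : trc F k (Fin n) (co F k n f) = 0) : f = 0 := by
  refine co_inj hf ?_
  funext l
  obtain ⟨c, hc⟩ := mem_Zc.1 (hf' (fun i => Matrix.single (l (some i)).1 (l (some i)).2 1))
  have h1 := congrFun h (fun i => l (some i))
  have h2 : ∑ p : Fin k, f (fun i => Matrix.single (l (some i)).1 (l (some i)).2 1) p p = 0 := h1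
  rw [hc] at h2
  have h3 : c = 0 := by
    simp only [Matrix.scalar_apply, Matrix.diagonal_apply_eq, Finset.sum_const,
      Finset.card_univ, Fintype.card_fin, nsmul_eq_mul, mul_eq_zero, Nat.cast_eq_zero] at h2
    exact h2.resolve_left (by omega)
  have h4 : co F k n f l = f (fun i => Matrix.single (l (some i)).1 (l (some i)).2 1)
    (l none).2 (l none).1 := rfl
  rw [h4, hc, h3]
  simp

theorem Kr_finrank_le [CharZero F] (hk : 1 ≤ k) (n : ℕ) :
    Module.finrank F (Kr F k n) ≤ aN F k n := by
  let T : Kr F k n →ₗ[F] ((Fin n → Ix k) → F) :=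
    (trc F k (Fin n)).comp ((co F k n).comp ((Mon F k n).subtype.comp (Kr F k n).subtype))
  have hT : Function.Injective T := by
    intro x y hxy
    have hx := (mem_Kr _).1 x.2
    have hy := (mem_Kr _).1 y.2
    have h1 : trc F k (Fin n) (co F k n x.1.1) = trc F k (Fin n) (co F k n y.1.1) := hxy
    have h2 := central_eq_zero hk (Submodule.sub_mem _ x.1.2 y.1.2)
      (fun z => Submodule.sub_mem _ (hx z) (hy z)) (by rw [map_sub, map_sub, h1, sub_self])
    exact Subtype.ext (Subtype.ext (sub_eq_zero.1 h2))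
  have h1 := LinearMap.finrank_range_of_inj hT
  rw [← h1, aN]
  refine Submodule.finrank_mono ?_
  rintro _ ⟨⟨⟨f, hf⟩, hf'⟩, rfl⟩
  exact trc_mem (co_Mon_le n ⟨f, hf, rfl⟩)

theorem le_Kr_finrank (hk : 1 ≤ k) (n : ℕ) :
    Module.finrank F (QQ k F (Fin n)) ≤ Module.finrank F (Kr F k n) := by
  have hinj : Function.Injective (insNL F k (Fin n)) := by
    rw [← LinearMap.ker_eq_bot, LinearMap.ker_eq_bot']
    intro f h
    funext l
    have h1 := congrFun h (fun o => o.elim (⟨0, hk⟩, ⟨0, hk⟩) l)
    have h2 : insN f (fun o => o.elim (⟨0, hk⟩, ⟨0, hk⟩) l) = f l := if_pos rfl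
    rw [← h2]
    exact h1
  have h1 : Module.finrank F ((QQ k F (Fin n)).map (insNL F k (Fin n))) =
      Module.finrank F (QQ k F (Fin n)) := by
    have h2 : Function.Injective ((insNL F k (Fin n)).domRestrict (QQ k F (Fin n))) := by
      intro x y h
      ext1
      exact hinj h
    have h3 := LinearMap.finrank_range_of_inj h2
    rwa [LinearMap.range_domRestrict] at h3
  rw [← h1]
  let T : Kr F k n →ₗ[F] ((Option (Fin n) → Ix k) → F) :=
    (co F k n).comp ((Mon F k n).subtype.comp (Kr F k n).subtype)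
  have h2 : (QQ k F (Fin n)).map (insNL F k (Fin n)) ≤ LinearMap.range T := by
    rintro _ ⟨g, ⟨hg1, hg2⟩, rfl⟩
    obtain ⟨f, hf, hfg⟩ := le_co_Mon n hg1
    have h3 : ∀ x, f x ∈ Zc F k := by
      intro x
      have h4 := Mon_ext (Zc F k).mkQ hf (fun l => ?_) x
      · exact (Submodule.Quotient.mk_eq_zero _).1 h4
      · refine (Submodule.Quotient.mk_eq_zero _).2 ?_
        rw [mem_Zc]
        refine ⟨g l, ?_⟩
        ext a b
        have h5 := congrFun hfg (fun o => o.elim (b, a) l)
        have h6 : f (fun i => Matrix.single (l i).1 (l i).2 1) a b =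
          insN g (fun o => o.elim (b, a) l) := h5
        rw [h6, insN, Matrix.scalar_apply, Matrix.diagonal_apply]
        refine ite_cong' ?_ rfl
        exact Iff.rfl
    exact ⟨⟨⟨f, hf⟩, (mem_Kr _).2 h3⟩, hfg⟩
  exact (Submodule.finrank_mono h2).trans (LinearMap.finrank_range_le T)

end

end Pool.Agent.TH42.MC
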