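import Pool.Agent.TH42.MC.Good

/-!
# Contraction of good functions
-/

namespace Pool.Agent.TH42.MC

open Finset Equiv
open scoped Classical

noncomputable section

variable {F : Type*} [Field F] {k : ℕ}

/-- Blocks with a marked position. -/
def blkE (S : Type) (i0 : Ix k) : S ⊕ {x : S × Ix k // x.2 ≠ i0} ≃ S × Ix k where
  toFun := Sum.elim (fun s => (s, i0)) (fun x => x.1)
  invFun := fun x => if h : x.2 = i0 then Sum.inl x.1 else Sum.inr ⟨x, h⟩
  left_inv := fun x => by
    rcases x with s | ⟨x, hx⟩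
    · simp
    · simp [hx]
  right_inv := fun x => by
    by_cases h : x.2 = i0
    · simp only [dif_pos h, Sum.elim_inl]
      rw [← h]
    · simp only [dif_neg h, Sum.elim_inr]

theorem sum_eval {S : Type} [Fintype S] [DecidableEq S] (i0 : Ix k) :
    ∃ C : ℕ, 0 < C ∧ ∀ φ : (S → Ix k) → F,
      ∑ π : S → Perm (Ix k), φ (fun s => π s i0) = (C : F) * ∑ a, φ a := by
  refine ⟨(univ.filter (fun π : S → Perm (Ix k) => (fun s => π s i0) = fun _ => i0)).card, ?_, ?_⟩
  · rw [Finset.card_pos]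
    exact ⟨fun _ => 1, by simp⟩
  · intro φ
    have h1 : ∑ π : S → Perm (Ix k), φ (fun s => π s i0) =
        ∑ a : S → Ix k, ∑ π ∈ univ.filter (fun π : S → Perm (Ix k) => (fun s => π s i0) = a),
          φ (fun s => π s i0) :=
      (Finset.sum_fiberwise _ _ _).symm
    rw [h1, Finset.mul_sum]
    refine Finset.sum_congr rfl fun a _ => ?_
    have h2 : ∑ π ∈ univ.filter (fun π : S → Perm (Ix k) => (fun s => π s i0) = a),
          φ (fun s => π s i0) =
        ∑ π ∈ univ.filter (fun π : S → Perm (Ix k) => (fun s => π s i0) = a), φ a := by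
      refine Finset.sum_congr rfl fun π hπ => ?_
      rw [Finset.mem_filter] at hπ
      rw [hπ.2]
    rw [h2, Finset.sum_const, nsmul_eq_mul]
    congr 2
    refine Finset.card_bij (fun π _ => fun s => swap (a s) i0 * π s) ?_ ?_ ?_
    · intro π hπ
      rw [Finset.mem_filter] at hπ ⊢
      refine ⟨Finset.mem_univ _, ?_⟩
      funext s
      have : π s i0 = a s := congrFun hπ.2 s
      rw [Perm.mul_apply, this, swap_apply_left]
    · intro π _ π' _ h
      funext s
      exact mul_left_cancel (congrFun h s)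
    · intro π hπ
      rw [Finset.mem_filter] at hπ
      refine ⟨fun s => swap (a s) i0 * π s, ?_, ?_⟩
      · rw [Finset.mem_filter]
        refine ⟨Finset.mem_univ _, ?_⟩
        funext s
        have : π s i0 = i0 := congrFun hπ.2 s
        rw [Perm.mul_apply, this, swap_apply_right]
      · funext s
        rw [← mul_assoc, swap_mul_self, one_mul]

theorem perm_eq_of {π ρ : Perm (Ix k)} (i0 : Ix k) (h : ∀ i, i ≠ i0 → ρ i = (π i).swap) :
    ρ = (Equiv.prodComm (Fin k) (Fin k)) * π := by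
  ext1 i
  rw [Perm.mul_apply]
  by_cases hi : i = i0
  · subst hi
    obtain ⟨j, hj⟩ := ρ.surjective ((π i).swap)
    by_cases hji : j = i
    · subst hji
      exact hj
    · rw [h j hji] at hj
      exact absurd (π.injective (Prod.swap_injective hj)) hji
  · exact h i hi

/-- Contraction of pairs of variables preserves good functions. -/
theorem GG_contr [CharZero F] (hk : 1 ≤ k) {J R S : Type} [Fintype J] [Fintype S] [DecidableEq S]
    (j0 : J) {h : (R ⊕ (S ⊕ S) → Ix k) → F} (hh : h ∈ GG k F J (R ⊕ (S ⊕ S))) :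
    (fun l : R → Ix k => ∑ a : S → Ix k, h (Sum.elim l (Sum.elim a (fun s => (a s).swap)))) ∈
      GG k F (J ⊕ (S ⊕ S)) R := by
  let i0 : Ix k := (⟨0, hk⟩, ⟨0, hk⟩)
  let S' := {x : S × Ix k // x.2 ≠ i0}
  have h1 := GG_mul hk j0 hh (S' ⊕ S') _ (de_mem (Equiv.sumComm S' S'))
  let e : (R ⊕ (S ⊕ S)) ⊕ (S' ⊕ S') ≃ R ⊕ ((S × Ix k) ⊕ (S × Ix k)) :=
    (Equiv.sumAssoc _ _ _).trans (Equiv.sumCongr (Equiv.refl R)
      ((Equiv.sumSumSumComm S S S' S').trans (Equiv.sumCongr (blkE S i0) (blkE S i0))))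
  have h2 := GG_relabel e h1
  set q : (R ⊕ ((S × Ix k) ⊕ (S × Ix k)) → Ix k) → F := fun l =>
    h ((l ∘ e) ∘ Sum.inl) * de k F (Equiv.sumComm S' S') ((l ∘ e) ∘ Sum.inr) with hq
  -- alternate
  have h3 : (fun l : R ⊕ ((S × Ix k) ⊕ (S × Ix k)) → Ix k =>
      ∑ π : S → Perm (Ix k), sgJ F π * ∑ ρ : S → Perm (Ix k), sgJ F ρ *
        q (l ∘ (Equiv.sumCongr (Equiv.refl R) (Equiv.sumCongr (Equiv.prodCongrRight π)
          (Equiv.prodCongrRight ρ))))) ∈ GG k F J (R ⊕ ((S × Ix k) ⊕ (S × Ix k))) := by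
    have h4 : ∀ π ρ : S → Perm (Ix k), _ := fun π ρ =>
      GG_relabel (Equiv.sumCongr (Equiv.refl R) (Equiv.sumCongr (Equiv.prodCongrRight π)
          (Equiv.prodCongrRight ρ))) h2
    have h5 := Submodule.sum_mem _ (fun (π : S → Perm (Ix k)) (_ : π ∈ univ) =>
      Submodule.smul_mem _ (sgJ F π) (Submodule.sum_mem _
        (fun (ρ : S → Perm (Ix k)) (_ : ρ ∈ univ) => Submodule.smul_mem _ (sgJ F ρ) (h4 π ρ))))
    convert h5 using 1
    funext l
    simp only [Finset.sum_apply, Pi.smul_apply, smul_eq_mul]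
  set q' : (R → Ix k) → (S × Ix k → Ix k) → (S × Ix k → Ix k) → F := fun lR y w =>
    h (Sum.elim lR (Sum.elim (fun s => y (s, i0)) (fun s => w (s, i0)))) *
      if (∀ x : S × Ix k, x.2 ≠ i0 → w x = (y x).swap) then 1 else 0 with hq'
  have h4 : ∀ l, q l = q' (l ∘ Sum.inl) (l ∘ Sum.inr ∘ Sum.inl) (l ∘ Sum.inr ∘ Sum.inr) := by
    intro l
    simp only [hq, hq']
    congr 1
    · congr 1
      funext x
      rcases x with x | (x | x) <;> rfl
    · simp only [de]
      refine ite_cong ?_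
      constructor
      · intro h5 x hx
        have h6 := h5 (Sum.inl ⟨x, hx⟩)
        have h7 := h5 (Sum.inr ⟨x, hx⟩)
        ext1
        · exact h6.symm
        · exact h7
      · rintro h5 (⟨x, hx⟩ | ⟨x, hx⟩)
        · have h6 := h5 x hx
          exact (congrArg Prod.fst h6).symm
        · have h6 := h5 x hx
          exact (congrArg Prod.snd h6)
  have h5 : ∀ (lR : R → Ix k) (y w : S × Ix k → Ix k),
      ∑ π : S → Perm (Ix k), sgJ F π * ∑ ρ : S → Perm (Ix k), sgJ F ρ *
        q' lR (y ∘ Equiv.prodCongrRight π) (w ∘ Equiv.prodCongrRight ρ) =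
      DJ F y * DJ F w * ∑ π : S → Perm (Ix k), sgJ F π * ∑ ρ : S → Perm (Ix k), sgJ F ρ *
        q' lR (fun x => π x.1 x.2) (fun x => ρ x.1 x.2) := by
    intro lR y w
    have h6 : ∀ π : S → Perm (Ix k), ∑ ρ : S → Perm (Ix k), sgJ F ρ *
        q' lR (y ∘ Equiv.prodCongrRight π) (w ∘ Equiv.prodCongrRight ρ) =
        DJ F w * ∑ ρ : S → Perm (Ix k), sgJ F ρ *
        q' lR (y ∘ Equiv.prodCongrRight π) (fun x => ρ x.1 x.2) := fun π =>
      alt_sum (q' lR (y ∘ Equiv.prodCongrRight π)) w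
    rw [Finset.sum_congr rfl fun π _ => by rw [h6 π]]
    have h7 := alt_sum (fun y => ∑ ρ : S → Perm (Ix k), sgJ F ρ *
        q' lR y (fun x => ρ x.1 x.2)) y
    rw [mul_comm (DJ F y), mul_assoc, ← h7, Finset.mul_sum]
    refine Finset.sum_congr rfl fun π _ => ?_
    ring
  have h6 : ∀ (lR : R → Ix k) (π : S → Perm (Ix k)), sgJ F π * ∑ ρ : S → Perm (Ix k), sgJ F ρ *
        q' lR (fun x => π x.1 x.2) (fun x => ρ x.1 x.2) =
        sgJ F (fun _ : S => Equiv.prodComm (Fin k) (Fin k)) *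
          h (Sum.elim lR (Sum.elim (fun s => π s i0) (fun s => (π s i0).swap))) := by
    intro lR π
    rw [Finset.sum_eq_single (fun s => Equiv.prodComm (Fin k) (Fin k) * π s)]
    · rw [sgJ_mul]
      have h7 : q' lR (fun x => π x.1 x.2)
          (fun x => (Equiv.prodComm (Fin k) (Fin k) * π x.1) x.2) =
          h (Sum.elim lR (Sum.elim (fun s => π s i0) (fun s => (π s i0).swap))) := by
        simp only [hq']
        rw [if_pos, mul_one]
        · rfl
        · intro x _
          rfl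
      rw [h7]
      have h8 := sgJ_mul_self (F := F) π
      linear_combination (sgJ F (fun _ : S => Equiv.prodComm (Fin k) (Fin k)) *
          h (Sum.elim lR (Sum.elim (fun s => π s i0) (fun s => (π s i0).swap)))) * h8
    · intro ρ _ hρ
      have h7 : q' lR (fun x => π x.1 x.2) (fun x => ρ x.1 x.2) = 0 := by
        simp only [hq']
        rw [if_neg, mul_zero]
        intro h8
        apply hρ
        funext s
        exact perm_eq_of i0 (fun i hi => h8 (s, i) hi)
      rw [h7, mul_zero]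
    · intro h7
      exact absurd (Finset.mem_univ _) h7
  obtain ⟨C, hC0, hC⟩ := sum_eval (F := F) (S := S) i0
  have h7 : ∀ l : R ⊕ ((S × Ix k) ⊕ (S × Ix k)) → Ix k,
      ∑ π : S → Perm (Ix k), sgJ F π * ∑ ρ : S → Perm (Ix k), sgJ F ρ *
        q (l ∘ (Equiv.sumCongr (Equiv.refl R) (Equiv.sumCongr (Equiv.prodCongrRight π)
          (Equiv.prodCongrRight ρ)))) =
      (sgJ F (fun _ : S => Equiv.prodComm (Fin k) (Fin k)) * (C : F)) *
      ((∑ a : S → Ix k, h (Sum.elim (l ∘ Sum.inl) (Sum.elim a (fun s => (a s).swap)))) *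
        (DJ F (l ∘ Sum.inr ∘ Sum.inl) * DJ F (l ∘ Sum.inr ∘ Sum.inr))) := by
    intro l
    have h8 : ∀ π ρ : S → Perm (Ix k), q (l ∘ (Equiv.sumCongr (Equiv.refl R)
        (Equiv.sumCongr (Equiv.prodCongrRight π) (Equiv.prodCongrRight ρ)))) =
        q' (l ∘ Sum.inl) ((l ∘ Sum.inr ∘ Sum.inl) ∘ Equiv.prodCongrRight π)
          ((l ∘ Sum.inr ∘ Sum.inr) ∘ Equiv.prodCongrRight ρ) := fun π ρ => h4 _
    simp only [h8]
    rw [h5, Finset.sum_congr rfl fun π _ => h6 _ π, ← Finset.mul_sum,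
      hC (fun a => h (Sum.elim (l ∘ Sum.inl) (Sum.elim a (fun s => (a s).swap))))]
    ring
  have h8 := GG_relabel (Equiv.sumCongr (Equiv.refl R)
    (Equiv.sumProdDistrib S S (Ix k)).symm) h3
  refine GG_absorb (J' := S ⊕ S) ?_
  have hne : (sgJ F (fun _ : S => Equiv.prodComm (Fin k) (Fin k)) * (C : F)) ≠ 0 := by
    refine mul_ne_zero ?_ (Nat.cast_ne_zero.2 (by omega))
    intro h9
    have h10 := sgJ_mul_self (F := F) (fun _ : S => Equiv.prodComm (Fin k) (Fin k))
    rw [h9, mul_zero] at h10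
    exact zero_ne_one h10
  have h9 := Submodule.smul_mem _ (sgJ F (fun _ : S => Equiv.prodComm (Fin k) (Fin k)) *
    (C : F))⁻¹ h8
  convert h9 using 1
  funext l
  rw [Pi.smul_apply, smul_eq_mul, h7, ← mul_assoc, inv_mul_cancel₀ hne, one_mul]
  congr 1
  simp only [DJ, Fintype.prod_sum_type]
  rfl

end

end Pool.Agent.TH42.MC
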