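import Pool.Agent.TH42.MC.Inv

/-!
# Determinants in coordinates
-/

namespace Pool.Agent.TH42.MC

open Finset Equiv
open scoped Classical

noncomputable section

variable {F : Type*} [Field F]

/-- The sign of a self-map, zero when it is not bijective. -/
def dd (F : Type*) [Field F] {α : Type} [Fintype α] [DecidableEq α] (l : α → α) : F :=
  if h : Function.Bijective l then ((Perm.sign (Equiv.ofBijective l h) : ℤ) : F) else 0

variable {α : Type} [Fintype α] [DecidableEq α]

theorem dd_perm (π : Perm α) : dd F (π : α → α) = ((Perm.sign π : ℤ) : F) := by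
  rw [dd, dif_pos π.bijective]
  congr 3
  ext x
  simp

theorem dd_id : dd F (id : α → α) = 1 := by
  have := dd_perm (F := F) (1 : Perm α)
  simpa using this

theorem dd_of_not {l : α → α} (h : ¬ Function.Bijective l) : dd F l = 0 := by
  rw [dd, dif_neg h]

theorem dd_comp (l : α → α) (π : Perm α) : dd F (l ∘ π) = ((Perm.sign π : ℤ) : F) * dd F l := by
  by_cases h : Function.Bijective l
  · have h1 : l ∘ π = ((Equiv.ofBijective l h) * π : Perm α) := by
      ext1 x
      simp
    have h2 : l = ((Equiv.ofBijective l h : Perm α) : α → α) := by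
      ext1 x
      simp
    rw [h1, dd_perm]
    conv_rhs => rw [h2, dd_perm]
    rw [Perm.sign_mul]
    push_cast
    ring
  · rw [dd_of_not h, dd_of_not, mul_zero]
    intro h'
    apply h
    have h2 := h'.comp π.symm.bijective
    rwa [Function.comp_assoc, Equiv.self_comp_symm, Function.comp_id] at h2

theorem dd_comp_left (l : α → α) (π : Perm α) :
    dd F (π ∘ l) = ((Perm.sign π : ℤ) : F) * dd F l := by
  by_cases h : Function.Bijective l
  · have h1 : π ∘ l = (π * (Equiv.ofBijective l h) : Perm α) := by
      ext1 x
      simp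
    have h2 : l = ((Equiv.ofBijective l h : Perm α) : α → α) := by
      ext1 x
      simp
    rw [h1, dd_perm]
    conv_rhs => rw [h2, dd_perm]
    rw [Perm.sign_mul]
    push_cast
    ring
  · rw [dd_of_not h, dd_of_not, mul_zero]
    intro h'
    apply h
    have h2 := π.symm.bijective.comp h'
    rwa [← Function.comp_assoc, Equiv.symm_comp_self, Function.id_comp] at h2

/-- Alternating functions of words are multiples of the determinant. -/
theorem alt_eq [CharZero F] (f : (α → α) → F)
    (hf : ∀ l (π : Perm α), f (l ∘ π) = ((Perm.sign π : ℤ) : F) * f l) (l : α → α) :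
    f l = dd F l * f id := by
  by_cases h : Function.Bijective l
  · have h2 : l = id ∘ ((Equiv.ofBijective l h : Perm α) : α → α) := by
      ext1 x
      simp
    rw [h2, hf, dd_comp, dd_id, mul_one]
  · rw [dd_of_not h, zero_mul]
    have h1 : ¬ Function.Injective l := fun h' => h (Finite.injective_iff_bijective.1 h')
    simp only [Function.Injective, not_forall] at h1
    obtain ⟨i, j, hij, hne⟩ := h1
    have h3 : l ∘ swap i j = l := by
      ext1 x
      simp only [Function.comp_apply]
      rcases eq_or_ne x i with rfl | hi
      · rw [swap_apply_left, hij]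
      · rcases eq_or_ne x j with rfl | hj
        · rw [swap_apply_right, hij]
        · rw [swap_apply_of_ne_of_ne hi hj]
    have h4 := hf l (swap i j)
    rw [h3, Perm.sign_swap hne] at h4
    push_cast at h4
    have h5 : (2 : F) * f l = 0 := by linear_combination h4
    exact (mul_eq_zero.1 h5).resolve_left two_ne_zero

theorem dd_sq_sum : ∑ l : α → α, dd F l * dd F l = ((Fintype.card α).factorial : F) := by
  have h1 : ∑ l : α → α, dd F l * dd F l =
      ∑ l ∈ (univ : Finset (α → α)).filter (fun l => Function.Bijective l), dd F l * dd F l := by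
    rw [Finset.sum_filter]
    refine Finset.sum_congr rfl fun l _ => ?_
    by_cases h : Function.Bijective l
    · rw [if_pos h]
    · rw [if_neg h, dd_of_not h, mul_zero]
  have h2 : ∑ l ∈ (univ : Finset (α → α)).filter (fun l => Function.Bijective l),
      dd F l * dd F l = ∑ π : Perm α, (1 : F) := by
    symm
    refine Finset.sum_bij (fun π _ => (π : α → α)) ?_ ?_ ?_ ?_
    · intro π _
      simp
    · intro π _ π' _ h
      exact Equiv.coe_fn_injective h
    · intro l hl
      rw [Finset.mem_filter] at hl
      exact ⟨Equiv.ofBijective l hl.2, Finset.mem_univ _, by ext1 x; simp⟩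
    · intro π _
      rw [dd_perm, ← Int.cast_mul, ← Units.val_mul, Int.units_mul_self]
      simp
  rw [h1, h2]
  simp [Fintype.card_perm]

variable {k : ℕ}

theorem ins_dd [CharZero F] (l : Ix k → Ix k) (p q : Fin k) :
    ∑ i : Ix k, (if (l i).2 = p then dd F (Function.update l i ((l i).1, q)) else 0) =
      if q = p then (k : F) * dd F l else 0 := by
  have h1 := alt_eq (F := F) (fun l : Ix k → Ix k => ∑ i : Ix k, (if (l i).2 = p then
    dd F (Function.update l i ((l i).1, q)) else 0)) ?_ l
  · refine h1.trans ?_
    have h2 : ∑ i : Ix k, (if (id i).2 = p then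
        dd F (Function.update (id : Ix k → Ix k) i ((id i).1, q)) else 0) =
        if q = p then (k : F) else 0 := by
      by_cases hqp : q = p
      · subst hqp
        rw [if_pos rfl]
        have : ∀ i : Ix k, (if (id i).2 = q then
            dd F (Function.update (id : Ix k → Ix k) i ((id i).1, q)) else 0) =
            if i.2 = q then 1 else 0 := by
          intro i
          by_cases h : i.2 = q
          · have h3 : Function.update (id : Ix k → Ix k) i ((id i).1, q) = id := by
              rw [Function.update_eq_self_iff]
              ext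
              · rfl
              · simp [h]
            rw [h3, dd_id]
            rfl
          · rw [if_neg h, if_neg (by exact h)]
        rw [Finset.sum_congr rfl fun i _ => this i, Fintype.sum_prod_type]
        simp
      · rw [if_neg hqp]
        refine Finset.sum_eq_zero fun i _ => ?_
        split_ifs with h
        · apply dd_of_not
          intro hb
          have h3 : Function.update (id : Ix k → Ix k) i ((id i).1, q) i =
              Function.update (id : Ix k → Ix k) i ((id i).1, q) (i.1, q) := by
            rw [Function.update_self, Function.update_of_ne]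
            · rfl
            · intro h4
              apply hqp
              have h5 := congrArg Prod.snd h4
              simp only [id] at h h5
              rw [h5, h]
          have h4 := hb.1 h3
          apply hqp
          have h5 := congrArg Prod.snd h4
          simp only [id] at h h5
          rw [← h5, h]
        · rfl
    rw [h2]
    split_ifs
    · ring
    · ring
  · intro l π
    rw [Finset.mul_sum]
    refine Fintype.sum_equiv π _ _ fun i => ?_
    simp only [Function.comp_apply]
    split_ifs with h
    · rw [← dd_comp]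
      congr 1
      ext1 x
      by_cases hx : x = i
      · subst hx; simp
      · rw [Function.update_of_ne hx, Function.comp_apply, Function.comp_apply,
          Function.update_of_ne (fun h => hx (π.injective h))]
    · rw [mul_zero]

/-- The product of determinants over blocks. -/
def DJ (F : Type*) [Field F] {k : ℕ} {J : Type} [Fintype J] (l : J × Ix k → Ix k) : F :=
  ∏ j, dd F (fun i => l (j, i))

/-- Multiplication with determinants over the blocks. -/
def mulDJ (k : ℕ) (F : Type*) [Field F] (J R : Type) [Fintype J] :
    ((R → Ix k) → F) →ₗ[F] ((J × Ix k ⊕ R → Ix k) → F) where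
  toFun h l := DJ F (l ∘ Sum.inl) * h (l ∘ Sum.inr)
  map_add' f g := by funext l; simp [mul_add]
  map_smul' c g := by funext l; simp [mul_left_comm]

/-- Functions which, multiplied with determinants over the blocks, are in the span of
single traces. -/
def GG (k : ℕ) (F : Type*) [Field F] (J R : Type) [Fintype J] : Submodule F ((R → Ix k) → F) :=
  (CC k F (J × Ix k ⊕ R)).comap (mulDJ k F J R)

theorem mem_GG {J R : Type} [Fintype J] {h : (R → Ix k) → F} : h ∈ GG k F J R ↔
    (fun l : J × Ix k ⊕ R → Ix k => DJ F (l ∘ Sum.inl) * h (l ∘ Sum.inr)) ∈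
      CC k F (J × Ix k ⊕ R) := Iff.rfl

theorem GG_relabel {J R R' : Type} [Fintype J] (e : R ≃ R') {h : (R → Ix k) → F}
    (hh : h ∈ GG k F J R) : (fun l : R' → Ix k => h (l ∘ e)) ∈ GG k F J R' := by
  rw [mem_GG] at hh ⊢
  have h1 := CC_relabel (Equiv.sumCongr (Equiv.refl (J × Ix k)) e) hh
  exact h1

theorem upd_inr_inl {A B V : Type} (g : A ⊕ B → V) (s : B) (v : V) (i : DecidableEq (A ⊕ B)) :
    @Function.update _ _ i g (Sum.inr s) v ∘ Sum.inl = g ∘ Sum.inl := by
  funext x
  simp [Function.update]

theorem upd_inl_inr {A B V : Type} (g : A ⊕ B → V) (s : A) (v : V) (i : DecidableEq (A ⊕ B)) :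
    @Function.update _ _ i g (Sum.inl s) v ∘ Sum.inr = g ∘ Sum.inr := by
  funext x
  simp [Function.update]

theorem upd_inr_inr {A B V : Type} (g : A ⊕ B → V) (s : B) (v : V) (i : DecidableEq (A ⊕ B))
    (i' : DecidableEq B) :
    @Function.update _ _ i g (Sum.inr s) v ∘ Sum.inr =
      @Function.update _ _ i' (g ∘ Sum.inr) s v := by
  funext x
  by_cases hx : x = s
  · subst hx; simp
  · simp [Function.update, hx]

theorem upd_inl_inl {A B V : Type} (g : A ⊕ B → V) (s : A) (v : V) (i : DecidableEq (A ⊕ B))
    (i' : DecidableEq A) :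
    @Function.update _ _ i g (Sum.inl s) v ∘ Sum.inl =
      @Function.update _ _ i' (g ∘ Sum.inl) s v := by
  funext x
  by_cases hx : x = s
  · subst hx; simp
  · simp [Function.update, hx]

theorem GG_ins {J R : Type} [Fintype J] (s : R) {h : (R → Ix k) → F}
    (hh : h ∈ GG k F J R) : ins s h ∈ GG k F J (Option R) := by
  rw [mem_GG] at hh ⊢
  have h1 := CC_relabel (optSum (J × Ix k) R).symm (CC_ins (Sum.inr s) hh)
  convert h1 using 1
  funext l
  simp only [ins, Function.comp_apply, optSum, Equiv.coe_fn_symm_mk, Option.elim_some,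
    Option.elim_none, Sum.elim_inr]
  rw [mul_ite, mul_zero]
  refine if_congr Iff.rfl ?_ rfl
  rw [upd_inr_inl, upd_inr_inr]
  rfl

theorem DJ_update {J : Type} [Fintype J] (l : J × Ix k → Ix k) (j0 : J) (i : Ix k) (v : Ix k) :
    DJ F (Function.update l (j0, i) v) =
      dd F (Function.update (fun i => l (j0, i)) i v) *
        ∏ j ∈ univ.erase j0, dd F (fun i => l (j, i)) := by
  rw [DJ, ← Finset.mul_prod_erase univ _ (Finset.mem_univ j0)]
  congr 1
  · congr 1
    funext x
    by_cases hx : x = i
    · subst hx; simp
    · simp [Function.update, hx]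
  · refine Finset.prod_congr rfl fun j hj => ?_
    have hj' := Finset.ne_of_mem_erase hj
    congr 1
    funext x
    rw [Function.update_of_ne]
    intro h
    exact hj' (congrArg Prod.fst h)

theorem GG_insN [CharZero F] (hk : 1 ≤ k) {J R : Type} [Fintype J] (j0 : J) {h : (R → Ix k) → F}
    (hh : h ∈ GG k F J R) : insN h ∈ GG k F J (Option R) := by
  rw [mem_GG] at hh ⊢
  have h1 : ∀ i : Ix k, _ := fun i =>
    CC_relabel (optSum (J × Ix k) R).symm (CC_ins (Sum.inl (j0, i)) hh)
  have h2 := Submodule.smul_mem _ ((k : F)⁻¹) (Submodule.sum_mem _ (fun i (_ : i ∈ univ) => h1 i))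
  convert h2 using 1
  funext l
  rw [Pi.smul_apply, Finset.sum_apply, smul_eq_mul]
  simp only [insN, ins, Function.comp_apply, optSum, Equiv.coe_fn_symm_mk, Option.elim_some,
    Option.elim_none, Sum.elim_inl]
  have hk0 : (k : F) ≠ 0 := by
    rw [Nat.cast_ne_zero]
    omega
  have h4 := ins_dd (F := F) (fun i => l (Sum.inl (j0, i))) (l (Sum.inr none)).1
    (l (Sum.inr none)).2
  have h5 : DJ F (l ∘ Sum.inl) = dd F (fun i => l (Sum.inl (j0, i))) *
      ∏ j ∈ univ.erase j0, dd F (fun i => l (Sum.inl (j, i))) := by
    rw [DJ, ← Finset.mul_prod_erase univ _ (Finset.mem_univ j0)]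
    rfl
  have h6 : ∀ X : Ix k → F, (∀ i, X i =
      (if (l (Sum.inl (j0, i))).2 = (l (Sum.inr none)).1 then
        dd F (Function.update (fun i => l (Sum.inl (j0, i))) i
          ((l (Sum.inl (j0, i))).1, (l (Sum.inr none)).2)) else 0) *
        ((∏ j ∈ univ.erase j0, dd F (fun i => l (Sum.inl (j, i)))) *
          h (fun t => l (Sum.inr (some t))))) → (k : F)⁻¹ * ∑ i : Ix k, X i =
      DJ F (l ∘ Sum.inl) * if (l (Sum.inr none)).2 = (l (Sum.inr none)).1 then
        h (fun t => l (Sum.inr (some t))) else 0 := by
    intro X h3
    rw [Finset.sum_congr rfl fun i _ => h3 i, ← Finset.sum_mul, h4, h5]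
    split_ifs
    · field_simp
    · simp
  refine (h6 _ fun i => ?_).symm
  rw [ite_mul, zero_mul]
  refine if_congr Iff.rfl ?_ rfl
  rw [upd_inl_inl, upd_inl_inr, DJ_update, mul_assoc]
  rfl

end

end Pool.Agent.TH42.MC
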