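import Pool.Agent.TH42.MC.Mono

/-!
# Comparison of dimensions
-/

namespace Pool.Agent.TH42.MC

open Finset Equiv
open scoped Classical

noncomputable section

variable {F : Type*} [Field F] {k : ℕ}

theorem finrank_words {I R : Type} [Fintype I] [DecidableEq I] [Fintype R]
    {T P : Submodule F ((I × Bk k ⊕ R → Ix k) → F)} [CharZero F]
    (hT : ∀ i : I, ∀ f ∈ T, ei i f ∈ T) (hP : ∀ i : I, ∀ f ∈ T, ei i f ∈ P) :
    Module.finrank F T ≤ Module.finrank F (P ⊓ T : Submodule F ((I × Bk k ⊕ R → Ix k) → F)) +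
      (Fintype.card (Bk k → Ix k) - 1) ^ Fintype.card I * Fintype.card (R → Ix k) := by
  have h1 := finrank_le_of_eo (I := I) (Y := R → Ix k) (DJ (F := F) (k := k)
    (J := (Unit ⊕ Ix k) ⊕ (Unit ⊕ Ix k))) DJ_sq_sum_ne
    (T := T.map (wdL F k I R).toLinearMap) (P := P.map (wdL F k I R).toLinearMap) ?_ ?_
  · rw [← Submodule.map_inf _ (wdL F k I R).injective] at h1
    rw [LinearEquiv.finrank_map_eq, LinearEquiv.finrank_map_eq] at h1
    exact h1
  · rintro i _ ⟨f, hf, rfl⟩
    refine ⟨ei i f, hT i f hf, ?_⟩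
    exact wdL_ei i f
  · rintro i _ ⟨f, hf, rfl⟩
    refine ⟨ei i f, hP i f hf, ?_⟩
    exact wdL_ei i f

/-- Multiplication by the trace of a new variable as a linear map. -/
def insNL (F : Type*) [Field F] (k : ℕ) (κ : Type) :
    ((κ → Ix k) → F) →ₗ[F] ((Option κ → Ix k) → F) where
  toFun := insN
  map_add' := insN_add
  map_smul' := insN_smul

/-- The relabeling of the variables as a linear equivalence. -/
def rl (F : Type*) [Field F] (k : ℕ) {κ κ' : Type} (e : κ ≃ κ') :
    ((κ → Ix k) → F) ≃ₗ[F] ((κ' → Ix k) → F) :=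
  LinearEquiv.funCongrLeft F F (Equiv.arrowCongr e.symm (Equiv.refl (Ix k)))

theorem rl_apply {κ κ' : Type} (e : κ ≃ κ') (f : (κ → Ix k) → F) :
    rl F k e f = fun l => f (l ∘ e) := by
  funext l
  simp only [rl, LinearEquiv.funCongrLeft_apply, LinearMap.funLeft_apply]
  congr 1

theorem rl_symm_apply {κ κ' : Type} (e : κ ≃ κ') (f : (κ' → Ix k) → F) :
    (rl F k e).symm f = fun l => f (l ∘ e.symm) := by
  rw [LinearEquiv.symm_apply_eq, rl_apply]
  funext l
  congr 1
  funext x
  simp

theorem II_map_rl {κ κ' : Type} (e : κ ≃ κ') :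
    (II k F κ).map (rl F k e).toLinearMap = II k F κ' := by
  apply le_antisymm
  · rintro _ ⟨f, hf, rfl⟩
    have := II_relabel e hf
    rw [← rl_apply] at this
    exact this
  · intro f hf
    refine ⟨(rl F k e).symm f, ?_, ?_⟩
    · rw [rl_symm_apply]
      exact II_relabel e.symm hf
    · exact (rl F k e).apply_symm_apply f

theorem CC_map_rl {κ κ' : Type} (e : κ ≃ κ') :
    (CC k F κ).map (rl F k e).toLinearMap = CC k F κ' := by
  apply le_antisymm
  · rintro _ ⟨f, hf, rfl⟩
    have := CC_relabel e hf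
    rw [← rl_apply] at this
    exact this
  · intro f hf
    refine ⟨(rl F k e).symm f, ?_, ?_⟩
    · rw [rl_symm_apply]
      exact CC_relabel e.symm hf
    · exact (rl F k e).apply_symm_apply f

theorem II_finrank_congr {κ κ' : Type} (e : κ ≃ κ') :
    Module.finrank F (II k F κ) = Module.finrank F (II k F κ') := by
  rw [← II_map_rl e, LinearEquiv.finrank_map_eq]

theorem CC_finrank_congr {κ κ' : Type} (e : κ ≃ κ') :
    Module.finrank F (CC k F κ) = Module.finrank F (CC k F κ') := by
  rw [← CC_map_rl e, LinearEquiv.finrank_map_eq]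

/-- Pure trace functions whose product with a new trace is in the span of single traces. -/
def QQ (k : ℕ) (F : Type*) [Field F] (κ : Type) : Submodule F ((κ → Ix k) → F) :=
  (CC k F (Option κ)).comap (insNL F k κ) ⊓ II k F κ

theorem QQ_map_rl {κ κ' : Type} (e : κ ≃ κ') :
    (QQ k F κ).map (rl F k e).toLinearMap ≤ QQ k F κ' := by
  rintro _ ⟨f, ⟨hf1, hf2⟩, rfl⟩
  have h1 := II_relabel e hf2
  have h2 := CC_relabel (optionCongr e) hf1
  refine ⟨?_, ?_⟩
  · have h3 : insNL F k κ' (rl F k e f) = fun l => insNL F k κ f (l ∘ optionCongr e) := by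
      funext l
      rw [rl_apply]
      rfl
    have h4 : insNL F k κ' (rl F k e f) ∈ CC k F (Option κ') := by
      rw [h3]
      exact h2
    exact h4
  · rw [LinearEquiv.coe_toLinearMap, rl_apply]
    exact h1

theorem QQ_finrank_le {κ κ' : Type} [Fintype κ'] (e : κ ≃ κ') :
    Module.finrank F (QQ k F κ) ≤ Module.finrank F (QQ k F κ') := by
  have h1 := Submodule.finrank_mono (QQ_map_rl (F := F) (k := k) e)
  rwa [LinearEquiv.finrank_map_eq] at h1

theorem bound_one [CharZero F] (hk : 1 ≤ k) {I R : Type} [Fintype I] [DecidableEq I] [Fintype R]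
    (hR : Nonempty R) :
    Module.finrank F (II k F (I × Bk k ⊕ R)) ≤ Module.finrank F (CC k F (I × Bk k ⊕ R)) +
      (Fintype.card (Bk k → Ix k) - 1) ^ Fintype.card I * Fintype.card (R → Ix k) := by
  have h1 := finrank_words (T := II k F (I × Bk k ⊕ R)) (P := CC k F (I × Bk k ⊕ R))
    (fun i f hf => ei_mem_II i hf) (fun i f hf => ei_mem_CC hk hR i hf)
  rwa [inf_eq_left.2 CC_le_II] at h1

theorem bound_two [CharZero F] (hk : 1 ≤ k) {I R : Type} [Fintype I] [DecidableEq I] [Fintype R] :
    Module.finrank F (II k F (I × Bk k ⊕ R)) ≤ Module.finrank F (QQ k F (I × Bk k ⊕ R)) +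
      (Fintype.card (Bk k → Ix k) - 1) ^ Fintype.card I * Fintype.card (R → Ix k) := by
  refine finrank_words (T := II k F (I × Bk k ⊕ R))
    (P := (CC k F (Option (I × Bk k ⊕ R))).comap (insNL F k (I × Bk k ⊕ R)))
    (fun i f hf => ei_mem_II i hf) (fun i f hf => ?_)
  rw [Submodule.mem_comap]
  have h1 : (fun l : I × Bk k ⊕ Option R → Ix k =>
      insN f (l ∘ (optSum (I × Bk k) R).symm)) ∈ II k F (I × Bk k ⊕ Option R) :=
    II_relabel (optSum (I × Bk k) R).symm (II_insN hf)
  have h2 := ei_mem_CC hk ⟨none⟩ i h1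
  rw [← ei_insN] at h2
  have h3 := CC_relabel (optSum (I × Bk k) R) h2
  convert h3 using 1
  funext l
  change insN (ei i f) l = insN (ei i f) _
  congr 1
  funext x
  simp

/-- The dimension of the space of pure trace functions in `n` variables. -/
def aN (F : Type*) [Field F] (k n : ℕ) : ℕ := Module.finrank F (II k F (Fin n))

/-- The size of a block. -/
def qB (k : ℕ) : ℕ := Fintype.card (Bk k)

theorem qB_pos (hk : 1 ≤ k) : 0 < qB k :=
  Fintype.card_pos_iff.2 ⟨(Sum.inl (Sum.inl ()), (⟨0, hk⟩, ⟨0, hk⟩))⟩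

theorem card_wd {R : Type} [Fintype R] {i : Fintype (R → Ix k)} :
    @Fintype.card (R → Ix k) i = (k * k) ^ Fintype.card R := by
  have h1 : i = Pi.instFintype := Subsingleton.elim _ _
  rw [h1, Fintype.card_fun, Fintype.card_prod, Fintype.card_fin]

theorem card_words : Fintype.card (Bk k → Ix k) = (k * k) ^ qB k := by
  rw [card_wd, qB]

/-- Splitting the variables into blocks. -/
def splE (k n : ℕ) : Fin n ≃ Fin (n / qB k) × Bk k ⊕ Fin (n % qB k) :=
  Fintype.equivOfCardEq (by
    rw [Fintype.card_sum, Fintype.card_prod, Fintype.card_fin, Fintype.card_fin, Fintype.card_fin]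
    have := Nat.div_add_mod n (qB k)
    rw [mul_comm] at this
    exact this.symm)

theorem bound_one' [CharZero F] (hk : 1 ≤ k) (n : ℕ) :
    aN F k (n + 1) ≤ Module.finrank F (CC k F (Option (Fin n))) +
      ((k * k) ^ qB k - 1) ^ (n / qB k) * (k * k) ^ (n % qB k + 1) := by
  let e : Option (Fin n) ≃ Fin (n / qB k) × Bk k ⊕ Option (Fin (n % qB k)) :=
    (optionCongr (splE k n)).trans (optSum _ _).symm
  have h1 := bound_one (F := F) hk (I := Fin (n / qB k)) (R := Option (Fin (n % qB k))) ⟨none⟩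
  rw [card_words, ← CC_finrank_congr e, ← II_finrank_congr e, Fintype.card_fin,
    card_wd, Fintype.card_option, Fintype.card_fin] at h1
  rw [aN, II_finrank_congr (finSuccEquiv n)]
  exact h1

theorem bound_two' [CharZero F] (hk : 1 ≤ k) (n : ℕ) :
    aN F k n ≤ Module.finrank F (QQ k F (Fin n)) +
      ((k * k) ^ qB k - 1) ^ (n / qB k) * (k * k) ^ (n % qB k) := by
  have h1 := bound_two (F := F) hk (I := Fin (n / qB k)) (R := Fin (n % qB k))
  rw [card_words, ← II_finrank_congr (splE k n), Fintype.card_fin,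
    card_wd, Fintype.card_fin] at h1
  have h2 := QQ_finrank_le (F := F) (k := k) (splE k n).symm
  rw [aN]
  omega

end

end Pool.Agent.TH42.MC
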