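import Pool.Agent.TH42.MC.Alt

/-!
# Closure properties of the good functions
-/

namespace Pool.Agent.TH42.MC

open Finset Equiv
open scoped Classical

noncomputable section

variable {F : Type*} [Field F] {k : ℕ}

/-- Multiplication with a fixed function of other variables. -/
def mulL {R0 : Type} (h : (R0 → Ix k) → F) (R' : Type) :
    ((R' → Ix k) → F) →ₗ[F] ((R0 ⊕ R' → Ix k) → F) where
  toFun g l := h (l ∘ Sum.inl) * g (l ∘ Sum.inr)
  map_add' f g := by funext l; simp [mul_add]
  map_smul' c g := by funext l; simp [mul_left_comm]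

theorem GG_mul [CharZero F] (hk : 1 ≤ k) {J R0 : Type} [Fintype J] (j0 : J)
    {h : (R0 → Ix k) → F} (hh : h ∈ GG k F J R0) (R' : Type) [Fintype R'] :
    ∀ g ∈ II k F R', (fun l : R0 ⊕ R' → Ix k => h (l ∘ Sum.inl) * g (l ∘ Sum.inr)) ∈
      GG k F J (R0 ⊕ R') := by
  refine Fintype.induction_empty_option (P := fun R' _ => ∀ g ∈ II k F R',
    (fun l : R0 ⊕ R' → Ix k => h (l ∘ Sum.inl) * g (l ∘ Sum.inr)) ∈
      GG k F J (R0 ⊕ R')) ?_ ?_ ?_ R'
  · intro α β _ e ih g hg
    have h1 := ih _ (II_relabel e.symm hg)
    have h2 := GG_relabel (Equiv.sumCongr (Equiv.refl R0) e) h1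
    convert h2 using 1
    funext l
    congr 2
    funext x
    simp
  · intro g hg
    have h1 := GG_relabel (Equiv.sumEmpty R0 PEmpty).symm hh
    have h2 := Submodule.smul_mem _ (g PEmpty.elim) h1
    convert h2 using 1
    funext l
    rw [Pi.smul_apply, smul_eq_mul, mul_comm]
    congr 1
    · congr 1
      funext x
      exact x.elim
  · intro α _ ih g hg
    have h1 : II k F (Option α) ≤ (GG k F J (R0 ⊕ Option α)).comap (mulL h (Option α)) := by
      refine II_option_le ?_ ?_
      · intro f hf
        have h1 := GG_relabel (optSum R0 α).symm (GG_insN hk j0 (ih f hf))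
        rw [Submodule.mem_comap]
        convert h1 using 1
        funext l
        simp only [insN, Function.comp_apply, optSum, Equiv.coe_fn_symm_mk, Option.elim_some,
          Option.elim_none, mulL, LinearMap.coe_mk, AddHom.coe_mk, mul_ite, mul_zero]
        rfl
      · intro s f hf
        have h1 := GG_relabel (optSum R0 α).symm (GG_ins (Sum.inr s) (ih f hf))
        rw [Submodule.mem_comap]
        convert h1 using 1
        funext l
        simp only [ins, Function.comp_apply, optSum, Equiv.coe_fn_symm_mk, Option.elim_some,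
          Option.elim_none, mulL, LinearMap.coe_mk, AddHom.coe_mk, mul_ite, mul_zero,
          Sum.elim_inr]
        refine if_congr Iff.rfl ?_ rfl
        rw [upd_inr_inl, upd_inr_inr]
        rfl
    exact h1 hg

theorem GG_of_tr [CharZero F] (hk : 1 ≤ k) {J : Type} [Fintype J] (j0 : J)
    (ht : de k F (1 : Perm Unit) ∈ GG k F J Unit) (R : Type) [Fintype R] :
    Nonempty R → II k F R ≤ GG k F J R := by
  refine Fintype.induction_empty_option (P := fun R _ => Nonempty R → II k F R ≤ GG k F J R)
    ?_ ?_ ?_ R
  · intro α β _ e ih hβ g hg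
    obtain ⟨b⟩ := hβ
    have h1 := ih ⟨e.symm b⟩ (II_relabel e.symm hg)
    have h2 := GG_relabel e h1
    convert h2 using 1
    funext l
    congr 1
    funext x
    simp
  · rintro ⟨⟨⟩⟩
  · intro α _ ih _
    by_cases hα : Nonempty α
    · refine II_option_le ?_ ?_
      · intro f hf
        exact GG_insN hk j0 (ih hα hf)
      · intro s f hf
        exact GG_ins s (ih hα hf)
    · refine Submodule.span_le.2 ?_
      rintro _ ⟨σ, rfl⟩
      have e : Unit ≃ Option α := 
        { toFun := fun _ => none
          invFun := fun _ => ()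
          left_inv := fun _ => rfl
          right_inv := fun x => by
            cases x with
            | none => rfl
            | some x => exact absurd ⟨x⟩ hα }
      have h1 := GG_relabel e ht
      rw [de_relabel] at h1
      have hs : Subsingleton (Option α) := ⟨fun a b => e.symm.injective (Subsingleton.elim _ _)⟩
      rw [Subsingleton.elim σ (e.symm.trans ((1 : Perm Unit).trans e))]
      exact h1

theorem GG_J_relabel {J J' R : Type} [Fintype J] [Fintype J'] (e : J ≃ J')
    {h : (R → Ix k) → F} (hh : h ∈ GG k F J R) : h ∈ GG k F J' R := by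
  rw [mem_GG] at hh ⊢
  have h1 := CC_relabel (Equiv.sumCongr (Equiv.prodCongrLeft (fun _ : Ix k => e))
    (Equiv.refl R)) hh
  convert h1 using 1
  funext l
  congr 1
  simp only [DJ]
  exact (Fintype.prod_equiv e _ _ fun j => rfl).symm

/-- Determinants can be absorbed in the blocks. -/
theorem GG_absorb {J J' R : Type} [Fintype J] [Fintype J'] {h : (R → Ix k) → F}
    (hh : (fun l : R ⊕ J' × Ix k → Ix k => h (l ∘ Sum.inl) * DJ F (l ∘ Sum.inr)) ∈
      GG k F J (R ⊕ J' × Ix k)) : h ∈ GG k F (J ⊕ J') R := by
  rw [mem_GG] at hh ⊢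
  let e : J × Ix k ⊕ (R ⊕ J' × Ix k) ≃ (J ⊕ J') × Ix k ⊕ R :=
    { toFun := Sum.elim (fun x => Sum.inl (Sum.inl x.1, x.2))
        (Sum.elim Sum.inr (fun x => Sum.inl (Sum.inr x.1, x.2)))
      invFun := Sum.elim (fun x => Sum.elim (fun j => Sum.inl (j, x.2))
        (fun j => Sum.inr (Sum.inr (j, x.2))) x.1) (fun r => Sum.inr (Sum.inl r))
      left_inv := fun x => by rcases x with ⟨j, i⟩ | (x | ⟨j, i⟩) <;> rfl
      right_inv := fun x => by rcases x with ⟨j | j, i⟩ | x <;> rfl }
  have h1 := CC_relabel e hh
  convert h1 using 1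
  funext l
  simp only [DJ, Fintype.prod_sum_type]
  rw [mul_assoc]
  congr 1
  rw [mul_comm]
  rfl

end

end Pool.Agent.TH42.MC
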