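import Pool.Agent.TH42.MC.Span

/-!
# Trace monomials in coordinates
-/

namespace Pool.Agent.TH42.MC

open Finset Equiv
open scoped Classical

noncomputable section

/-- Indices of matrix units. -/
abbrev Ix (k : ℕ) := Fin k × Fin k

/-- The coordinates of the trace monomial attached to a permutation. -/
def de (k : ℕ) (F : Type*) [Field F] {κ : Type} (σ : Perm κ) : (κ → Ix k) → F :=
  fun l => if ∀ s, (l s).2 = (l (σ s)).1 then 1 else 0

/-- The span of the trace monomials. -/
def II (k : ℕ) (F : Type*) [Field F] (κ : Type) : Submodule F ((κ → Ix k) → F) :=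
  Submodule.span F (Set.range (de k F))

/-- The span of the single traces. -/
def CC (k : ℕ) (F : Type*) [Field F] (κ : Type) : Submodule F ((κ → Ix k) → F) :=
  Submodule.span F {f | ∃ σ : Perm κ, (∀ s t, σ.SameCycle s t) ∧ f = de k F σ}

variable {k : ℕ} {F : Type*} [Field F]

theorem de_mem {κ : Type} (σ : Perm κ) : de k F σ ∈ II k F κ :=
  Submodule.subset_span ⟨σ, rfl⟩

theorem CC_le_II {κ : Type} : CC k F κ ≤ II k F κ := by
  refine Submodule.span_mono ?_
  rintro _ ⟨σ, _, rfl⟩
  exact ⟨σ, rfl⟩

theorem II_iff {κ : Type} (f : (κ → Ix k) → F) :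
    f ∈ II k F κ ↔ (fun x : (κ → Fin k) × (κ → Fin k) => f (fun s => (x.1 s, x.2 s))) ∈
      MM k F κ κ := by
  constructor
  · intro hf
    refine span_maps (fun f (x : (κ → Fin k) × (κ → Fin k)) => f (fun s => (x.1 s, x.2 s)))
      (fun _ _ => rfl) (fun _ _ => rfl) ?_ hf
    rintro _ ⟨σ, rfl⟩
    have : (fun x : (κ → Fin k) × (κ → Fin k) => de k F σ (fun s => (x.1 s, x.2 s))) =
        dl k F σ := by
      funext x
      simp only [de, dl, funext_iff, Function.comp_apply]
    rw [this]
    exact dl_mem _
  · intro hf
    have h1 := span_maps (F := F) (T := II k F κ)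
      (fun (f : (κ → Fin k) × (κ → Fin k) → F) (l : κ → Ix k) =>
        f (fun s => (l s).1, fun s => (l s).2))
      (fun _ _ => rfl) (fun _ _ => rfl) (S := Set.range (dl k F)) ?_ hf
    · exact h1
    · rintro _ ⟨σ, rfl⟩
      have : (fun l : κ → Ix k => dl k F σ (fun s => (l s).1, fun s => (l s).2)) =
          de k F σ := by
        funext x
        simp only [de, dl, funext_iff, Function.comp_apply]
      rw [this]
      exact de_mem _

theorem de_relabel {κ κ' : Type} (e : κ ≃ κ') (σ : Perm κ) :
    (fun l : κ' → Ix k => de k F σ (l ∘ e)) = de k F (e.symm.trans (σ.trans e)) := by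
  funext l
  simp only [de, Function.comp_apply, Equiv.trans_apply]
  refine if_congr ?_ rfl rfl
  constructor
  · intro h s
    have := h (e.symm s)
    simpa using this
  · intro h s
    have := h (e s)
    simpa using this

theorem II_relabel {κ κ' : Type} (e : κ ≃ κ') {f : (κ → Ix k) → F} (hf : f ∈ II k F κ) :
    (fun l : κ' → Ix k => f (l ∘ e)) ∈ II k F κ' := by
  refine span_maps (fun f (l : κ' → Ix k) => f (l ∘ e)) (fun _ _ => rfl) (fun _ _ => rfl) ?_ hf
  rintro _ ⟨σ, rfl⟩
  rw [de_relabel]
  exact de_mem _

theorem sameCycle_of_step {κ : Type} (σ : Perm κ) (r : κ → κ → Prop) (hr : Equivalence r)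
    (h : ∀ s, r s (σ s)) {s t : κ} (hst : σ.SameCycle s t) : r s t := by
  obtain ⟨i, rfl⟩ := hst
  have h' : ∀ s, r s (σ⁻¹ s) := by
    intro s
    have := h (σ⁻¹ s)
    rw [← Perm.mul_apply, mul_inv_cancel, Perm.one_apply] at this
    exact hr.symm this
  induction i using Int.induction_on with
  | zero => simpa using hr.refl s
  | succ i ih =>
    refine hr.trans ih ?_
    rw [add_comm, zpow_add, zpow_one, Perm.mul_apply]
    exact h _
  | pred i ih =>
    refine hr.trans ih ?_
    rw [sub_eq_add_neg, add_comm, zpow_add, zpow_neg_one, Perm.mul_apply]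
    exact h' _

theorem sameCycle_step {κ : Type} (σ : Perm κ) (x : κ) : σ.SameCycle x (σ x) :=
  Perm.sameCycle_apply_right.2 (Perm.SameCycle.refl _ x)

theorem sameCycle_conj {κ κ' : Type} (e : κ ≃ κ') (σ : Perm κ) (h : ∀ s t, σ.SameCycle s t)
    (s t : κ') : Perm.SameCycle (e.symm.trans (σ.trans e)) s t := by
  have h1 := sameCycle_of_step σ
    (fun x y => Perm.SameCycle (e.symm.trans (σ.trans e)) (e x) (e y))
    ⟨fun x => Perm.SameCycle.refl _ _, fun h => h.symm, fun h h' => h.trans h'⟩
    (fun x => by
      have := sameCycle_step (e.symm.trans (σ.trans e)) (e x)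
      simpa using this) (h (e.symm s) (e.symm t))
  simpa using h1

theorem CC_relabel {κ κ' : Type} (e : κ ≃ κ') {f : (κ → Ix k) → F} (hf : f ∈ CC k F κ) :
    (fun l : κ' → Ix k => f (l ∘ e)) ∈ CC k F κ' := by
  refine span_maps (fun f (l : κ' → Ix k) => f (l ∘ e)) (fun _ _ => rfl) (fun _ _ => rfl) ?_ hf
  rintro _ ⟨σ, hσ, rfl⟩
  rw [de_relabel]
  exact Submodule.subset_span ⟨_, sameCycle_conj e σ hσ, rfl⟩

theorem II_star {κ : Type} {f : (κ → Ix k) → F} (hf : f ∈ II k F κ) :
    (fun l : κ → Ix k => f (fun s => (l s).swap)) ∈ II k F κ := by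
  refine span_maps (fun f (l : κ → Ix k) => f (fun s => (l s).swap))
    (fun _ _ => rfl) (fun _ _ => rfl) ?_ hf
  rintro _ ⟨σ, rfl⟩
  have : (fun l : κ → Ix k => de k F σ (fun s => (l s).swap)) = de k F σ⁻¹ := by
    funext l
    simp only [de, Prod.fst_swap, Prod.snd_swap]
    refine if_congr ?_ rfl rfl
    constructor
    · intro h s
      have := h (σ⁻¹ s)
      simpa using this.symm
    · intro h s
      have := h (σ s)
      simpa using this.symm
  rw [this]
  exact de_mem _

/-- Insert a new variable right after `s`. -/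
def ins {κ : Type} (s : κ) (f : (κ → Ix k) → F) : (Option κ → Ix k) → F := fun l =>
  if (l (some s)).2 = (l none).1 then
    f (Function.update (fun t => l (some t)) s ((l (some s)).1, (l none).2)) else 0

/-- Multiply by the trace of a new variable. -/
def insN {κ : Type} (f : (κ → Ix k) → F) : (Option κ → Ix k) → F := fun l =>
  if (l none).2 = (l none).1 then f (fun t => l (some t)) else 0

theorem ins_add {κ : Type} (s : κ) (f g : (κ → Ix k) → F) : ins s (f + g) = ins s f + ins s g := by
  funext l
  simp only [ins, Pi.add_apply]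
  split_ifs <;> simp

theorem ins_smul {κ : Type} (s : κ) (c : F) (f : (κ → Ix k) → F) :
    ins s (c • f) = c • ins s f := by
  funext l
  simp only [ins, Pi.smul_apply]
  split_ifs <;> simp

theorem insN_add {κ : Type} (f g : (κ → Ix k) → F) : insN (f + g) = insN f + insN g := by
  funext l
  simp only [insN, Pi.add_apply]
  split_ifs <;> simp

theorem insN_smul {κ : Type} (c : F) (f : (κ → Ix k) → F) :
    insN (c • f) = c • insN f := by
  funext l
  simp only [insN, Pi.smul_apply]
  split_ifs <;> simp

/-- The permutation with a new point inserted after `s`. -/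
def insP {κ : Type} (s : κ) (σ : Perm κ) : Perm (Option κ) :=
  (swap none (some s)).trans (optionCongr σ)

theorem insP_none {κ : Type} (s : κ) (σ : Perm κ) : insP s σ none = some (σ s) := by
  simp [insP]

theorem insP_self {κ : Type} (s : κ) (σ : Perm κ) : insP s σ (some s) = none := by
  simp [insP]

theorem insP_ne {κ : Type} (s : κ) (σ : Perm κ) {u : κ} (h : u ≠ s) :
    insP s σ (some u) = some (σ u) := by
  simp only [insP, Equiv.trans_apply]
  rw [swap_apply_of_ne_of_ne (by simp) (by simpa using h)]
  simp

theorem ins_de {κ : Type} (s : κ) (σ : Perm κ) : ins s (de k F σ) = de k F (insP s σ) := by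
  funext l
  simp only [ins, de]
  rw [← ite_and]
  refine if_congr ?_ rfl rfl
  have hr : ∀ u, (Function.update (fun t => l (some t)) s ((l (some s)).1, (l none).2) u).1 =
      (l (some u)).1 := by
    intro u
    by_cases h : u = s
    · subst h; simp
    · simp [h]
  simp only [hr]
  constructor
  · rintro ⟨h1, h2⟩ v
    cases v with
    | none =>
      rw [insP_none]
      have := h2 s
      simpa using this
    | some u =>
      by_cases h : u = s
      · subst h
        rw [insP_self]
        exact h1
      · rw [insP_ne s σ h]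
        have := h2 u
        simpa [h] using this
  · intro h
    constructor
    · have := h (some s)
      rwa [insP_self] at this
    · intro u
      by_cases hu : u = s
      · subst hu
        have := h none
        rw [insP_none] at this
        simpa using this
      · have := h (some u)
        rw [insP_ne s σ hu] at this
        simpa [hu] using this

theorem insN_de {κ : Type} (σ : Perm κ) : insN (de k F σ) = de k F (optionCongr σ) := by
  funext l
  simp only [insN, de]
  rw [← ite_and]
  refine if_congr ?_ rfl rfl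
  constructor
  · rintro ⟨h1, h2⟩ v
    cases v with
    | none => simpa using h1
    | some u => simpa using h2 u
  · intro h
    exact ⟨by simpa using h none, fun u => by simpa using h (some u)⟩

theorem II_ins {κ : Type} (s : κ) {f : (κ → Ix k) → F} (hf : f ∈ II k F κ) :
    ins s f ∈ II k F (Option κ) := by
  refine span_maps (ins s) (ins_add s) (ins_smul s) ?_ hf
  rintro _ ⟨σ, rfl⟩
  rw [ins_de]
  exact de_mem _

theorem II_insN {κ : Type} {f : (κ → Ix k) → F} (hf : f ∈ II k F κ) :
    insN f ∈ II k F (Option κ) := by
  refine span_maps insN insN_add insN_smul ?_ hf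
  rintro _ ⟨σ, rfl⟩
  rw [insN_de]
  exact de_mem _

theorem insP_sameCycle {κ : Type} (s : κ) (σ : Perm κ) (h : ∀ s t, σ.SameCycle s t)
    (u v : Option κ) : (insP s σ).SameCycle u v := by
  have hE : Equivalence (fun u v => (insP s σ).SameCycle u v) :=
    ⟨fun x => Perm.SameCycle.refl _ x, fun h => h.symm, fun h h' => h.trans h'⟩
  have hstep : ∀ x, (insP s σ).SameCycle x (insP s σ x) := sameCycle_step _
  have h1 : ∀ x, (insP s σ).SameCycle (some x) (some (σ x)) := by
    intro x
    by_cases hx : x = s
    · subst hx
      have h2 := hstep (some x)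
      have h3 := hstep none
      rw [insP_self] at h2
      rw [insP_none] at h3
      exact h2.trans h3
    · have h2 := hstep (some x)
      rwa [insP_ne s σ hx] at h2
  have h2 : ∀ x y : κ, (insP s σ).SameCycle (some x) (some y) := by
    intro x y
    exact sameCycle_of_step σ (fun x y => (insP s σ).SameCycle (some x) (some y))
      ⟨fun x => Perm.SameCycle.refl _ _, fun h => h.symm, fun h h' => h.trans h'⟩ h1 (h x y)
  have h3 : (insP s σ).SameCycle (some s) none := by
    have h2 := hstep (some s)
    rwa [insP_self] at h2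
  have h4 : ∀ u, (insP s σ).SameCycle (some s) u := by
    intro u
    cases u with
    | none => exact h3
    | some u => exact h2 s u
  exact (h4 u).symm.trans (h4 v)

theorem CC_ins {κ : Type} (s : κ) {f : (κ → Ix k) → F} (hf : f ∈ CC k F κ) :
    ins s f ∈ CC k F (Option κ) := by
  refine span_maps (ins s) (ins_add s) (ins_smul s) ?_ hf
  rintro _ ⟨σ, hσ, rfl⟩
  rw [ins_de]
  exact Submodule.subset_span ⟨_, insP_sameCycle s σ hσ, rfl⟩

theorem II_option_le {κ : Type} {T : Submodule F ((Option κ → Ix k) → F)}
    (h0 : ∀ f ∈ II k F κ, insN f ∈ T) (h1 : ∀ s, ∀ f ∈ II k F κ, ins s f ∈ T) :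
    II k F (Option κ) ≤ T := by
  refine Submodule.span_le.2 ?_
  rintro _ ⟨σ, rfl⟩
  by_cases hσ : σ none = none
  · have h2 : σ = optionCongr (removeNone σ) := by
      ext1 x
      cases x with
      | none => simpa using hσ
      | some x =>
        have h3 : ∃ y, σ (some x) = some y := by
          rw [← Option.ne_none_iff_exists']
          intro h3
          rw [← hσ] at h3
          exact Option.some_ne_none _ (σ.injective h3)
        rw [← removeNone_some σ h3]
        rfl
    have h3 : de k F σ = insN (de k F (removeNone σ)) := by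
      rw [insN_de, ← h2]
    rw [h3]
    exact h0 _ (de_mem _)
  · have h0' : σ.symm none ≠ none := by
      rw [Ne, option_symm_apply_none_iff]
      exact hσ
    obtain ⟨s, hs⟩ := Option.ne_none_iff_exists'.1 h0'
    have hs' : σ (some s) = none := by
      rw [← hs, apply_symm_apply]
    have h2 : σ = insP s (removeNone σ) := by
      ext1 x
      cases x with
      | none => rw [insP_none, removeNone_none σ hs']
      | some x =>
        by_cases hx : x = s
        · subst hx
          rw [insP_self, hs']
        · rw [insP_ne _ _ hx]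
          have h3 : ∃ y, σ (some x) = some y := by
            rw [← Option.ne_none_iff_exists']
            intro h3
            rw [← hs'] at h3
            exact hx (Option.some_injective _ (σ.injective h3))
          rw [removeNone_some σ h3]
    have h3 : de k F σ = ins s (de k F (removeNone σ)) := by
      rw [ins_de, ← h2]
    rw [h3]
    exact h1 _ _ (de_mem _)

/-- Contraction of pairs of variables preserves the span of trace monomials. -/
theorem II_contr {R S : Type} [Fintype S] [DecidableEq S] {f : (R ⊕ (S ⊕ S) → Ix k) → F}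
    (hf : f ∈ II k F (R ⊕ (S ⊕ S))) :
    (fun l : R → Ix k => ∑ a : S → Ix k, f (Sum.elim l (Sum.elim a (fun s => (a s).swap)))) ∈
      II k F R := by
  rw [II_iff] at hf ⊢
  have h1 := MM_relabel (Equiv.refl (R ⊕ (S ⊕ S)))
    (Equiv.sumCongr (Equiv.refl R) (Equiv.sumComm S S)) hf
  have h2 := MM_contr (S ⊕ S) R R _ h1
  convert h2 using 1
  funext x
  let e : (S → Ix k) ≃ (S ⊕ S → Fin k) :=
    (Equiv.arrowProdEquivProdArrow S (fun _ => Fin k) (fun _ => Fin k)).trans
      (Equiv.sumArrowEquivProdArrow S S (Fin k)).symm
  refine Fintype.sum_equiv e _ _ fun a => ?_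
  congr 1
  funext s
  rcases s with s | (s | s)
  · rfl
  · rfl
  · rfl

/-- Products of trace monomials. -/
theorem II_mul {R R' : Type} {f : (R → Ix k) → F} {g : (R' → Ix k) → F}
    (hf : f ∈ II k F R) (hg : g ∈ II k F R') :
    (fun l : R ⊕ R' → Ix k => f (l ∘ Sum.inl) * g (l ∘ Sum.inr)) ∈ II k F (R ⊕ R') := by
  rw [II_iff] at hf hg ⊢
  exact MM_tensor hf hg

end

end Pool.Agent.TH42.MC
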