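import Mathlib

/-!
# A dimension bound for functions killed by commuting rank one projections
-/

namespace Pool.Agent.TH42.MC

open Finset

noncomputable section

set_option linter.unusedSectionVars false

variable {F : Type*} [Field F] {I X Y : Type} [Fintype I] [DecidableEq I] [Fintype X]
  [DecidableEq X] [Fintype Y]

/-- The rank one operator in the block `i`. -/
def eo (D : X → F) (i : I) : ((I → X) × Y → F) →ₗ[F] ((I → X) × Y → F) where
  toFun f z := D (z.1 i) * ∑ a, D a * f (Function.update z.1 i a, z.2)
  map_add' f g := by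
    funext z
    simp only [Pi.add_apply, mul_add, Finset.sum_add_distrib]
  map_smul' c f := by
    funext z
    simp only [Pi.smul_apply, smul_eq_mul, RingHom.id_apply, Finset.mul_sum]
    exact Finset.sum_congr rfl fun a _ => by ring

theorem eo_apply (D : X → F) (i : I) (f : (I → X) × Y → F) (z : (I → X) × Y) :
    eo D i f z = D (z.1 i) * ∑ a, D a * f (Function.update z.1 i a, z.2) := rfl

theorem eo_sq (D : X → F) (i : I) (f : (I → X) × Y → F) :
    eo D i (eo D i f) = (∑ a, D a * D a) • eo D i f := by
  funext z
  rw [Pi.smul_apply, smul_eq_mul, eo_apply, eo_apply]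
  have h : ∀ a, D a * eo D i f (Function.update z.1 i a, z.2) =
      D a * D a * ∑ b, D b * f (Function.update z.1 i b, z.2) := by
    intro a
    rw [eo_apply]
    simp only [Function.update_self, Function.update_idem]
    ring
  rw [Finset.sum_congr rfl fun a _ => h a, ← Finset.sum_mul]
  ring

theorem eo_comm (D : X → F) {i j : I} (hij : i ≠ j) (f : (I → X) × Y → F) :
    eo D i (eo D j f) = eo D j (eo D i f) := by
  funext z
  simp only [eo_apply, Function.update_of_ne hij, Function.update_of_ne hij.symm,
    Finset.mul_sum]
  rw [Finset.sum_comm]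
  refine Finset.sum_congr rfl fun a _ => Finset.sum_congr rfl fun b _ => ?_
  rw [Function.update_comm hij]
  ring

/-- The functions killed by all the rank one operators. -/
def KK (D : X → F) (I Y : Type) [Fintype I] [DecidableEq I] [Fintype Y] :
    Submodule F ((I → X) × Y → F) :=
  ⨅ i : I, LinearMap.ker (eo (Y := Y) D i)

theorem mem_KK (D : X → F) (f : (I → X) × Y → F) : f ∈ KK D I Y ↔ ∀ i, eo D i f = 0 := by
  simp [KK, Submodule.mem_iInf]

theorem KK_finrank (D : X → F) {a0 : X} (ha : D a0 ≠ 0) :
    Module.finrank F (KK D I Y) ≤ (Fintype.card X - 1) ^ Fintype.card I * Fintype.card Y := by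
  let Z := (I → {x : X // x ≠ a0}) × Y
  let res : ((I → X) × Y → F) →ₗ[F] (Z → F) :=
    LinearMap.funLeft F F (fun z : Z => ((fun i => (z.1 i).1 : I → X), z.2))
  have hinj : Function.Injective (res.domRestrict (KK D I Y)) := by
    rw [← LinearMap.ker_eq_bot, LinearMap.ker_eq_bot']
    rintro ⟨f, hf⟩ h
    rw [mem_KK] at hf
    have h0 : ∀ n : ℕ, ∀ z : (I → X) × Y, (univ.filter (fun i => z.1 i = a0)).card = n →
        f z = 0 := by
      intro n
      induction n using Nat.strong_induction_on with
      | _ n ih =>
        intro z hz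
        rcases Nat.eq_zero_or_pos n with hn | hn
        · rw [hn, Finset.card_eq_zero, Finset.filter_eq_empty_iff] at hz
          have h1 := congrFun h ((fun i => ⟨z.1 i, hz (Finset.mem_univ i)⟩, z.2) : Z)
          exact h1
        · rw [← hz] at hn
          obtain ⟨i, hi⟩ := Finset.card_pos.1 hn
          rw [Finset.mem_filter] at hi
          have h1 := congrFun (hf i) z
          rw [eo_apply, hi.2] at h1
          simp only [Pi.zero_apply, mul_eq_zero, ha, false_or] at h1
          rw [← Finset.add_sum_erase univ _ (Finset.mem_univ a0)] at h1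
          have h2 : ∑ x ∈ univ.erase a0, D x * f (Function.update z.1 i x, z.2) = 0 := by
            refine Finset.sum_eq_zero fun x hx => ?_
            rw [ih _ ?_ (Function.update z.1 i x, z.2) rfl, mul_zero]
            rw [← hz]
            refine Finset.card_lt_card ?_
            rw [Finset.ssubset_iff_of_subset]
            · refine ⟨i, ?_, ?_⟩
              · simp [hi.2]
              · simp [Finset.ne_of_mem_erase hx]
            · intro j hj
              rw [Finset.mem_filter] at hj ⊢
              refine ⟨hj.1, ?_⟩
              by_cases hji : j = i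
              · rw [hji]
                exact hi.2
              · have h5 : Function.update z.1 i x j = a0 := hj.2
                rwa [Function.update_of_ne hji] at h5
          rw [h2, add_zero] at h1
          have h3 : Function.update z.1 i a0 = z.1 := by
            rw [Function.update_eq_self_iff]
            exact hi.2.symm
          rw [h3] at h1
          exact (mul_eq_zero.1 h1).resolve_left ha
    ext z
    exact h0 _ z rfl
  have h1 := LinearMap.finrank_le_finrank_of_injective hinj
  refine h1.trans ?_
  rw [Module.finrank_fintype_fun_eq_card, Fintype.card_prod, Fintype.card_fun,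
    Fintype.card_subtype_compl, Fintype.card_subtype_eq]

theorem finrank_le_of_eo (D : X → F) (hD : ∑ a, D a * D a ≠ 0)
    {T P : Submodule F ((I → X) × Y → F)} (hT : ∀ i, ∀ f ∈ T, eo D i f ∈ T)
    (hP : ∀ i, ∀ f ∈ T, eo D i f ∈ P) :
    Module.finrank F T ≤ Module.finrank F (P ⊓ T : Submodule F ((I → X) × Y → F)) +
      (Fintype.card X - 1) ^ Fintype.card I * Fintype.card Y := by
  obtain ⟨a0, ha0⟩ : ∃ a0, D a0 ≠ 0 := by
    by_contra h
    push Not at h
    exact hD (Finset.sum_eq_zero fun a _ => by rw [h a, mul_zero])
  have h1 : ∀ (s : Finset I) (f : (I → X) × Y → F), f ∈ T → ∃ g ∈ T, f - g ∈ P ⊓ T ∧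
      ∀ i ∈ s, eo D i g = 0 := by
    intro s f hf
    induction s using Finset.induction_on with
    | empty => exact ⟨f, hf, by simp, by simp⟩
    | insert i s his ih =>
      obtain ⟨g, hgT, hg, hs⟩ := ih
      refine ⟨g - (∑ a, D a * D a)⁻¹ • eo D i g, ?_, ?_, ?_⟩
      · exact Submodule.sub_mem _ hgT (Submodule.smul_mem _ _ (hT i g hgT))
      · have h2 : f - (g - (∑ a, D a * D a)⁻¹ • eo D i g) =
            (f - g) + (∑ a, D a * D a)⁻¹ • eo D i g := by abel
        rw [h2]
        exact Submodule.add_mem _ hg (Submodule.smul_mem _ _ ⟨hP i g hgT, hT i g hgT⟩)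
      · intro j hj
        rw [map_sub, map_smul]
        rcases Finset.mem_insert.1 hj with rfl | hj
        · rw [eo_sq, smul_smul, inv_mul_cancel₀ hD, one_smul, sub_self]
        · have hne : j ≠ i := fun h => his (h ▸ hj)
          rw [eo_comm D hne, hs j hj, map_zero, smul_zero, sub_zero]
  have h2 : T ≤ (P ⊓ T) ⊔ KK D I Y := by
    intro f hf
    obtain ⟨g, hgT, hg, hs⟩ := h1 univ f hf
    rw [Submodule.mem_sup]
    refine ⟨f - g, hg, g, ?_, by abel⟩
    rw [mem_KK]
    exact fun i => hs i (Finset.mem_univ i)
  have h3 := Submodule.finrank_mono h2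
  have h4 := Submodule.finrank_add_le_finrank_add_finrank (P ⊓ T) (KK D I Y)
  have h5 := KK_finrank (I := I) (Y := Y) D ha0
  omega

end

end Pool.Agent.TH42.MC
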