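import Mathlib

/-!
# Positivity of dimension matrices of real matrix categories closed under transposition
-/

namespace Pool.Agent.TH42.MC

open Finset Matrix

noncomputable section

section frame

variable {m n p : Type} [Fintype m] [Fintype n] [Fintype p]

theorem exists_frame (H : Submodule ℝ (Matrix m n ℝ)) :
    ∃ c : Fin (Module.finrank ℝ H) → Matrix m n ℝ, (∀ i, c i ∈ H) ∧
      (∀ i j, trace (c i * (c j)ᵀ) = if i = j then 1 else 0) ∧
      ∀ x ∈ H, x = ∑ i, trace (x * (c i)ᵀ) • c i := by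
  let φ : Matrix m n ℝ ≃ₗ[ℝ] EuclideanSpace ℝ (m × n) :=
    (LinearEquiv.curry ℝ ℝ m n).symm.trans (WithLp.linearEquiv 2 ℝ (m × n → ℝ)).symm
  have hφ : ∀ x y, inner ℝ (φ x) (φ y) = trace (x * yᵀ) := by
    intro x y
    rw [PiLp.inner_apply, Matrix.trace]
    simp only [Matrix.diag_apply, Matrix.mul_apply, Matrix.transpose_apply]
    rw [Fintype.sum_prod_type]
    refine Finset.sum_congr rfl fun i _ => Finset.sum_congr rfl fun j _ => ?_
    change y i j * x i j = _
    ring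
  let H' := H.map φ.toLinearMap
  have hd : Module.finrank ℝ H' = Module.finrank ℝ H := LinearEquiv.finrank_map_eq φ H
  let b := (stdOrthonormalBasis ℝ H').reindex (finCongr hd)
  have hb : ∀ i, φ (φ.symm (b i : EuclideanSpace ℝ (m × n))) = b i := fun i =>
    φ.apply_symm_apply _
  refine ⟨fun i => φ.symm (b i : EuclideanSpace ℝ (m × n)), fun i => ?_, fun i j => ?_,
    fun x hx => ?_⟩
  · obtain ⟨y, hy, hyb⟩ := (b i).2
    have : φ.symm (b i : EuclideanSpace ℝ (m × n)) = y := by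
      rw [← hyb]
      exact φ.symm_apply_apply y
    beta_reduce
    rw [this]
    exact hy
  · rw [← hφ, hb, hb]
    have h1 := b.inner_eq_ite i j
    rw [← h1]
    rfl
  · have hx' : φ x ∈ H' := ⟨x, hx, rfl⟩
    have h1 := b.sum_repr' ⟨φ x, hx'⟩
    apply φ.injective
    rw [map_sum]
    have h2 := congrArg (fun z : H' => (z : EuclideanSpace ℝ (m × n))) h1
    simp only [Submodule.coe_sum, Submodule.coe_smul] at h2
    rw [← h2]
    refine Finset.sum_congr rfl fun i _ => ?_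
    rw [map_smul, hb, ← hφ, hb, real_inner_comm]
    rfl

/-- A chosen orthonormal frame. -/
def fr0 (H : Submodule ℝ (Matrix m n ℝ)) : Fin (Module.finrank ℝ H) → Matrix m n ℝ :=
  (exists_frame H).choose

theorem fr0_mem (H : Submodule ℝ (Matrix m n ℝ)) (i) : fr0 H i ∈ H :=
  (exists_frame H).choose_spec.1 i

theorem fr0_orth (H : Submodule ℝ (Matrix m n ℝ)) (i j) :
    trace (fr0 H i * (fr0 H j)ᵀ) = if i = j then 1 else 0 :=
  (exists_frame H).choose_spec.2.1 i j

theorem fr0_sum (H : Submodule ℝ (Matrix m n ℝ)) {x : Matrix m n ℝ} (hx : x ∈ H) :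
    x = ∑ i, trace (x * (fr0 H i)ᵀ) • fr0 H i :=
  (exists_frame H).choose_spec.2.2 x hx

/-- The Casimir matrix. -/
def Cas (H : Submodule ℝ (Matrix m n ℝ)) : Matrix m m ℝ := ∑ i, fr0 H i * (fr0 H i)ᵀ

theorem Cas_symm (H : Submodule ℝ (Matrix m n ℝ)) : (Cas H)ᵀ = Cas H := by
  rw [Cas, Matrix.transpose_sum]
  refine Finset.sum_congr rfl fun i _ => ?_
  rw [Matrix.transpose_mul, Matrix.transpose_transpose]

theorem Cas_trace (H : Submodule ℝ (Matrix m n ℝ)) :
    trace (Cas H) = (Module.finrank ℝ H : ℝ) := by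
  rw [Cas, Matrix.trace_sum, Finset.sum_congr rfl fun i _ => fr0_orth H i i]
  simp

theorem Cas_comm {H1 : Submodule ℝ (Matrix m n ℝ)} {H2 : Submodule ℝ (Matrix p n ℝ)}
    (x : Matrix p m ℝ) (h1 : ∀ y ∈ H1, x * y ∈ H2) (h2 : ∀ z ∈ H2, xᵀ * z ∈ H1) :
    x * Cas H1 = Cas H2 * x := by
  rw [Cas, Cas, Matrix.mul_sum, Matrix.sum_mul]
  have h3 : ∀ i, x * (fr0 H1 i * (fr0 H1 i)ᵀ) =
      ∑ j, trace (x * fr0 H1 i * (fr0 H2 j)ᵀ) • (fr0 H2 j * (fr0 H1 i)ᵀ) := by
    intro i
    rw [← Matrix.mul_assoc]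
    conv_lhs => rw [fr0_sum H2 (h1 _ (fr0_mem H1 i))]
    rw [Matrix.sum_mul]
    refine Finset.sum_congr rfl fun j _ => ?_
    rw [Matrix.smul_mul]
  have h4 : ∀ j, fr0 H2 j * (fr0 H2 j)ᵀ * x =
      ∑ i, trace (x * fr0 H1 i * (fr0 H2 j)ᵀ) • (fr0 H2 j * (fr0 H1 i)ᵀ) := by
    intro j
    have h5 : (fr0 H2 j)ᵀ * x = (xᵀ * fr0 H2 j)ᵀ := by
      rw [Matrix.transpose_mul, Matrix.transpose_transpose]
    rw [Matrix.mul_assoc, h5]
    conv_lhs => rw [fr0_sum H1 (h2 _ (fr0_mem H2 j))]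
    rw [Matrix.transpose_sum, Matrix.mul_sum]
    refine Finset.sum_congr rfl fun i _ => ?_
    rw [Matrix.transpose_smul, Matrix.mul_smul]
    congr 1
    rw [← Matrix.trace_transpose, Matrix.transpose_mul, Matrix.transpose_mul,
      Matrix.transpose_transpose, Matrix.transpose_transpose, ← Matrix.mul_assoc,
      Matrix.trace_mul_comm, Matrix.mul_assoc]
  rw [Finset.sum_congr rfl fun i _ => h3 i, Finset.sum_congr rfl fun j _ => h4 j,
    Finset.sum_comm]

theorem trace_mul_transpose_self_nonneg (x : Matrix m n ℝ) : 0 ≤ trace (x * xᵀ) := by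
  rw [Matrix.trace]
  refine Finset.sum_nonneg fun i _ => ?_
  rw [Matrix.diag_apply, Matrix.mul_apply]
  exact Finset.sum_nonneg fun j _ => mul_self_nonneg _

theorem trace_mul_transpose_self_eq_zero {x : Matrix m n ℝ} (h : trace (x * xᵀ) = 0) : x = 0 := by
  have h1 : ∀ i, 0 ≤ (x * xᵀ).diag i := by
    intro i
    rw [Matrix.diag_apply, Matrix.mul_apply]
    exact Finset.sum_nonneg fun j _ => mul_self_nonneg _
  rw [Matrix.trace, Finset.sum_eq_zero_iff_of_nonneg fun i _ => h1 i] at h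
  ext i j
  have h2 := h i (Finset.mem_univ i)
  rw [Matrix.diag_apply, Matrix.mul_apply] at h2
  simp only [Matrix.transpose_apply] at h2
  rw [Finset.sum_eq_zero_iff_of_nonneg fun j _ => mul_self_nonneg (x i j)] at h2
  exact mul_self_eq_zero.1 (h2 j (Finset.mem_univ j))

theorem Cas_quad (H : Submodule ℝ (Matrix m n ℝ)) (y : Matrix m p ℝ) :
    trace (yᵀ * Cas H * y) = ∑ i, trace ((yᵀ * fr0 H i) * (yᵀ * fr0 H i)ᵀ) := by
  rw [Cas, Matrix.mul_sum, Matrix.sum_mul, Matrix.trace_sum]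
  refine Finset.sum_congr rfl fun i _ => ?_
  rw [Matrix.transpose_mul, Matrix.transpose_transpose]
  congr 1
  simp only [Matrix.mul_assoc]

theorem Cas_quad_nonneg (H : Submodule ℝ (Matrix m n ℝ)) (y : Matrix m p ℝ) :
    0 ≤ trace (yᵀ * Cas H * y) := by
  rw [Cas_quad]
  exact Finset.sum_nonneg fun i _ => trace_mul_transpose_self_nonneg _

theorem Cas_quad_eq_zero {H : Submodule ℝ (Matrix m n ℝ)} {y : Matrix m p ℝ}
    (h : trace (yᵀ * Cas H * y) = 0) {z : Matrix m n ℝ} (hz : z ∈ H) : yᵀ * z = 0 := by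
  rw [Cas_quad, Finset.sum_eq_zero_iff_of_nonneg
    fun i _ => trace_mul_transpose_self_nonneg _] at h
  rw [fr0_sum H hz, Matrix.mul_sum]
  refine Finset.sum_eq_zero fun i _ => ?_
  rw [Matrix.mul_smul, trace_mul_transpose_self_eq_zero (h i (Finset.mem_univ i)), smul_zero]

theorem Cas_transpose {H1 : Submodule ℝ (Matrix m n ℝ)} {H2 : Submodule ℝ (Matrix n m ℝ)}
    (h1 : ∀ y ∈ H1, yᵀ ∈ H2) (h2 : ∀ z ∈ H2, zᵀ ∈ H1) :
    ∑ i, (fr0 H1 i)ᵀ * fr0 H1 i = Cas H2 := by
  rw [Cas]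
  have h3 : ∀ i, (fr0 H1 i)ᵀ * fr0 H1 i =
      ∑ j, trace ((fr0 H1 i)ᵀ * (fr0 H2 j)ᵀ) • (fr0 H2 j * fr0 H1 i) := by
    intro i
    conv_lhs => rw [fr0_sum H2 (h1 _ (fr0_mem H1 i))]
    rw [Matrix.sum_mul]
    refine Finset.sum_congr rfl fun j _ => ?_
    rw [Matrix.smul_mul]
  have h4 : ∀ j, fr0 H2 j * (fr0 H2 j)ᵀ =
      ∑ i, trace ((fr0 H1 i)ᵀ * (fr0 H2 j)ᵀ) • (fr0 H2 j * fr0 H1 i) := by
    intro j
    conv_lhs => rw [fr0_sum H1 (h2 _ (fr0_mem H2 j))]
    rw [Matrix.mul_sum]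
    refine Finset.sum_congr rfl fun i _ => ?_
    rw [Matrix.mul_smul]
    congr 1
    rw [Matrix.trace_mul_comm]
  rw [Finset.sum_congr rfl fun i _ => h3 i, Finset.sum_congr rfl fun j _ => h4 j,
    Finset.sum_comm]

end frame

set_option linter.unusedSectionVars false

section cat

/-- A real matrix category closed under transposition, with generalized identities. -/
structure Fam {β : Type} (X : β → Type) [∀ b, Fintype (X b)] where
  H : ∀ b b', Submodule ℝ (Matrix (X b) (X b') ℝ)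
  u : ∀ b, Matrix (X b) (X b) ℝ
  hu : ∀ b, u b ∈ H b b
  hut : ∀ b, (u b)ᵀ = u b
  hul : ∀ b b', ∀ x ∈ H b b', u b * x = x
  mul : ∀ b b' b'', ∀ x ∈ H b b', ∀ y ∈ H b' b'', x * y ∈ H b b''
  tr : ∀ b b', ∀ x ∈ H b b', xᵀ ∈ H b' b

variable {β : Type} [Fintype β] {X : β → Type} [∀ b, Fintype (X b)] (C : Fam X)

/-- The weighted sum of the Casimir matrices. -/
def Fam.Z (t : β → ℝ) (b : β) : Matrix (X b) (X b) ℝ := ∑ b', t b' • Cas (C.H b b')

theorem Fam.Cas_mem (b b' : β) : Cas (C.H b b') ∈ C.H b b :=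
  Submodule.sum_mem _ fun _ _ => C.mul _ _ _ _ (fr0_mem _ _) _ (C.tr _ _ _ (fr0_mem _ _))

theorem Fam.Z_mem (t : β → ℝ) (b : β) : C.Z t b ∈ C.H b b :=
  Submodule.sum_mem _ fun _ _ => Submodule.smul_mem _ _ (C.Cas_mem _ _)

theorem Fam.Z_symm (t : β → ℝ) (b : β) : (C.Z t b)ᵀ = C.Z t b := by
  rw [Fam.Z, Matrix.transpose_sum]
  refine Finset.sum_congr rfl fun b' _ => ?_
  rw [Matrix.transpose_smul, Cas_symm]

theorem Fam.Z_comm (t : β → ℝ) {b b' : β} {x : Matrix (X b) (X b') ℝ} (hx : x ∈ C.H b b') :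
    x * C.Z t b' = C.Z t b * x := by
  rw [Fam.Z, Fam.Z, Matrix.mul_sum, Matrix.sum_mul]
  refine Finset.sum_congr rfl fun b'' _ => ?_
  rw [Matrix.mul_smul, Matrix.smul_mul]
  congr 1
  exact Cas_comm x (fun y hy => C.mul _ _ _ _ hx _ hy)
    (fun z hz => C.mul _ _ _ _ (C.tr _ _ _ hx) _ hz)

theorem Fam.om_quad {b b' : β} (y : Matrix (X b) (X b') ℝ) :
    trace (yᵀ * C.Z (fun _ => 1) b * y) = ∑ b'', trace (yᵀ * Cas (C.H b b'') * y) := by
  rw [Fam.Z, Matrix.mul_sum, Matrix.sum_mul, Matrix.trace_sum]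
  refine Finset.sum_congr rfl fun b'' _ => ?_
  rw [one_smul]

theorem Fam.om_inj {b b' : β} {y : Matrix (X b) (X b') ℝ} (hy : y ∈ C.H b b')
    (h : C.Z (fun _ => 1) b * y = 0) : y = 0 := by
  have h1 := C.om_quad y
  rw [Matrix.mul_assoc, h, Matrix.mul_zero, Matrix.trace_zero] at h1
  have h2 := (Finset.sum_eq_zero_iff_of_nonneg
    fun b'' _ => Cas_quad_nonneg (C.H b b'') y).1 h1.symm b (Finset.mem_univ b)
  have h3 := Cas_quad_eq_zero h2 (C.hu b)
  have h4 : (C.u b * y)ᵀ = 0 := by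
    rw [Matrix.transpose_mul, C.hut, h3]
  rw [C.hul _ _ _ hy] at h4
  rw [← Matrix.transpose_transpose y, h4, Matrix.transpose_zero]

theorem Fam.exists_solution (t : β → ℝ) (b : β) :
    ∃ y ∈ C.H b b, C.Z (fun _ => 1) b * y = C.Z t b := by
  let L : C.H b b →ₗ[ℝ] C.H b b :=
    { toFun := fun y => ⟨C.Z (fun _ => 1) b * y.1, C.mul _ _ _ _ (C.Z_mem _ b) _ y.2⟩
      map_add' := fun x y => by
        ext1
        exact Matrix.mul_add _ _ _
      map_smul' := fun c y => by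
        ext1
        exact Matrix.mul_smul _ _ _ }
  have hL : Function.Injective L := by
    rw [← LinearMap.ker_eq_bot, LinearMap.ker_eq_bot']
    intro y hy
    ext1
    exact C.om_inj y.2 (congrArg Subtype.val hy)
  obtain ⟨y, hy⟩ := (LinearMap.injective_iff_surjective.1 hL) ⟨C.Z t b, C.Z_mem t b⟩
  exact ⟨y.1, y.2, congrArg Subtype.val hy⟩

/-- The matrix of dimensions is positive semidefinite. -/
theorem Fam.psd (t : β → ℝ) :
    0 ≤ ∑ b, ∑ b', t b * t b' * (Module.finrank ℝ (C.H b b') : ℝ) := by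
  choose y hy hyZ using C.exists_solution t
  have hcent : ∀ b b', ∀ x ∈ C.H b b', x * y b' = y b * x := by
    intro b b' x hx
    have h1 : x * y b' - y b * x ∈ C.H b b' :=
      Submodule.sub_mem _ (C.mul _ _ _ _ hx _ (hy b')) (C.mul _ _ _ _ (hy b) _ hx)
    have h2 := C.om_inj h1 (by
      rw [Matrix.mul_sub, ← Matrix.mul_assoc, ← C.Z_comm _ hx, Matrix.mul_assoc, hyZ,
        ← Matrix.mul_assoc, hyZ, C.Z_comm _ hx, sub_self])
    exact sub_eq_zero.1 h2
  have hsymm : ∀ b, (y b)ᵀ = y b := by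
    intro b
    have h1 : (y b)ᵀ - y b ∈ C.H b b := Submodule.sub_mem _ (C.tr _ _ _ (hy b)) (hy b)
    have h2 := C.om_inj h1 (by
      rw [Matrix.mul_sub, ← C.Z_comm _ (C.tr _ _ _ (hy b)), hyZ]
      have h3 := congrArg Matrix.transpose (hyZ b)
      rw [Matrix.transpose_mul, C.Z_symm, C.Z_symm] at h3
      rw [h3, sub_self])
    exact sub_eq_zero.1 h2
  have hflip : ∀ b b', trace (Cas (C.H b b') * y b) = trace (Cas (C.H b' b) * y b') := by
    intro b b'
    rw [← Cas_transpose (C.tr b b') (C.tr b' b), Cas, Matrix.sum_mul, Matrix.sum_mul,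
      Matrix.trace_sum, Matrix.trace_sum]
    refine Finset.sum_congr rfl fun i _ => ?_
    rw [Matrix.trace_mul_comm, ← Matrix.mul_assoc, ← hcent b b' _ (fr0_mem _ _),
      Matrix.trace_mul_comm, ← Matrix.mul_assoc]
  have h1 : ∑ b, ∑ b', t b * t b' * (Module.finrank ℝ (C.H b b') : ℝ) =
      ∑ b, t b * trace (C.Z t b) := by
    refine Finset.sum_congr rfl fun b _ => ?_
    rw [Fam.Z, Matrix.trace_sum, Finset.mul_sum]
    refine Finset.sum_congr rfl fun b' _ => ?_
    rw [Matrix.trace_smul, Cas_trace, smul_eq_mul, mul_assoc]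
  have h2 : ∑ b, t b * trace (C.Z t b) = ∑ b, ∑ b', t b * trace (Cas (C.H b b') * y b) := by
    refine Finset.sum_congr rfl fun b _ => ?_
    rw [← hyZ, Fam.Z, Matrix.sum_mul, Matrix.trace_sum, Finset.mul_sum]
    refine Finset.sum_congr rfl fun b' _ => ?_
    rw [one_smul]
  have h3 : ∑ b, ∑ b', t b * trace (Cas (C.H b b') * y b) =
      ∑ b', trace (C.Z t b' * y b') := by
    rw [Finset.sum_comm]
    refine Finset.sum_congr rfl fun b' _ => ?_
    rw [Fam.Z, Matrix.sum_mul, Matrix.trace_sum]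
    refine Finset.sum_congr rfl fun b _ => ?_
    rw [hflip, Matrix.smul_mul, Matrix.trace_smul, smul_eq_mul]
  rw [h1, h2, h3]
  refine Finset.sum_nonneg fun b _ => ?_
  rw [← hyZ]
  have h4 : C.Z (fun _ => 1) b * y b * y b = (y b)ᵀ * C.Z (fun _ => 1) b * y b := by
    rw [hsymm, C.Z_comm _ (hy b)]
  rw [h4, C.om_quad]
  exact Finset.sum_nonneg fun b' _ => Cas_quad_nonneg _ _

end cat

/-- The Cauchy-Schwarz inequality for dimensions. -/
theorem Fam.cauchy {X : Bool → Type} [∀ b, Fintype (X b)] (C : Fam X) :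
    (Module.finrank ℝ (C.H false true)) ^ 2 ≤
      Module.finrank ℝ (C.H false false) * Module.finrank ℝ (C.H true true) := by
  have hft : Module.finrank ℝ (C.H true false) = Module.finrank ℝ (C.H false true) := by
    refine LinearEquiv.finrank_eq
      { toFun := fun x => ⟨x.1ᵀ, C.tr _ _ _ x.2⟩
        invFun := fun x => ⟨x.1ᵀ, C.tr _ _ _ x.2⟩
        map_add' := fun x y => by ext1; exact Matrix.transpose_add _ _
        map_smul' := fun c x => by ext1; exact Matrix.transpose_smul _ _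
        left_inv := fun x => by ext1; exact Matrix.transpose_transpose _
        right_inv := fun x => by ext1; exact Matrix.transpose_transpose _ }
  set a := Module.finrank ℝ (C.H false false) with ha
  set b := Module.finrank ℝ (C.H false true) with hb
  set c := Module.finrank ℝ (C.H true true) with hc
  rcases Nat.eq_zero_or_pos a with h0 | h0
  · have h1 : C.u false = 0 := by
      have h2 : C.H false false = ⊥ := Submodule.finrank_eq_zero.1 (ha.symm.trans h0)
      have h3 := C.hu false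
      rw [h2] at h3
      simpa using h3
    have h4 : C.H false true = ⊥ := by
      rw [Submodule.eq_bot_iff]
      intro x hx
      rw [← C.hul _ _ x hx, h1, Matrix.zero_mul]
    have h5 : b = 0 := by
      rw [hb, h4]
      simp
    rw [h5]
    simp
  · have h1 := C.psd (fun x => if x = false then (b : ℝ) else -(a : ℝ))
    simp only [Fintype.sum_bool] at h1
    simp only [Bool.true_eq_false, if_false, if_true, hft] at h1
    rw [← ha, ← hb, ← hc] at h1
    have h2 : (0 : ℝ) ≤ (a : ℝ) * ((a : ℝ) * c - (b : ℝ) ^ 2) := by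
      refine h1.trans (le_of_eq ?_)
      ring
    have h3 : (0 : ℝ) < a := by exact_mod_cast h0
    have h4 : (0 : ℝ) ≤ (a : ℝ) * c - (b : ℝ) ^ 2 := nonneg_of_mul_nonneg_right h2 h3
    have h5 : ((b ^ 2 : ℕ) : ℝ) ≤ ((a * c : ℕ) : ℝ) := by
      push_cast
      linarith
    exact_mod_cast h5

end

end Pool.Agent.TH42.MC
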