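import Pool.Agent.TH42.MC.Base
import Pool.Agent.TH42.MC.Psd

/-!
# Log-convexity of the dimensions of the spaces of trace functions
-/

namespace Pool.Agent.TH42.MC

open Finset Equiv
open scoped Classical

noncomputable section

theorem finrank_fun_congr {F : Type*} [Field F] {X Y : Type} (e : Y ≃ X)
    (p : Submodule F (X → F)) (q : Submodule F (Y → F)) (h : ∀ f, f ∈ p ↔ f ∘ e ∈ q) :
    Module.finrank F p = Module.finrank F q := by
  have h1 : p.map (LinearEquiv.funCongrLeft F F e).toLinearMap = q := by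
    apply le_antisymm
    · rintro _ ⟨f, hf, rfl⟩
      exact (h f).1 hf
    · intro f hf
      refine ⟨f ∘ e.symm, (h _).2 ?_, ?_⟩
      · rw [Function.comp_assoc, Equiv.symm_comp_self, Function.comp_id]
        exact hf
      · funext x
        simp [LinearMap.funLeft_apply]
  rw [← h1, LinearEquiv.finrank_map_eq]

theorem finrank_MM {F : Type*} [Field F] {k n : ℕ} {U L : Type} [Fintype U] [Fintype L]
    (hU : Fintype.card U = n) (hL : Fintype.card L = n) :
    Module.finrank F (MM k F U L) = aN F k n := by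
  let eU : U ≃ Fin n := Fintype.equivOfCardEq (by rw [hU, Fintype.card_fin])
  let eL : L ≃ Fin n := Fintype.equivOfCardEq (by rw [hL, Fintype.card_fin])
  have h1 : Module.finrank F (MM k F U L) = Module.finrank F (MM k F (Fin n) (Fin n)) := by
    refine finrank_fun_congr
      { toFun := fun x => (x.1 ∘ eU, x.2 ∘ eL)
        invFun := fun x => (x.1 ∘ eU.symm, x.2 ∘ eL.symm)
        left_inv := fun x => by ext i <;> simp
        right_inv := fun x => by ext i <;> simp } _ _ fun f => ?_
    constructor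
    · intro hf
      exact MM_relabel eU eL hf
    · intro hf
      have h2 := MM_relabel eU.symm eL.symm hf
      convert h2 using 1
      funext x
      simp only [Function.comp_apply, Equiv.coe_fn_mk]
      congr 1
      ext i <;> simp
  rw [h1, aN]
  symm
  refine finrank_fun_congr
      { toFun := fun x => fun s => (x.1 s, x.2 s)
        invFun := fun l => (fun s => (l s).1, fun s => (l s).2)
        left_inv := fun x => rfl
        right_inv := fun x => rfl } _ _ fun f => ?_
  exact II_iff f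

set_option linter.unusedSectionVars false

section objects

variable (k : ℕ) (A B : Bool → Type)

/-- Matrix indices for mixed tensors. -/
abbrev Xo (b : Bool) : Type := (A b → Fin k) × (B b → Fin k)

/-- The tensor of a matrix between mixed tensor spaces. -/
def toMM (b b' : Bool) : Matrix (Xo k A B b) (Xo k A B b') ℝ ≃ₗ[ℝ]
    ((A b ⊕ B b' → Fin k) × (A b' ⊕ B b → Fin k) → ℝ) where
  toFun M x := M (x.1 ∘ Sum.inl, x.2 ∘ Sum.inr) (x.2 ∘ Sum.inl, x.1 ∘ Sum.inr)
  invFun f p q := f (Sum.elim p.1 q.2, Sum.elim q.1 p.2)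
  map_add' _ _ := rfl
  map_smul' _ _ := rfl
  left_inv _ := rfl
  right_inv f := by
    funext x
    have h1 : Sum.elim (x.1 ∘ Sum.inl) (x.1 ∘ Sum.inr) = x.1 := Sum.elim_comp_inl_inr x.1
    have h2 : Sum.elim (x.2 ∘ Sum.inl) (x.2 ∘ Sum.inr) = x.2 := Sum.elim_comp_inl_inr x.2
    change f (Sum.elim (x.1 ∘ Sum.inl) (x.1 ∘ Sum.inr),
      Sum.elim (x.2 ∘ Sum.inl) (x.2 ∘ Sum.inr)) = f x
    rw [h1, h2]

/-- Morphisms between mixed tensor spaces. -/
def Ho (b b' : Bool) : Submodule ℝ (Matrix (Xo k A B b) (Xo k A B b') ℝ) :=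
  (MM k ℝ (A b ⊕ B b') (A b' ⊕ B b)).comap (toMM k A B b b').toLinearMap

variable {k A B}

theorem mem_Ho {b b' : Bool} {M : Matrix (Xo k A B b) (Xo k A B b') ℝ} : M ∈ Ho k A B b b' ↔
    toMM k A B b b' M ∈ MM k ℝ (A b ⊕ B b') (A b' ⊕ B b) := Iff.rfl

variable [∀ b, Fintype (A b)] [∀ b, Fintype (B b)]

theorem Ho_mul {b b' b'' : Bool} {x : Matrix (Xo k A B b) (Xo k A B b') ℝ}
    {y : Matrix (Xo k A B b') (Xo k A B b'') ℝ} (hx : x ∈ Ho k A B b b')
    (hy : y ∈ Ho k A B b' b'') : x * y ∈ Ho k A B b b'' := by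
  rw [mem_Ho] at hx hy ⊢
  have h1 := MM_tensor hx hy
  let eU : (A b ⊕ B b') ⊕ (A b' ⊕ B b'') ≃ (A b ⊕ B b'') ⊕ (A b' ⊕ B b') :=
    { toFun := Sum.elim (Sum.elim (fun a => Sum.inl (Sum.inl a)) (fun a => Sum.inr (Sum.inr a)))
        (Sum.elim (fun a => Sum.inr (Sum.inl a)) (fun a => Sum.inl (Sum.inr a)))
      invFun := Sum.elim (Sum.elim (fun a => Sum.inl (Sum.inl a)) (fun a => Sum.inr (Sum.inr a)))
        (Sum.elim (fun a => Sum.inr (Sum.inl a)) (fun a => Sum.inl (Sum.inr a)))
      left_inv := fun x => by rcases x with (x | x) | (x | x) <;> rfl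
      right_inv := fun x => by rcases x with (x | x) | (x | x) <;> rfl }
  let eL : (A b' ⊕ B b) ⊕ (A b'' ⊕ B b') ≃ (A b'' ⊕ B b) ⊕ (A b' ⊕ B b') :=
    { toFun := Sum.elim (Sum.elim (fun a => Sum.inr (Sum.inl a)) (fun a => Sum.inl (Sum.inr a)))
        (Sum.elim (fun a => Sum.inl (Sum.inl a)) (fun a => Sum.inr (Sum.inr a)))
      invFun := Sum.elim (Sum.elim (fun a => Sum.inr (Sum.inl a)) (fun a => Sum.inl (Sum.inr a)))
        (Sum.elim (fun a => Sum.inl (Sum.inl a)) (fun a => Sum.inr (Sum.inr a)))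
      left_inv := fun x => by rcases x with (x | x) | (x | x) <;> rfl
      right_inv := fun x => by rcases x with (x | x) | (x | x) <;> rfl }
  have h2 := MM_contr (A b' ⊕ B b') _ _ _ (MM_relabel eU eL h1)
  convert h2 using 1
  funext z
  change (x * y) _ _ = _
  rw [Matrix.mul_apply]
  refine Fintype.sum_equiv (Equiv.sumArrowEquivProdArrow (A b') (B b') (Fin k)).symm _ _
    fun p => ?_
  rfl

theorem Ho_tr {b b' : Bool} {x : Matrix (Xo k A B b) (Xo k A B b') ℝ} (hx : x ∈ Ho k A B b b') :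
    x.transpose ∈ Ho k A B b' b := by
  rw [mem_Ho] at hx ⊢
  exact MM_transpose hx

theorem Ho_one (b : Bool) : (1 : Matrix (Xo k A B b) (Xo k A B b) ℝ) ∈ Ho k A B b b := by
  rw [mem_Ho]
  have : toMM k A B b b 1 = dl k ℝ (Equiv.refl (A b ⊕ B b)) := by
    funext z
    change (1 : Matrix (Xo k A B b) (Xo k A B b) ℝ) (z.1 ∘ Sum.inl, z.2 ∘ Sum.inr)
      (z.2 ∘ Sum.inl, z.1 ∘ Sum.inr) = _
    rw [Matrix.one_apply, dl]
    refine ite_cong ?_
    rw [Prod.ext_iff]
    constructor
    · rintro ⟨h1, h2⟩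
      funext i
      rcases i with i | i
      · exact (congrFun h1 i).symm
      · exact congrFun h2 i
    · intro h
      constructor
      · funext i
        exact (congrFun h (Sum.inl i)).symm
      · funext i
        exact congrFun h (Sum.inr i)
  rw [this]
  exact dl_mem _

variable (k A B) in
/-- The category of mixed tensor spaces. -/
def FamT : Fam (Xo k A B) where
  H := Ho k A B
  u := fun _ => 1
  hu := Ho_one
  hut := fun _ => Matrix.transpose_one
  hul := fun _ _ x _ => Matrix.one_mul x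
  mul := fun _ _ _ _ hx _ hy => Ho_mul hx hy
  tr := fun _ _ _ hx => Ho_tr hx

theorem finrank_Ho {b b' : Bool} {n : ℕ} (h1 : Fintype.card (A b) + Fintype.card (B b') = n)
    (h2 : Fintype.card (A b') + Fintype.card (B b) = n) :
    Module.finrank ℝ (Ho k A B b b') = aN ℝ k n := by
  rw [← finrank_MM (F := ℝ) (U := A b ⊕ B b') (L := A b' ⊕ B b)
    (by rw [Fintype.card_sum, h1]) (by rw [Fintype.card_sum, h2])]
  have h3 : (MM k ℝ (A b ⊕ B b') (A b' ⊕ B b)).map (toMM k A B b b').symm.toLinearMap =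
      Ho k A B b b' := by
    rw [Ho, Submodule.map_equiv_eq_comap_symm]
    rfl
  rw [← h3, LinearEquiv.finrank_map_eq]

theorem aN_cauchy {n m p : ℕ} (h1 : Fintype.card (A false) + Fintype.card (B true) = m)
    (h2 : Fintype.card (A true) + Fintype.card (B false) = m)
    (h3 : Fintype.card (A false) + Fintype.card (B false) = n)
    (h4 : Fintype.card (A true) + Fintype.card (B true) = p) :
    (aN ℝ k m) ^ 2 ≤ aN ℝ k n * aN ℝ k p := by
  have h := (FamT k A B).cauchy
  have h5 : Module.finrank ℝ ((FamT k A B).H false true) = aN ℝ k m := finrank_Ho h1 h2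
  have h6 : Module.finrank ℝ ((FamT k A B).H false false) = aN ℝ k n := finrank_Ho h3 h3
  have h7 : Module.finrank ℝ ((FamT k A B).H true true) = aN ℝ k p := finrank_Ho h4 h4
  rw [h5, h6, h7] at h
  exact h

end objects

theorem aN_logconv (k n : ℕ) : (aN ℝ k (n + 1)) ^ 2 ≤ aN ℝ k n * aN ℝ k (n + 2) :=
  aN_cauchy (A := fun b => Fin (if b then n + 1 else n)) (B := fun b => Fin (if b then 1 else 0))
    (by simp) (by simp) (by simp) (by simp)

end

end Pool.Agent.TH42.MC
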