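import Pool.Agent.TH42.MC.Start
import Pool.Agent.TH42.MC.Ker

/-!
# Alternating over one block turns trace monomials into single traces
-/

namespace Pool.Agent.TH42.MC

open Finset Equiv
open scoped Classical

noncomputable section

set_option linter.unusedSectionVars false

variable {F : Type*} [Field F] {k : ℕ}

/-- The type of positions in a block. -/
abbrev Bk (k : ℕ) := ((Unit ⊕ Ix k) ⊕ (Unit ⊕ Ix k)) × Ix k

theorem sum_DJ {J : Type} [Fintype J] [DecidableEq J] (φ : (J × Ix k → Ix k) → F) :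
    ∑ a : J × Ix k → Ix k, DJ F a * φ a =
      ∑ π : J → Perm (Ix k), sgJ F π * φ (fun x => π x.1 x.2) := by
  have h1 : ∑ a : J × Ix k → Ix k, DJ F a * φ a =
      ∑ a ∈ univ.filter (fun a : J × Ix k → Ix k => ∀ j, Function.Bijective (fun i => a (j, i))),
        DJ F a * φ a := by
    rw [Finset.sum_filter]
    refine Finset.sum_congr rfl fun a _ => ?_
    by_cases h : ∀ j, Function.Bijective (fun i => a (j, i))
    · rw [if_pos h]
    · rw [if_neg h]
      push Not at h
      obtain ⟨j0, hj0⟩ := h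
      have h0 : DJ F a = 0 := Finset.prod_eq_zero (Finset.mem_univ j0) (dd_of_not hj0)
      rw [h0, zero_mul]
  rw [h1]
  symm
  refine Finset.sum_bij (fun π _ => fun x => π x.1 x.2) ?_ ?_ ?_ ?_
  · intro π _
    rw [Finset.mem_filter]
    exact ⟨Finset.mem_univ _, fun j => (π j).bijective⟩
  · intro π _ ρ _ h
    funext j
    ext1 i
    exact congrFun h (j, i)
  · intro a ha
    rw [Finset.mem_filter] at ha
    refine ⟨fun j => Equiv.ofBijective _ (ha.2 j), Finset.mem_univ _, ?_⟩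
    funext ⟨j, i⟩
    rfl
  · intro π _
    congr 1
    simp only [sgJ, DJ]
    refine Finset.prod_congr rfl fun j _ => ?_
    rw [← dd_perm]

/-- The rank one operator for a single block. -/
def e1 {R : Type} (f : (Bk k ⊕ R → Ix k) → F) : (Bk k ⊕ R → Ix k) → F := fun l =>
  DJ F (l ∘ Sum.inl) * ∑ a : Bk k → Ix k, DJ F a * f (Sum.elim a (l ∘ Sum.inr))

theorem e1_eq [CharZero F] {R : Type} (f : (Bk k ⊕ R → Ix k) → F) : e1 f =
    ∑ π : ((Unit ⊕ Ix k) ⊕ (Unit ⊕ Ix k)) → Perm (Ix k), sgJ F π •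
      fun l : Bk k ⊕ R → Ix k => f (l ∘ (Equiv.sumCongr (Equiv.prodCongrRight π)
        (Equiv.refl R))) := by
  funext l
  rw [Finset.sum_apply, e1, sum_DJ]
  simp only [Pi.smul_apply, smul_eq_mul]
  have h2 := alt_sum (fun y => f (Sum.elim y (l ∘ Sum.inr))) (l ∘ Sum.inl)
  refine h2.symm.trans ?_
  refine Finset.sum_congr rfl fun π _ => ?_
  congr 2
  funext x
  rcases x with x | x <;> rfl

theorem e1_mem_II [CharZero F] {R : Type} {f : (Bk k ⊕ R → Ix k) → F}
    (hf : f ∈ II k F (Bk k ⊕ R)) : e1 f ∈ II k F (Bk k ⊕ R) := by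
  rw [e1_eq]
  exact Submodule.sum_mem _ fun π _ => Submodule.smul_mem _ _ (II_relabel _ hf)

theorem e1_mem_CC [CharZero F] (hk : 1 ≤ k) {R : Type} [Fintype R] (hR : Nonempty R)
    {f : (Bk k ⊕ R → Ix k) → F} (hf : f ∈ II k F (Bk k ⊕ R)) : e1 f ∈ CC k F (Bk k ⊕ R) := by
  have h1 := e1_mem_II hf
  have h2 : (fun l : R → Ix k => ∑ a : Bk k → Ix k, DJ F a * f (Sum.elim a l)) ∈ II k F R :=
    II_of_mulDJ (J' := Unit ⊕ Ix k) h1
  exact GG_of_tr hk (Sum.inl (Sum.inl ())) (tr_mem hk) R hR h2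

variable {I : Type} [Fintype I] [DecidableEq I]

/-- The rank one operator for one of several blocks. -/
def ei {R : Type} (i : I) (f : (I × Bk k ⊕ R → Ix k) → F) : (I × Bk k ⊕ R → Ix k) → F := fun l =>
  DJ F (fun b => l (Sum.inl (i, b))) * ∑ a : Bk k → Ix k, DJ F a *
    f (Sum.elim (fun p => if p.1 = i then a p.2 else l (Sum.inl p)) (fun r => l (Sum.inr r)))

/-- Singling out a block. -/
def epsE (i : I) (B R : Type) : B ⊕ ({p : I // p ≠ i} × B ⊕ R) ≃ I × B ⊕ R where
  toFun := Sum.elim (fun b => Sum.inl (i, b)) (Sum.elim (fun p => Sum.inl (p.1.1, p.2)) Sum.inr)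
  invFun := Sum.elim (fun p => if h : p.1 = i then Sum.inl p.2 else
    Sum.inr (Sum.inl (⟨p.1, h⟩, p.2))) (fun r => Sum.inr (Sum.inr r))
  left_inv := fun x => by
    rcases x with b | (⟨⟨p, hp⟩, b⟩ | r)
    · simp
    · simp [hp]
    · simp
  right_inv := fun x => by
    rcases x with ⟨p, b⟩ | r
    · by_cases h : p = i
      · simp [h]
      · simp [h]
    · simp

theorem ei_eq {R : Type} (i : I) (f : (I × Bk k ⊕ R → Ix k) → F) :
    ei i f = fun l => e1 (fun l' => f (l' ∘ (epsE i (Bk k) R).symm)) (l ∘ epsE i (Bk k) R) := by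
  funext l
  simp only [ei, e1]
  congr 1
  refine Finset.sum_congr rfl fun a _ => ?_
  congr 2
  funext x
  rcases x with ⟨p, b⟩ | r
  · by_cases h : p = i
    · simp [h, epsE]
    · simp [h, epsE]
  · simp [epsE]

theorem ei_mem_II [CharZero F] {R : Type} (i : I) {f : (I × Bk k ⊕ R → Ix k) → F}
    (hf : f ∈ II k F (I × Bk k ⊕ R)) : ei i f ∈ II k F (I × Bk k ⊕ R) := by
  rw [ei_eq]
  exact II_relabel (epsE i (Bk k) R) (e1_mem_II (II_relabel (epsE i (Bk k) R).symm hf))

theorem ei_mem_CC [CharZero F] (hk : 1 ≤ k) {R : Type} [Fintype R] (hR : Nonempty R) (i : I)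
    {f : (I × Bk k ⊕ R → Ix k) → F}
    (hf : f ∈ II k F (I × Bk k ⊕ R)) : ei i f ∈ CC k F (I × Bk k ⊕ R) := by
  rw [ei_eq]
  obtain ⟨r⟩ := hR
  exact CC_relabel (epsE i (Bk k) R) (e1_mem_CC hk ⟨Sum.inr r⟩
    (II_relabel (epsE i (Bk k) R).symm hf))

theorem ei_insN {R : Type} (i : I) (f : (I × Bk k ⊕ R → Ix k) → F) :
    (fun l : I × Bk k ⊕ Option R → Ix k => insN (ei i f) (l ∘ (optSum (I × Bk k) R).symm)) =
      ei i (fun l : I × Bk k ⊕ Option R → Ix k => insN f (l ∘ (optSum (I × Bk k) R).symm)) := by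
  funext l
  by_cases h : (l (Sum.inr none)).2 = (l (Sum.inr none)).1
  · have h1 : insN (ei i f) (l ∘ (optSum (I × Bk k) R).symm) =
        ei i f (fun t => (l ∘ (optSum (I × Bk k) R).symm) (some t)) := if_pos h
    have h2 : ∀ a : Bk k → Ix k, insN f ((Sum.elim (fun p => if p.1 = i then a p.2 else
        l (Sum.inl p)) (fun r => l (Sum.inr r))) ∘ (optSum (I × Bk k) R).symm) =
        f (fun t => ((Sum.elim (fun p => if p.1 = i then a p.2 else
        l (Sum.inl p)) (fun r => l (Sum.inr r))) ∘ (optSum (I × Bk k) R).symm) (some t)) :=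
      fun a => if_pos h
    rw [h1]
    simp only [ei, h2]
    congr 1
    refine Finset.sum_congr rfl fun a _ => ?_
    congr 2
    funext x
    rcases x with p | r
    · rfl
    · rfl
  · have h1 : insN (ei i f) (l ∘ (optSum (I × Bk k) R).symm) = 0 := if_neg h
    have h2 : ∀ a : Bk k → Ix k, insN f ((Sum.elim (fun p => if p.1 = i then a p.2 else
        l (Sum.inl p)) (fun r => l (Sum.inr r))) ∘ (optSum (I × Bk k) R).symm) = 0 :=
      fun a => if_neg h
    rw [h1]
    simp only [ei, h2, mul_zero, Finset.sum_const_zero]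

/-- Words split into blocks. -/
def wdE (I B R X : Type) : (I × B ⊕ R → X) ≃ (I → (B → X)) × (R → X) where
  toFun l := (fun i b => l (Sum.inl (i, b)), fun r => l (Sum.inr r))
  invFun z := Sum.elim (fun p => z.1 p.1 p.2) z.2
  left_inv := fun l => by
    funext x
    rcases x with ⟨p, b⟩ | r <;> rfl
  right_inv := fun z => rfl

/-- Functions on split words. -/
def wdL (F : Type*) [Field F] (k : ℕ) (I R : Type) :
    ((I × Bk k ⊕ R → Ix k) → F) ≃ₗ[F] ((I → (Bk k → Ix k)) × (R → Ix k) → F) :=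
  LinearEquiv.funCongrLeft F F (wdE I (Bk k) R (Ix k)).symm

theorem wdL_ei {R : Type} (i : I) (f : (I × Bk k ⊕ R → Ix k) → F) :
    wdL F k I R (ei i f) = eo (DJ F) i (wdL F k I R f) := by
  funext z
  simp only [eo_apply, wdL, LinearEquiv.funCongrLeft_apply, LinearMap.funLeft_apply, ei]
  congr 1
  refine Finset.sum_congr rfl fun a _ => ?_
  congr 2
  funext x
  rcases x with ⟨p, b⟩ | r
  · by_cases h : p = i
    · subst h
      change (if p = p then a b else z.1 p b) = Function.update z.1 p a p b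
      rw [if_pos rfl, Function.update_self]
    · change (if p = i then a b else z.1 p b) = Function.update z.1 i a p b
      rw [if_neg h, Function.update_of_ne h]
  · rfl

end

end Pool.Agent.TH42.MC
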