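import Pool.Agent.TH42.MC.Main

/-!
# Monomials in matrices and single traces
-/

namespace Pool.Agent.TH42.MC

open Finset Equiv
open scoped Classical

noncomputable section

variable {F : Type*} [Field F] {k : ℕ}

theorem prod_units : ∀ (n : ℕ) (w : Fin n → Ix k) (a b : Fin k),
    (List.ofFn (fun i => Matrix.single (w i).1 (w i).2 (1 : F))).prod a b =
      if (∀ i : Fin (n + 1), (Fin.cons a (fun i => (w i).2) : Fin (n + 1) → Fin k) i =
        (Fin.snoc (fun i => (w i).1) b : Fin (n + 1) → Fin k) i) then 1 else 0 := by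
  intro n
  induction n with
  | zero =>
    intro w a b
    rw [List.ofFn_zero, List.prod_nil, Matrix.one_apply]
    refine ite_cong ?_
    constructor
    · intro h i
      have hi : i = 0 := Fin.ext (by omega)
      subst hi
      rw [Fin.cons_zero, h]
      rfl
    · intro h
      have := h 0
      rw [Fin.cons_zero] at this
      rw [this]
      rfl
  | succ n ih =>
    intro w a b
    rw [List.ofFn_succ, List.prod_cons, Matrix.mul_apply, Finset.sum_eq_single (w 0).2]
    · rw [ih (fun i => w i.succ)]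
      have h1 : (fun i : Fin (n + 1) => (w i).1) = Fin.cons (w 0).1 (fun i => (w i.succ).1) := by
        funext i
        refine Fin.cases ?_ (fun j => ?_) i
        · rfl
        · rfl
      have h2 : (fun i : Fin (n + 1) => (w i).2) = Fin.cons (w 0).2 (fun i => (w i.succ).2) := by
        funext i
        refine Fin.cases ?_ (fun j => ?_) i
        · rfl
        · rfl
      by_cases ha : a = (w 0).1
      · rw [← ha, Matrix.single_apply_same, one_mul]
        refine ite_cong ?_
        rw [Fin.forall_fin_succ (n := n + 1), h1, ← Fin.cons_snoc_eq_snoc_cons, Fin.cons_zero,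
          Fin.cons_zero]
        simp only [Fin.cons_succ]
        rw [← h2]
        constructor
        · intro h
          exact ⟨ha, fun i => h i⟩
        · rintro ⟨_, h⟩
          exact h
      · rw [Matrix.single_apply_of_row_ne (fun h => ha h.symm), zero_mul, if_neg]
        intro h
        have h3 := h 0
        rw [Fin.cons_zero, h1, ← Fin.cons_snoc_eq_snoc_cons, Fin.cons_zero] at h3
        exact ha h3
    · intro c _ hc
      rw [Matrix.single_apply_of_col_ne _ _ (fun h => hc h.symm), zero_mul]
    · intro h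
      exact absurd (Finset.mem_univ _) h

/-- The enumeration of the variables and the output along a word. -/
def thE {n : ℕ} (σ : Perm (Fin n)) : Fin (n + 1) ≃ Option (Fin n) :=
  (finSuccEquiv n).trans (optionCongr σ)

theorem thE_zero {n : ℕ} (σ : Perm (Fin n)) : thE σ 0 = none := by
  simp [thE]

theorem thE_succ {n : ℕ} (σ : Perm (Fin n)) (i : Fin n) : thE σ i.succ = some (σ i) := by
  simp [thE]

/-- Evaluation of a function of matrices in coordinates. -/
def co (F : Type*) [Field F] (k n : ℕ) :
    ((Fin n → Matrix (Fin k) (Fin k) F) → Matrix (Fin k) (Fin k) F) →ₗ[F]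
      ((Option (Fin n) → Ix k) → F) where
  toFun f l := f (fun i => Matrix.single (l (some i)).1 (l (some i)).2 1) (l none).2 (l none).1
  map_add' _ _ := rfl
  map_smul' _ _ := rfl

theorem co_mono {n : ℕ} (σ : Perm (Fin n)) :
    co F k n (fun x => (List.ofFn (fun i => x (σ i))).prod) =
      de k F ((thE σ).symm.trans ((finRotate (n + 1)).trans (thE σ))) := by
  funext l
  have h1 := prod_units (F := F) n (fun i => l (some (σ i))) (l none).2 (l none).1
  refine h1.trans ?_
  rw [de]
  refine ite_cong ?_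
  have h2 : ∀ i, (Fin.cons (l none).2 (fun i => (l (some (σ i))).2) : Fin (n + 1) → Fin k) i =
      (l (thE σ i)).2 := by
    intro i
    refine Fin.cases ?_ (fun j => ?_) i
    · rw [thE_zero]; rfl
    · rw [thE_succ]; rfl
  have h3 : ∀ i, (Fin.snoc (fun i => (l (some (σ i))).1) (l none).1 : Fin (n + 1) → Fin k) i =
      (l (thE σ (finRotate (n + 1) i))).1 := by
    intro i
    rw [Fin.snoc_eq_cons_rotate]
    beta_reduce
    refine Fin.cases ?_ (fun j => ?_) (finRotate (n + 1) i)
    · rw [thE_zero]; rfl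
    · rw [thE_succ]; rfl
  constructor
  · intro h s
    have h4 := h ((thE σ).symm s)
    rw [h2, h3, apply_symm_apply] at h4
    exact h4
  · intro h i
    have h4 := h (thE σ i)
    rw [h2, h3]
    simpa using h4

theorem exists_thE {n : ℕ} (τ : Perm (Option (Fin n))) (hτ : ∀ s t, τ.SameCycle s t) :
    ∃ σ : Perm (Fin n), τ = (thE σ).symm.trans ((finRotate (n + 1)).trans (thE σ)) := by
  have hc : τ.IsCycleOn ((univ : Finset (Option (Fin n))) : Set (Option (Fin n))) := by
    refine ⟨?_, fun x _ y _ => hτ x y⟩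
    rw [Finset.coe_univ]
    exact Set.bijOn_univ.2 τ.bijective
  have hcard : (univ : Finset (Option (Fin n))).card = n + 1 := by simp
  let θ : Fin (n + 1) → Option (Fin n) := fun i => (τ ^ (i : ℕ)) none
  have hsurj : Function.Surjective θ := by
    intro x
    obtain ⟨i, hi, hx⟩ := hc.exists_pow_eq (Finset.mem_univ none) (Finset.mem_univ x)
    rw [hcard] at hi
    exact ⟨⟨i, hi⟩, hx⟩
  have hbij : Function.Bijective θ := by
    rw [Fintype.bijective_iff_surjective_and_card]
    exact ⟨hsurj, by simp⟩
  let Θ : Fin (n + 1) ≃ Option (Fin n) := Equiv.ofBijective θ hbij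
  have hΘ0 : Θ 0 = none := by
    simp [Θ, θ]
  let σ : Perm (Fin n) := removeNone ((finSuccEquiv n).symm.trans Θ)
  have hσ : ∀ i, thE σ i = Θ i := by
    intro i
    refine Fin.cases ?_ (fun j => ?_) i
    · rw [thE_zero, hΘ0]
    · rw [thE_succ]
      have h1 : ∃ x, ((finSuccEquiv n).symm.trans Θ) (some j) = some x := by
        rw [← Option.ne_none_iff_exists']
        intro h2
        simp only [Equiv.trans_apply, finSuccEquiv_symm_some] at h2
        rw [← hΘ0] at h2
        exact absurd (Θ.injective h2) (Fin.succ_ne_zero j)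
      have h2 := removeNone_some _ h1
      rw [h2]
      simp
  refine ⟨σ, ?_⟩
  ext1 x
  obtain ⟨i, rfl⟩ := Θ.surjective x
  rw [← hσ i]
  simp only [Equiv.trans_apply, symm_apply_apply]
  rw [hσ, hσ]
  change τ ((τ ^ (i : ℕ)) none) = (τ ^ ((finRotate (n + 1) i : Fin (n + 1)) : ℕ)) none
  rw [← Perm.mul_apply, ← pow_succ']
  by_cases hi : (i : ℕ) = n
  · have h1 : i = Fin.last n := Fin.ext hi
    rw [h1, finRotate_last]
    have h2 := hc.pow_card_apply (Finset.mem_univ none)
    rw [hcard] at h2
    simpa using h2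
  · have h1 : (i : ℕ) < n := by omega
    rw [finRotate_of_lt h1]

/-- The span of the monomials as functions of matrices. -/
def Mon (F : Type*) [Field F] (k n : ℕ) :
    Submodule F ((Fin n → Matrix (Fin k) (Fin k) F) → Matrix (Fin k) (Fin k) F) :=
  Submodule.span F (Set.range (fun (σ : Perm (Fin n)) (x : Fin n → Matrix (Fin k) (Fin k) F) =>
    (List.ofFn (fun i => x (σ i))).prod))

theorem co_Mon_le (n : ℕ) : (Mon F k n).map (co F k n) ≤ II k F (Option (Fin n)) := by
  rw [Submodule.map_le_iff_le_comap]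
  refine Submodule.span_le.2 ?_
  rintro _ ⟨σ, rfl⟩
  have h1 : co F k n (fun x => (List.ofFn (fun i => x (σ i))).prod) ∈
      II k F (Option (Fin n)) := by
    rw [co_mono]
    exact de_mem _
  exact h1

theorem le_co_Mon (n : ℕ) : CC k F (Option (Fin n)) ≤ (Mon F k n).map (co F k n) := by
  refine Submodule.span_le.2 ?_
  rintro _ ⟨τ, hτ, rfl⟩
  obtain ⟨σ, hσ⟩ := exists_thE τ hτ
  refine ⟨fun x => (List.ofFn (fun i => x (σ i))).prod, Submodule.subset_span ⟨σ, rfl⟩, ?_⟩
  rw [co_mono, hσ]

theorem Mon_multilinear {n : ℕ} {f : (Fin n → Matrix (Fin k) (Fin k) F) →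
    Matrix (Fin k) (Fin k) F} (hf : f ∈ Mon F k n) :
    ∃ φ : MultilinearMap F (fun _ : Fin n => Matrix (Fin k) (Fin k) F)
      (Matrix (Fin k) (Fin k) F), ∀ x, φ x = f x := by
  induction hf using Submodule.span_induction with
  | mem f hf =>
    obtain ⟨σ, rfl⟩ := hf
    exact ⟨(MultilinearMap.mkPiAlgebraFin F n (Matrix (Fin k) (Fin k) F)).domDomCongr σ,
      fun x => by simp⟩
  | zero => exact ⟨0, fun x => rfl⟩
  | add f g _ _ hf hg =>
    obtain ⟨φ, hφ⟩ := hf
    obtain ⟨ψ, hψ⟩ := hg
    exact ⟨φ + ψ, fun x => by simp [hφ, hψ]⟩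
  | smul c f _ hf =>
    obtain ⟨φ, hφ⟩ := hf
    exact ⟨c • φ, fun x => by simp [hφ]⟩

theorem Mon_ext {n : ℕ} {M : Type*} [AddCommGroup M] [Module F M]
    (π : Matrix (Fin k) (Fin k) F →ₗ[F] M) {f : (Fin n → Matrix (Fin k) (Fin k) F) →
    Matrix (Fin k) (Fin k) F} (hf : f ∈ Mon F k n)
    (h : ∀ l : Fin n → Ix k, π (f (fun i => Matrix.single (l i).1 (l i).2 1)) = 0) (x) :
    π (f x) = 0 := by
  obtain ⟨φ, hφ⟩ := Mon_multilinear hf
  have h1 : π.compMultilinearMap φ = 0 := by
    refine Module.Basis.ext_multilinear (fun _ => Matrix.stdBasis F (Fin k) (Fin k)) fun l => ?_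
    have h3 : (fun i => (Matrix.stdBasis F (Fin k) (Fin k)) (l i)) =
        fun i => Matrix.single (l i).1 (l i).2 (1 : F) := by
      funext i
      exact Matrix.stdBasis_eq_single F (l i).1 (l i).2
    simp only [LinearMap.compMultilinearMap_apply, hφ]
    rw [h3, h]
    rfl
  have h2 := congrArg (fun ψ => ψ x) h1
  simp only [LinearMap.compMultilinearMap_apply, hφ] at h2
  exact h2

end

end Pool.Agent.TH42.MC
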