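import Mathlib

/-!
# Spans of contraction tensors
-/

namespace Pool.Agent.TH42.MC

open Finset Equiv
open scoped Classical

noncomputable section

/-- The contraction tensor of a bijection between lower and upper indices. -/
def dl (k : ℕ) (F : Type*) [Field F] {U L : Type} (σ : L ≃ U) : (U → Fin k) × (L → Fin k) → F :=
  fun x => if x.2 = x.1 ∘ σ then 1 else 0

/-- The span of the contraction tensors. -/
def MM (k : ℕ) (F : Type*) [Field F] (U L : Type) : Submodule F ((U → Fin k) × (L → Fin k) → F) :=
  Submodule.span F (Set.range (dl k F))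

variable {k : ℕ} {F : Type*} [Field F]

theorem ite_cong {α : Type*} {p q : Prop} {ip : Decidable p} {iq : Decidable q} (h : p ↔ q)
    {a b : α} : @ite α p ip a b = @ite α q iq a b := by
  by_cases hp : p
  · rw [if_pos hp, if_pos (h.1 hp)]
  · rw [if_neg hp, if_neg (fun hq => hp (h.2 hq))]

theorem ite_cong' {α : Type*} {p q : Prop} {ip : Decidable p} {iq : Decidable q} (h : p ↔ q)
    {a a' b : α} (h' : a = a') : @ite α p ip a b = @ite α q iq a' b := by
  rw [h']
  exact ite_cong h

theorem span_maps {X Y : Type*} {S : Set (X → F)} {T : Submodule F (Y → F)}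
    (Φ : (X → F) → (Y → F))
    (hadd : ∀ f g, Φ (f + g) = Φ f + Φ g) (hsmul : ∀ (c : F) f, Φ (c • f) = c • Φ f)
    (h : ∀ f ∈ S, Φ f ∈ T) {f : X → F} (hf : f ∈ Submodule.span F S) : Φ f ∈ T := by
  let Ψ : (X → F) →ₗ[F] (Y → F) := { toFun := Φ, map_add' := hadd, map_smul' := hsmul }
  have h1 : Submodule.span F S ≤ T.comap Ψ := Submodule.span_le.2 h
  exact h1 hf

theorem dl_mem {U L : Type} (σ : L ≃ U) : dl k F σ ∈ MM k F U L :=
  Submodule.subset_span ⟨σ, rfl⟩

theorem MM_relabel {U L U' L' : Type} (eU : U ≃ U') (eL : L ≃ L')
    {f : (U → Fin k) × (L → Fin k) → F} (hf : f ∈ MM k F U L) :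
    (fun x : (U' → Fin k) × (L' → Fin k) => f (x.1 ∘ eU, x.2 ∘ eL)) ∈ MM k F U' L' := by
  refine span_maps (fun f (x : (U' → Fin k) × (L' → Fin k)) => f (x.1 ∘ eU, x.2 ∘ eL))
    (fun _ _ => rfl) (fun _ _ => rfl) ?_ hf
  rintro _ ⟨σ, rfl⟩
  have : (fun x : (U' → Fin k) × (L' → Fin k) => dl k F σ (x.1 ∘ eU, x.2 ∘ eL)) =
      dl k F (eL.symm.trans (σ.trans eU)) := by
    funext x
    simp only [dl]
    refine if_congr ?_ rfl rfl
    constructor
    · intro h
      funext s
      have h1 := congrFun h (eL.symm s)
      simp only [Function.comp_apply, apply_symm_apply] at h1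
      simpa using h1
    · intro h
      funext s
      have h1 := congrFun h (eL s)
      simpa using h1
  rw [this]
  exact dl_mem _

theorem MM_transpose {U L : Type} {f : (U → Fin k) × (L → Fin k) → F} (hf : f ∈ MM k F U L) :
    (fun x : (L → Fin k) × (U → Fin k) => f (x.2, x.1)) ∈ MM k F L U := by
  refine span_maps (fun f (x : (L → Fin k) × (U → Fin k)) => f (x.2, x.1))
    (fun _ _ => rfl) (fun _ _ => rfl) ?_ hf
  rintro _ ⟨σ, rfl⟩
  have : (fun x : (L → Fin k) × (U → Fin k) => dl k F σ (x.2, x.1)) = dl k F σ.symm := by
    funext x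
    simp only [dl]
    refine if_congr ?_ rfl rfl
    constructor
    · intro h
      rw [h]
      funext s
      simp
    · intro h
      rw [h]
      funext s
      simp
  rw [this]
  exact dl_mem _

theorem MM_tensor {U L U' L' : Type} {f : (U → Fin k) × (L → Fin k) → F}
    {g : (U' → Fin k) × (L' → Fin k) → F} (hf : f ∈ MM k F U L) (hg : g ∈ MM k F U' L') :
    (fun x : (U ⊕ U' → Fin k) × (L ⊕ L' → Fin k) =>
      f (x.1 ∘ Sum.inl, x.2 ∘ Sum.inl) * g (x.1 ∘ Sum.inr, x.2 ∘ Sum.inr)) ∈
      MM k F (U ⊕ U') (L ⊕ L') := by
  refine span_maps (fun f (x : (U ⊕ U' → Fin k) × (L ⊕ L' → Fin k)) =>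
      f (x.1 ∘ Sum.inl, x.2 ∘ Sum.inl) * g (x.1 ∘ Sum.inr, x.2 ∘ Sum.inr))
      (fun _ _ => by funext x; simp [add_mul]) (fun _ _ => by funext x; simp [mul_assoc]) ?_ hf
  rintro _ ⟨σ, rfl⟩
  refine span_maps (fun g (x : (U ⊕ U' → Fin k) × (L ⊕ L' → Fin k)) =>
      dl k F σ (x.1 ∘ Sum.inl, x.2 ∘ Sum.inl) * g (x.1 ∘ Sum.inr, x.2 ∘ Sum.inr))
      (fun _ _ => by funext x; simp [mul_add]) (fun _ _ => by funext x; simp [mul_left_comm]) ?_ hg
  rintro _ ⟨τ, rfl⟩
  have : (fun x : (U ⊕ U' → Fin k) × (L ⊕ L' → Fin k) =>
      dl k F σ (x.1 ∘ Sum.inl, x.2 ∘ Sum.inl) * dl k F τ (x.1 ∘ Sum.inr, x.2 ∘ Sum.inr)) =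
      dl k F (Equiv.sumCongr σ τ) := by
    funext x
    simp only [dl]
    rw [ite_mul, one_mul, zero_mul, ← ite_and]
    refine if_congr ?_ rfl rfl
    constructor
    · rintro ⟨h1, h2⟩
      funext s
      cases s with
      | inl s => simpa using congrFun h1 s
      | inr s => simpa using congrFun h2 s
    · intro h
      constructor
      · funext s
        simpa using congrFun h (Sum.inl s)
      · funext s
        simpa using congrFun h (Sum.inr s)
  rw [this]
  exact dl_mem _

theorem MM_contr_option {U L : Type} {f : (Option U → Fin k) × (Option L → Fin k) → F}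
    (hf : f ∈ MM k F (Option U) (Option L)) :
    (fun x : (U → Fin k) × (L → Fin k) =>
      ∑ p : Fin k, f (fun s => s.elim p x.1, fun s => s.elim p x.2)) ∈ MM k F U L := by
  refine span_maps (fun f (x : (U → Fin k) × (L → Fin k)) =>
      ∑ p : Fin k, f (fun s => s.elim p x.1, fun s => s.elim p x.2))
      (fun _ _ => by funext x; simp [sum_add_distrib])
      (fun _ _ => by funext x; simp [mul_sum]) ?_ hf
  rintro _ ⟨σ, rfl⟩
  by_cases h0 : σ none = none
  · have : (fun x : (U → Fin k) × (L → Fin k) =>
        ∑ p : Fin k, dl k F σ (fun s => s.elim p x.1, fun s => s.elim p x.2)) =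
        (k : F) • dl k F (removeNone σ) := by
      funext x
      have : ∀ p : Fin k, dl k F σ (fun s => s.elim p x.1, fun s => s.elim p x.2) =
          dl k F (removeNone σ) x := by
        intro p
        simp only [dl]
        refine if_congr ?_ rfl rfl
        have h1 : ∀ s, σ (some s) = some (removeNone σ s) := by
          intro s
          have h2 : ∃ x', σ (some s) = some x' := by
            rw [← Option.ne_none_iff_exists']
            intro h3
            rw [← h0] at h3
            exact Option.some_ne_none _ (σ.injective h3)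
          exact (removeNone_some σ h2).symm
        constructor
        · intro h
          funext s
          have h2 := congrFun h (some s)
          simpa [h1] using h2
        · intro h
          funext s
          cases s with
          | none => simp [h0]
          | some s => simp [h1, h]
      simp [this]
    rw [this]
    exact Submodule.smul_mem _ _ (dl_mem _)
  · have : (fun x : (U → Fin k) × (L → Fin k) =>
        ∑ p : Fin k, dl k F σ (fun s => s.elim p x.1, fun s => s.elim p x.2)) =
        dl k F (removeNone σ) := by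
      obtain ⟨u, hu⟩ := Option.ne_none_iff_exists'.1 h0
      have h0' : σ.symm none ≠ none := by
        rw [Ne, option_symm_apply_none_iff]
        exact h0
      obtain ⟨s0, hs0⟩ := Option.ne_none_iff_exists'.1 h0'
      have hs0' : σ (some s0) = none := by
        rw [← hs0, apply_symm_apply]
      have hr0 : removeNone σ s0 = u := by
        have := removeNone_none σ hs0'
        rw [hu] at this
        exact Option.some_injective _ this
      have hr : ∀ s, s ≠ s0 → σ (some s) = some (removeNone σ s) := by
        intro s hs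
        have h2 : ∃ x', σ (some s) = some x' := by
          rw [← Option.ne_none_iff_exists']
          intro h3
          rw [← hs0'] at h3
          exact hs (Option.some_injective _ (σ.injective h3))
        exact (removeNone_some σ h2).symm
      funext x
      have : ∀ p : Fin k, dl k F σ (fun s => s.elim p x.1, fun s => s.elim p x.2) =
          if p = x.1 u then dl k F (removeNone σ) x else 0 := by
        intro p
        simp only [dl]
        rw [← ite_and]
        refine if_congr ?_ rfl rfl
        constructor
        · intro h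
          have h1 : p = x.1 u := by simpa [hu] using congrFun h none
          refine ⟨h1, ?_⟩
          funext s
          by_cases hs : s = s0
          · subst hs
            have h2 := congrFun h (some s)
            simp only [Option.elim_some, Function.comp_apply, hs0', Option.elim_none] at h2
            rw [Function.comp_apply, hr0, h2, h1]
          · have h2 := congrFun h (some s)
            simpa [hr s hs] using h2
        · rintro ⟨h1, h2⟩
          funext s
          cases s with
          | none => simp [hu, h1]
          | some s =>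
            by_cases hs : s = s0
            · subst hs
              simp only [Option.elim_some, Function.comp_apply, hs0', Option.elim_none]
              rw [h2, Function.comp_apply, hr0, h1]
            · simp [hr s hs, h2]
      simp [this]
    rw [this]
    exact dl_mem _

/-- Moving an extra point out of a sum. -/
def optSum (U α : Type) : U ⊕ Option α ≃ Option (U ⊕ α) where
  toFun := Sum.elim (fun u => some (Sum.inl u)) (fun o => o.elim none (fun a => some (Sum.inr a)))
  invFun := fun o => o.elim (Sum.inr none) (Sum.elim Sum.inl (fun a => Sum.inr (some a)))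
  left_inv := fun s => by rcases s with s | (_ | s) <;> rfl
  right_inv := fun s => by rcases s with _ | (s | s) <;> rfl

theorem MM_contr (S : Type) [Fintype S] : ∀ [DecidableEq S] (U L : Type)
    (f : (U ⊕ S → Fin k) × (L ⊕ S → Fin k) → F), f ∈ MM k F (U ⊕ S) (L ⊕ S) →
    (fun x : (U → Fin k) × (L → Fin k) =>
      ∑ γ : S → Fin k, f (Sum.elim x.1 γ, Sum.elim x.2 γ)) ∈ MM k F U L := by
  refine Fintype.induction_empty_option (P := fun S _ => ∀ [DecidableEq S] (U L : Type)
    (f : (U ⊕ S → Fin k) × (L ⊕ S → Fin k) → F), f ∈ MM k F (U ⊕ S) (L ⊕ S) →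
    (fun x : (U → Fin k) × (L → Fin k) =>
      ∑ γ : S → Fin k, f (Sum.elim x.1 γ, Sum.elim x.2 γ)) ∈ MM k F U L) ?_ ?_ ?_ S
  · intro α β _ e ih _ U L f hf
    let _ : Fintype α := Fintype.ofEquiv β e.symm
    have h1 := ih U L _ (MM_relabel (Equiv.sumCongr (Equiv.refl U) e.symm)
      (Equiv.sumCongr (Equiv.refl L) e.symm) hf)
    convert h1 using 1
    funext x
    refine Fintype.sum_equiv (Equiv.arrowCongr e.symm (Equiv.refl _)) _ _ fun γ => ?_
    congr 1
    ext s
    · cases s <;> simp
    · cases s <;> simp
  · intro _ U L f hf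
    have h1 := MM_relabel (Equiv.sumEmpty U PEmpty) (Equiv.sumEmpty L PEmpty) hf
    convert h1 using 1
    funext x
    rw [Fintype.sum_unique]
    congr 1
    ext s
    · rcases s with s | s
      · simp
      · exact s.elim
    · rcases s with s | s
      · simp
      · exact s.elim
  · intro α _ ih _ U L f hf
    have h1 := MM_contr_option (MM_relabel (optSum U α) (optSum L α) hf)
    have h2 := ih U L _ h1
    convert h2 using 1
    funext x
    rw [← (Equiv.piOptionEquivProd (β := fun _ => Fin k)).symm.sum_comp, Fintype.sum_prod_type, Finset.sum_comm]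
    refine Finset.sum_congr rfl fun γ _ => Finset.sum_congr rfl fun p _ => ?_
    congr 1
    ext s
    · rcases s with s | (_ | s) <;> simp [optSum, Equiv.piOptionEquivProd]
    · rcases s with s | (_ | s) <;> simp [optSum, Equiv.piOptionEquivProd]

end

end Pool.Agent.TH42.MC
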