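import Pool.Agent.TH42.MC.Contr

/-!
# A nonzero good function of one variable
-/

namespace Pool.Agent.TH42.MC

open Finset Equiv
open scoped Classical

noncomputable section

variable {F : Type*} [Field F] {k : ℕ}

theorem exists_full_cycle (α : Type) [Fintype α] : ∃ ρ : Perm α, ∀ s t, ρ.SameCycle s t := by
  refine Fintype.induction_empty_option
    (P := fun α _ => ∃ ρ : Perm α, ∀ s t, ρ.SameCycle s t) ?_ ?_ ?_ α
  · rintro α β _ e ⟨ρ, hρ⟩
    exact ⟨_, sameCycle_conj e ρ hρ⟩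
  · exact ⟨1, fun s => s.elim⟩
  · rintro α _ ⟨ρ, hρ⟩
    by_cases hα : Nonempty α
    · obtain ⟨s⟩ := hα
      exact ⟨_, insP_sameCycle s ρ hρ⟩
    · refine ⟨1, fun s t => ?_⟩
      have : s = t := by
        cases s with
        | none =>
          cases t with
          | none => rfl
          | some t => exact absurd ⟨t⟩ hα
        | some s => exact absurd ⟨s⟩ hα
      rw [this]

/-- The cyclic pattern of a Capelli polynomial. -/
def capP (ρ : Perm (Ix k)) : Perm (Unit × Ix k ⊕ Ix k) where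
  toFun := Sum.elim (fun x => Sum.inr x.2) (fun i => Sum.inl ((), ρ i))
  invFun := Sum.elim (fun x => Sum.inr (ρ.symm x.2)) (fun i => Sum.inl ((), i))
  left_inv := fun x => by rcases x with ⟨_, i⟩ | i <;> simp
  right_inv := fun x => by rcases x with ⟨_, i⟩ | i <;> simp

theorem capP_sameCycle (ρ : Perm (Ix k)) (hρ : ∀ s t, ρ.SameCycle s t)
    (x y : Unit × Ix k ⊕ Ix k) : (capP ρ).SameCycle x y := by
  have h1 : ∀ i, (capP ρ).SameCycle (Sum.inl ((), i)) (Sum.inr i) := fun i =>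
    sameCycle_step (capP ρ) (Sum.inl ((), i))
  have h2 : ∀ i, (capP ρ).SameCycle (Sum.inr i) (Sum.inl ((), ρ i)) := fun i =>
    sameCycle_step (capP ρ) (Sum.inr i)
  have h3 : ∀ i j, (capP ρ).SameCycle (Sum.inl ((), i)) (Sum.inl ((), j)) := fun i j =>
    sameCycle_of_step ρ
      (fun i j => (capP ρ).SameCycle (Sum.inl ((), i)) (Sum.inl ((), j)))
      ⟨fun x => Perm.SameCycle.refl _ _, fun h => h.symm, fun h h' => h.trans h'⟩
      (fun i => (h1 i).trans (h2 i)) (hρ i j)
  have h4 : ∀ x, ∃ i, (capP ρ).SameCycle x (Sum.inl ((), i)) := by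
    rintro (⟨_, i⟩ | i)
    · exact ⟨i, Perm.SameCycle.refl _ _⟩
    · exact ⟨i, (h1 i).symm⟩
  obtain ⟨i, hi⟩ := h4 x
  obtain ⟨j, hj⟩ := h4 y
  exact (hi.trans (h3 i j)).trans hj.symm

/-- The function left after splitting the determinant from a Capelli polynomial. -/
def capH (F : Type*) [Field F] (ρ : Perm (Ix k)) : (Ix k → Ix k) → F := fun v =>
  ∑ π : Unit → Perm (Ix k), sgJ F π * de k F (capP ρ) (Sum.elim (fun x => π x.1 x.2) v)

theorem capH_int (ρ : Perm (Ix k)) (v : Ix k → Ix k) : ∃ z : ℤ, capH F ρ v = (z : F) := by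
  refine ⟨∑ π : Unit → Perm (Ix k), (∏ j, (Perm.sign (π j) : ℤ)) *
    if (∀ s, (Sum.elim (fun x : Unit × Ix k => π x.1 x.2) v s).2 =
      (Sum.elim (fun x : Unit × Ix k => π x.1 x.2) v (capP ρ s)).1) then 1 else 0, ?_⟩
  rw [capH]
  push_cast
  refine Finset.sum_congr rfl fun π _ => ?_
  congr 1
  simp only [de]
  split_ifs <;> simp

theorem capH_one (ρ : Perm (Ix k)) : capH F ρ (fun i => (i.2, (ρ i).1)) = 1 := by
  rw [capH, Finset.sum_eq_single (fun _ => 1)]
  · rw [de, if_pos]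
    · simp [sgJ]
    · rintro (⟨_, i⟩ | i)
      · rfl
      · rfl
  · intro π _ hπ
    rw [de, if_neg, mul_zero]
    intro h
    apply hπ
    funext u
    ext1 i
    have h1 := h (Sum.inl ((), i))
    have h2 := h (Sum.inr (ρ.symm i))
    have h3 : (π () i).2 = i.2 := h1
    have h4 : (ρ (ρ.symm i)).1 = (π () (ρ (ρ.symm i))).1 := h2
    rw [apply_symm_apply] at h4
    exact Prod.ext h4.symm h3
  · intro h
    exact absurd (Finset.mem_univ _) h

theorem capH_mem [CharZero F] (ρ : Perm (Ix k)) (hρ : ∀ s t, ρ.SameCycle s t) :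
    capH F ρ ∈ GG k F Unit (Ix k) := by
  rw [mem_GG]
  have h0 : de k F (capP ρ) ∈ CC k F (Unit × Ix k ⊕ Ix k) :=
    Submodule.subset_span ⟨_, capP_sameCycle ρ hρ, rfl⟩
  have h1 := Submodule.sum_mem _ (fun (π : Unit → Perm (Ix k)) (_ : π ∈ univ) =>
    Submodule.smul_mem _ (sgJ F π) (CC_relabel (Equiv.sumCongr (Equiv.prodCongrRight π)
      (Equiv.refl (Ix k))) h0))
  convert h1 using 1
  funext l
  rw [Finset.sum_apply]
  simp only [Pi.smul_apply, smul_eq_mul]
  have h2 := alt_sum (fun y => de k F (capP ρ) (Sum.elim y (l ∘ Sum.inr))) (l ∘ Sum.inl)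
  refine h2.symm.trans ?_
  refine Finset.sum_congr rfl fun π _ => ?_
  congr 2
  funext x
  rcases x with x | x <;> rfl

/-- Determinants over pairs of blocks can be removed. -/
theorem II_of_mulDJ [CharZero F] {J' R : Type} [Fintype J'] {G : (R → Ix k) → F}
    (h : (fun l : (J' ⊕ J') × Ix k ⊕ R → Ix k => DJ F (l ∘ Sum.inl) * G (l ∘ Sum.inr)) ∈
      II k F ((J' ⊕ J') × Ix k ⊕ R)) : G ∈ II k F R := by
  let e : (J' ⊕ J') × Ix k ⊕ R ≃ R ⊕ ((J' × Ix k) ⊕ (J' × Ix k)) :=
    (Equiv.sumComm _ _).trans (Equiv.sumCongr (Equiv.refl R) (Equiv.sumProdDistrib J' J' (Ix k)))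
  have h1 := II_contr (II_relabel e h)
  have h2 : (fun l : R → Ix k => ∑ a : J' × Ix k → Ix k,
      (fun l : (J' ⊕ J') × Ix k ⊕ R → Ix k => DJ F (l ∘ Sum.inl) * G (l ∘ Sum.inr))
        ((Sum.elim l (Sum.elim a (fun s => (a s).swap))) ∘ e)) =
      (dd F (Prod.swap : Ix k → Ix k) ^ (Fintype.card J') *
        ∑ a : J' × Ix k → Ix k, DJ F a * DJ F a) • G := by
    funext l
    rw [Pi.smul_apply, smul_eq_mul, Finset.mul_sum, Finset.sum_mul]
    refine Finset.sum_congr rfl fun a _ => ?_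
    have h3 : DJ F (((Sum.elim l (Sum.elim a (fun s => (a s).swap))) ∘ e) ∘ Sum.inl) =
        DJ F a * DJ F (fun s => (a s).swap) := by
      simp only [DJ, Fintype.prod_sum_type]
      rfl
    have h4 : (((Sum.elim l (Sum.elim a (fun s => (a s).swap))) ∘ e) ∘ Sum.inr) = l := rfl
    simp only [h3, h4, DJ_swap]
    ring
  rw [h2] at h1
  have hne : (dd F (Prod.swap : Ix k → Ix k) ^ (Fintype.card J') *
        ∑ a : J' × Ix k → Ix k, DJ F a * DJ F a) ≠ 0 := by
    refine mul_ne_zero (pow_ne_zero _ fun h0 => ?_) DJ_sq_sum_ne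
    have h5 := dd_swap_mul_self (F := F) (k := k)
    rw [h0, mul_zero] at h5
    exact zero_ne_one h5
  exact (Submodule.smul_mem_iff _ hne).1 h1

theorem tr_mem [CharZero F] (hk : 1 ≤ k) :
    de k F (1 : Perm Unit) ∈ GG k F ((Unit ⊕ Ix k) ⊕ (Unit ⊕ Ix k)) Unit := by
  obtain ⟨ρ, hρ⟩ := exists_full_cycle (Ix k)
  let i0 : Ix k := (⟨0, hk⟩, ⟨0, hk⟩)
  set h : (Ix k → Ix k) → F := capH F ρ with hh
  have hG : h ∈ GG k F Unit (Ix k) := capH_mem ρ hρ
  have hf : (fun l : Unit × Ix k ⊕ Ix k → Ix k => DJ F (l ∘ Sum.inl) * h (l ∘ Sum.inr)) ∈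
      II k F (Unit × Ix k ⊕ Ix k) := CC_le_II hG
  have hf' := II_star hf
  have h1 := GG_mul hk () hG (Unit × Ix k ⊕ Ix k) _ hf'
  have h2 := GG_ins (Sum.inl i0) h1
  let e : Option (Ix k ⊕ (Unit × Ix k ⊕ Ix k)) ≃ (Unit ⊕ Unit × Ix k) ⊕ (Ix k ⊕ Ix k) :=
    { toFun := fun o => o.elim (Sum.inl (Sum.inl ()))
        (Sum.elim (fun v => Sum.inr (Sum.inl v))
          (Sum.elim (fun y => Sum.inl (Sum.inr y)) (fun v => Sum.inr (Sum.inr v))))
      invFun := Sum.elim (Sum.elim (fun _ => none) (fun y => some (Sum.inr (Sum.inl y))))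
        (Sum.elim (fun v => some (Sum.inl v)) (fun v => some (Sum.inr (Sum.inr v))))
      left_inv := fun x => by rcases x with _ | (v | (y | v)) <;> rfl
      right_inv := fun x => by rcases x with (_ | y) | (v | v) <;> rfl }
  have h3 := GG_relabel e h2
  have h4 := GG_contr hk () h3
  set g : Ix k → F := fun t => ∑ a : Ix k → Ix k, (if (a i0).2 = t.1 then
    h (Function.update a i0 ((a i0).1, t.2)) * h a else 0) with hg
  have h5 : (fun l : Unit → Ix k => dd F (Prod.swap : Ix k → Ix k) * g (l ())) ∈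
      GG k F ((Unit ⊕ (Ix k ⊕ Ix k)) ⊕ Unit) Unit := by
    refine GG_absorb (J' := Unit) ?_
    convert h4 using 1
    funext l
    rw [hg]
    simp only []
    rw [Finset.mul_sum, Finset.sum_mul]
    refine Finset.sum_congr rfl fun a _ => ?_
    simp only [ins]
    rw [mul_ite, mul_zero, ite_mul, zero_mul]
    refine ite_cong' Iff.rfl ?_
    rw [upd_inl_inl, upd_inl_inr]
    have h6 : DJ F (fun x => (l (Sum.inr x)).swap) =
        dd F (Prod.swap : Ix k → Ix k) * DJ F (l ∘ Sum.inr) := by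
      have h7 := DJ_swap (F := F) (l ∘ Sum.inr)
      rw [Fintype.card_unit, pow_one] at h7
      exact h7
    have h7 : ∀ X Y Z : F, X = h (Function.update a i0 ((a i0).1, ((l ∘ Sum.inl) ()).2)) →
        Y = DJ F (fun x => (l (Sum.inr x)).swap) → Z = h a →
        dd F (Prod.swap : Ix k → Ix k) * (h (Function.update a i0 ((a i0).1, ((l ∘ Sum.inl) ()).2)) * h a) *
          DJ F (l ∘ Sum.inr) = X * (Y * Z) := by
      rintro X Y Z rfl rfl rfl
      rw [h6]
      ring
    refine h7 _ _ _ rfl rfl ?_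
    congr 1
  have h6 := GG_J_relabel (J' := (Unit ⊕ Ix k) ⊕ (Unit ⊕ Ix k))
    { toFun := Sum.elim (Sum.elim (fun u => Sum.inl (Sum.inl u))
        (Sum.elim (fun v => Sum.inl (Sum.inr v)) (fun v => Sum.inr (Sum.inr v))))
        (fun u => Sum.inr (Sum.inl u))
      invFun := Sum.elim (Sum.elim (fun u => Sum.inl (Sum.inl u))
        (fun v => Sum.inl (Sum.inr (Sum.inl v))))
        (Sum.elim (fun u => Sum.inr u) (fun v => Sum.inl (Sum.inr (Sum.inr v))))
      left_inv := fun x => by rcases x with (_ | (v | v)) | _ <;> rfl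
      right_inv := fun x => by rcases x with (_ | v) | (_ | v) <;> rfl } h5
  have h7 : (fun l : Unit → Ix k => dd F (Prod.swap : Ix k → Ix k) * g (l ())) ∈
      II k F Unit := II_of_mulDJ (CC_le_II (mem_GG.1 h6))
  have h8 : ∃ γ : F, (fun l : Unit → Ix k => dd F (Prod.swap : Ix k → Ix k) * g (l ())) =
      γ • de k F (1 : Perm Unit) := by
    have h9 : II k F Unit = Submodule.span F {de k F (1 : Perm Unit)} := by
      rw [II]
      congr 1
      ext f
      constructor
      · rintro ⟨σ, rfl⟩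
        rw [Subsingleton.elim σ 1]
        rfl
      · rintro rfl
        exact ⟨1, rfl⟩
    rw [h9, Submodule.mem_span_singleton] at h7
    obtain ⟨γ, hγ⟩ := h7
    exact ⟨γ, hγ.symm⟩
  obtain ⟨γ, hγ⟩ := h8
  have h9 : ∑ p : Fin k, g (p, p) = ∑ a : Ix k → Ix k, h a * h a := by
    simp only [hg]
    rw [Finset.sum_comm]
    refine Finset.sum_congr rfl fun a _ => ?_
    rw [Finset.sum_eq_single (a i0).2]
    · rw [if_pos rfl]
      congr 2
      rw [Function.update_eq_self_iff]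
    · intro p _ hp
      rw [if_neg (fun h => hp h.symm)]
    · intro h
      exact absurd (Finset.mem_univ _) h
  have h10 : ∑ a : Ix k → Ix k, h a * h a ≠ 0 := by
    choose z hz using capH_int (F := F) ρ
    have h11 : ∑ a : Ix k → Ix k, h a * h a = ((∑ a : Ix k → Ix k, z a * z a : ℤ) : F) := by
      push_cast
      refine Finset.sum_congr rfl fun a _ => ?_
      rw [hh, hz]
    rw [h11, Int.cast_ne_zero]
    have h12 : z (fun i => (i.2, (ρ i).1)) = 1 := by
      have h13 := capH_one (F := F) ρ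
      rw [hz] at h13
      exact_mod_cast h13
    have h14 : 0 < ∑ a : Ix k → Ix k, z a * z a := by
      refine Finset.sum_pos' (fun a _ => mul_self_nonneg _)
        ⟨(fun i => (i.2, (ρ i).1)), Finset.mem_univ _, ?_⟩
      rw [h12]
      norm_num
    exact h14.ne'
  have h11 : γ ≠ 0 := by
    intro h0
    apply h10
    rw [← h9]
    refine Finset.sum_eq_zero fun p _ => ?_
    have h12 := congrFun hγ (fun _ => (p, p))
    rw [h0, zero_smul] at h12
    simp only [Pi.zero_apply, mul_eq_zero] at h12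
    refine h12.resolve_left fun h13 => ?_
    have h5 := dd_swap_mul_self (F := F) (k := k)
    rw [h13, mul_zero] at h5
    exact zero_ne_one h5
  rw [hγ] at h6
  exact (Submodule.smul_mem_iff _ h11).1 h6

end

end Pool.Agent.TH42.MC
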